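import Mathlib

/-! A barrier lemma for finitely many functions of one variable. -/

namespace Pool.Agent.H219.Dy

open Set Filter Topology

theorem barrier {ι : Type*} [Finite ι] (T : ℝ) (φ φ' : ι → ℝ → ℝ)
    (h0 : ∀ i, 0 < φ i 0)
    (hd : ∀ i, ∀ t ∈ Icc (0:ℝ) T, HasDerivWithinAt (φ i) (φ' i t) (Icc 0 T) t)
    (H : ∀ t ∈ Ioc (0:ℝ) T, (∀ j, 0 ≤ φ j t) → ∀ i, φ i t = 0 → 0 < φ' i t) :
    ∀ t ∈ Icc (0:ℝ) T, ∀ i, 0 < φ i t := by
  classical
  by_contra hcon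
  push Not at hcon
  obtain ⟨t1, ht1, i1, hi1⟩ := hcon
  have hc : ∀ i, ContinuousOn (φ i) (Icc 0 T) := fun i t ht => (hd i t ht).continuousWithinAt
  let S : Set ℝ := ⋃ i, {t | t ∈ Icc (0:ℝ) T ∧ φ i t ≤ 0}
  have hScl : IsClosed S := by
    apply isClosed_iUnion_of_finite
    intro i
    have : {t | t ∈ Icc (0:ℝ) T ∧ φ i t ≤ 0} = Icc (0:ℝ) T ∩ (φ i) ⁻¹' (Iic 0) := by
      ext t; simp [and_comm]
    rw [this]
    exact (hc i).preimage_isClosed_of_isClosed isClosed_Icc isClosed_Iic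
  have hSsub : S ⊆ Icc 0 T := by
    intro t ht
    obtain ⟨i, hi⟩ := mem_iUnion.1 ht
    exact hi.1
  have hScomp : IsCompact S := isCompact_Icc.of_isClosed_subset hScl hSsub
  have hSne : S.Nonempty := ⟨t1, mem_iUnion.2 ⟨i1, ht1, hi1⟩⟩
  obtain ⟨t0, ht0, hmin⟩ := hScomp.exists_isLeast hSne
  obtain ⟨i, hi, hile⟩ := mem_iUnion.1 ht0
  have hbefore : ∀ t, 0 ≤ t → t < t0 → ∀ j, 0 < φ j t := by
    intro t h0t htt j
    by_contra hneg
    push Not at hneg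
    have : t ∈ S := mem_iUnion.2 ⟨j, ⟨h0t, htt.le.trans hi.2⟩, hneg⟩
    exact absurd (hmin this) (not_le.2 htt)
  have ht0pos : 0 < t0 := by
    rcases hi.1.lt_or_eq with h | h
    · exact h
    · exfalso
      rw [← h] at hile
      exact absurd (h0 i) (not_lt.2 hile)
  -- by continuity all φ j t0 ≥ 0
  have hnn : ∀ j, 0 ≤ φ j t0 := by
    intro j
    have hcw : ContinuousWithinAt (φ j) (Icc 0 T) t0 := hc j t0 hi
    have hcw' : ContinuousWithinAt (φ j) (Ico 0 t0) t0 :=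
      hcw.mono (fun t ht => ⟨ht.1, ht.2.le.trans hi.2⟩)
    have hne : (𝓝[Ico 0 t0] t0).NeBot := by
      rw [← mem_closure_iff_nhdsWithin_neBot, closure_Ico ht0pos.ne]
      exact ⟨ht0pos.le, le_refl _⟩
    apply ge_of_tendsto (hcw'.tendsto)
    filter_upwards [self_mem_nhdsWithin] with t ht
    exact (hbefore t ht.1 ht.2 j).le
  have hzero : φ i t0 = 0 := le_antisymm hile (hnn i)
  have hpos := H t0 ⟨ht0pos, hi.2⟩ hnn i hzero
  have hder := hd i t0 hi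
  have hder' : HasDerivWithinAt (φ i) (φ' i t0) (Ico 0 t0) t0 :=
    hder.mono (fun t ht => ⟨ht.1, ht.2.le.trans hi.2⟩)
  rw [hasDerivWithinAt_iff_tendsto_slope' (by simp)] at hder'
  have hne : (𝓝[Ico 0 t0] t0).NeBot := by
    rw [← mem_closure_iff_nhdsWithin_neBot, closure_Ico ht0pos.ne]
    exact ⟨ht0pos.le, le_refl _⟩
  have hev := hder'.eventually (lt_mem_nhds hpos)
  obtain ⟨t, hts, htm⟩ := (hev.and self_mem_nhdsWithin).exists
  rw [slope_def_field, hzero, sub_zero] at hts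
  have h1 : t - t0 < 0 := by linarith [htm.2]
  have h2 := hbefore t htm.1 htm.2 i
  have : φ i t / (t - t0) < 0 := div_neg_of_pos_of_neg h2 h1
  linarith

end Pool.Agent.H219.Dy
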