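import Mathlib

/-! The viscous dyadic model. -/

namespace Pool.Agent.H219.Dy

/-- `X` is a solution on `[0, ∞)` of the dyadic (Desnyansky-Novikov, Katz-Pavlović) model
`Xₙ' = - ν 4ⁿ Xₙ + 2^(β (n-1)) Xₙ₋₁² - 2^(β n) Xₙ Xₙ₊₁`, `n = 0, 1, 2, …`, `X₋₁ = 0`. -/
def IsSol (β ν : ℝ) (X : ℕ → ℝ → ℝ) : Prop :=
  ∀ n : ℕ, ∀ t : ℝ, 0 ≤ t → HasDerivWithinAt (X n)
    (-(ν * 4 ^ n * X n t) + (if n = 0 then 0 else 2 ^ (β * ((n : ℝ) - 1)) * X (n - 1) t ^ 2)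
      - 2 ^ (β * (n : ℝ)) * X n t * X (n + 1) t) (Set.Ici 0) t

end Pool.Agent.H219.Dy
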