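import Pool.Agent.H219.Dy.Defs
import Pool.Agent.H219.Dy.Barrier

/-! Positivity, energy inequality and uniqueness for the dyadic model. -/

set_option maxHeartbeats 4000000

namespace Pool.Agent.H219.Dy

open Set Filter Topology

theorem le_of_deriv_le {T c : ℝ} {f f' : ℝ → ℝ}
    (hd : ∀ t ∈ Icc (0:ℝ) T, HasDerivWithinAt f (f' t) (Icc 0 T) t)
    (hle : ∀ t ∈ Icc (0:ℝ) T, f' t ≤ c) : ∀ t ∈ Icc (0:ℝ) T, f t ≤ f 0 + c * t := by
  intro t ht
  apply le_of_forall_pos_le_add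
  intro ε hε
  have h1t : 0 < 1 + t := by linarith [ht.1]
  set η := ε / (1 + t) with hηd
  have hη : 0 < η := by positivity
  have key := barrier (ι := Unit) T (fun _ x => f 0 + c * x + η * (1 + x) - f x)
    (fun _ x => c + η - f' x)
    (fun _ => by simp only [mul_zero, add_zero, mul_one]; linarith)
    (fun _ x hx => by
      have h1 : HasDerivWithinAt (fun x => f 0 + c * x + η * (1 + x)) (c * 1 + η * 1) (Icc 0 T) x :=
        (((hasDerivWithinAt_id x (Icc (0:ℝ) T)).const_mul c).const_add (f 0)).add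
          (((hasDerivWithinAt_id x (Icc (0:ℝ) T)).const_add 1).const_mul η)
      rw [mul_one, mul_one] at h1
      exact h1.sub (hd x hx))
    (fun x hx _ _ _ => by
      have := hle x ⟨hx.1.le, hx.2⟩
      linarith) t ht ()
  have e : η * (1 + t) = ε := by rw [hηd]; field_simp
  linarith

/-- any solution with nonnegative initial data is nonnegative -/
theorem IsSol.nonneg {β ν : ℝ} {X : ℕ → ℝ → ℝ} (hX : IsSol β ν X) (h0 : ∀ n, 0 ≤ X n 0) :
    ∀ n t, 0 ≤ t → 0 ≤ X n t := by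
  intro n T hT
  have hc : ContinuousOn (X (n+1)) (Icc 0 T) := fun t ht =>
    ((hX (n+1) t ht.1).continuousWithinAt).mono (fun x hx => hx.1)
  obtain ⟨B, hB⟩ := isCompact_Icc.exists_bound_of_continuousOn hc
  set L : ℝ := |ν| * 4 ^ n + 2 ^ (β * (n:ℝ)) * |B| + 1 with hL
  apply le_of_forall_pos_le_add
  intro ε hε
  set η := ε / Real.exp (L * T) with hηd
  have hη : 0 < η := by positivity
  have key := barrier (ι := Unit) T (fun _ x => X n x + η * Real.exp (L * x))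
    (fun _ x => (-(ν * 4 ^ n * X n x) + (if n = 0 then 0 else 2 ^ (β * ((n : ℝ) - 1)) * X (n - 1) x ^ 2)
      - 2 ^ (β * (n : ℝ)) * X n x * X (n + 1) x) + η * (Real.exp (L * x) * (L * 1)))
    (fun _ => by
      have := h0 n
      simp only [mul_zero, Real.exp_zero, mul_one]; linarith)
    (fun _ x hx => by
      have h1 : HasDerivWithinAt (fun x => η * Real.exp (L * x)) (η * (Real.exp (L * x) * (L * 1)))
          (Icc 0 T) x :=
        (((hasDerivWithinAt_id x (Icc (0:ℝ) T)).const_mul L).exp).const_mul η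
      exact ((hX n x hx.1).mono (fun y hy => hy.1)).add h1)
    (fun x hx _ _ hz => by
      have hXn : X n x = - (η * Real.exp (L * x)) := by linarith
      have hx' : x ∈ Icc (0:ℝ) T := ⟨hx.1.le, hx.2⟩
      have hb := hB x hx'
      rw [Real.norm_eq_abs] at hb
      have hb2 : -|B| ≤ X (n+1) x := by
        have := neg_abs_le (X (n+1) x)
        have := le_abs_self B
        linarith
      have hν : -|ν| ≤ ν := neg_abs_le ν
      have hp : 0 < η * Real.exp (L * x) := by positivity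
      have hsrc : 0 ≤ (if n = 0 then (0:ℝ) else 2 ^ (β * ((n : ℝ) - 1)) * X (n - 1) x ^ 2) := by
        split_ifs
        · exact le_refl _
        · positivity
      have h4 : (0:ℝ) < 4 ^ n := by positivity
      have h2 : (0:ℝ) < 2 ^ (β * (n:ℝ)) := by positivity
      have hsum : 0 < ν * 4 ^ n + 2 ^ (β * (n:ℝ)) * X (n+1) x + L := by
        have q1 := mul_le_mul_of_nonneg_right hν h4.le
        have q2 := mul_le_mul_of_nonneg_left hb2 h2.le
        rw [hL]
        nlinarith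
      have e : (-(ν * 4 ^ n * X n x) + (if n = 0 then (0:ℝ) else 2 ^ (β * ((n : ℝ) - 1)) * X (n - 1) x ^ 2)
          - 2 ^ (β * (n : ℝ)) * X n x * X (n + 1) x) + η * (Real.exp (L * x) * (L * 1))
          = (if n = 0 then (0:ℝ) else 2 ^ (β * ((n : ℝ) - 1)) * X (n - 1) x ^ 2)
            + (η * Real.exp (L * x)) * (ν * 4 ^ n + 2 ^ (β * (n:ℝ)) * X (n+1) x + L) := by
        rw [hXn]; ring
      rw [e]
      have := mul_pos hp hsum
      linarith) T ⟨hT, le_refl _⟩ ()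
  have e : η * Real.exp (L * T) = ε := by rw [hηd]; field_simp
  linarith

/-- the right hand side of the dyadic model -/
noncomputable def F (β ν : ℝ) (x : ℕ → ℝ) (n : ℕ) : ℝ :=
  -(ν * 4 ^ n * x n) + (if n = 0 then 0 else 2 ^ (β * ((n : ℝ) - 1)) * x (n - 1) ^ 2)
      - 2 ^ (β * (n : ℝ)) * x n * x (n + 1)

theorem F_succ (β ν : ℝ) (x : ℕ → ℝ) (n : ℕ) : F β ν x (n+1) =
    -(ν * 4 ^ (n+1) * x (n+1)) + 2 ^ (β * (n : ℝ)) * x n ^ 2
      - 2 ^ (β * ((n+1 : ℕ) : ℝ)) * x (n+1) * x (n + 2) := by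
  unfold F
  have : (((n + 1 : ℕ) : ℝ) - 1) = n := by push_cast; ring
  rw [this]
  simp

theorem F_zero (β ν : ℝ) (x : ℕ → ℝ) : F β ν x 0 =
    -(ν * x 0) - 2 ^ (β * ((0:ℕ) : ℝ)) * x 0 * x 1 := by
  unfold F
  simp

theorem energy_id (β ν : ℝ) (x : ℕ → ℝ) (N : ℕ) :
    ∑ n ∈ Finset.range (N+1), 2 * x n * F β ν x n
      = -2 * ν * ∑ n ∈ Finset.range (N+1), 4 ^ n * x n ^ 2
        - 2 * (2 ^ (β * (N:ℝ)) * x N ^ 2 * x (N+1)) := by
  induction N with
  | zero => simp only [zero_add, Finset.range_one, Finset.sum_singleton]; rw [F_zero]; ring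
  | succ N ih => rw [Finset.sum_range_succ, ih, F_succ, Finset.sum_range_succ _ (N+1)]; ring

theorem diff_id (β ν : ℝ) (x y : ℕ → ℝ) (N : ℕ) :
    ∑ n ∈ Finset.range (N+1), (1/2) ^ n * (2 * (x n - y n) * (F β ν x n - F β ν y n))
      = -2 * ν * ∑ n ∈ Finset.range (N+1), (1/2) ^ n * (4 ^ n * (x n - y n) ^ 2)
        - ∑ n ∈ Finset.range (N+1), (1/2) ^ n * (2 ^ (β * (n:ℝ)) * ((x n - y n) ^ 2 * (x (n+1) + y (n+1))))
        - (1/2) ^ N * (2 ^ (β * (N:ℝ)) * ((x N ^ 2 - y N ^ 2) * (x (N+1) - y (N+1)))) := by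
  induction N with
  | zero => simp only [zero_add, Finset.range_one, Finset.sum_singleton]; rw [F_zero, F_zero]; ring
  | succ N ih =>
    rw [Finset.sum_range_succ, ih, F_succ, F_succ, Finset.sum_range_succ _ (N+1),
      Finset.sum_range_succ _ (N+1)]
    ring

theorem IsSol.deriv {β ν : ℝ} {X : ℕ → ℝ → ℝ} (hX : IsSol β ν X) (T : ℝ) (n : ℕ) (t : ℝ)
    (ht : t ∈ Icc (0:ℝ) T) : HasDerivWithinAt (X n) (F β ν (fun k => X k t) n) (Icc 0 T) t :=
  (hX n t ht.1).mono (fun _ hy => hy.1)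

/-- energy inequality -/
theorem IsSol.energy {β ν : ℝ} {X : ℕ → ℝ → ℝ} (hν : 0 ≤ ν) (hX : IsSol β ν X)
    (h0 : ∀ n, 0 ≤ X n 0) (N : ℕ) (t : ℝ) (ht : 0 ≤ t) :
    ∑ n ∈ Finset.range (N+1), X n t ^ 2 ≤ ∑ n ∈ Finset.range (N+1), X n 0 ^ 2 := by
  have hnn := hX.nonneg h0
  have key := le_of_deriv_le (T := t) (c := 0) (f := fun t => ∑ n ∈ Finset.range (N+1), X n t ^ 2)
    (f' := fun t => ∑ n ∈ Finset.range (N+1), 2 * X n t * F β ν (fun k => X k t) n)
    (fun x hx => by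
      apply HasDerivWithinAt.fun_sum
      intro n _
      have := (hX.deriv t n x hx).pow 2
      refine this.congr_deriv ?_
      norm_num)
    (fun x hx => by
      rw [energy_id]
      have h1 : 0 ≤ ∑ n ∈ Finset.range (N+1), (4:ℝ) ^ n * X n x ^ 2 :=
        Finset.sum_nonneg (fun n _ => by positivity)
      have h2 := hnn (N+1) x hx.1
      have h3 : 0 ≤ (2:ℝ) ^ (β * (N:ℝ)) * X N x ^ 2 * X (N+1) x := by positivity
      have h4 := mul_nonneg hν h1
      linarith) t ⟨ht, le_refl _⟩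
  simpa using key

theorem IsSol.bdd {β ν : ℝ} {X : ℕ → ℝ → ℝ} (hν : 0 ≤ ν) (hX : IsSol β ν X)
    (h0 : ∀ n, 0 ≤ X n 0) (C : ℝ) (hC : ∀ n : ℕ, 2 ^ n * X n 0 ≤ C) :
    ∃ B : ℝ, ∀ (n : ℕ) (t : ℝ), 0 ≤ t → X n t ≤ B := by
  have hC0 : 0 ≤ C := le_trans (by have := h0 0; positivity) (hC 0)
  have hsum : ∀ N : ℕ, ∑ n ∈ Finset.range N, X n 0 ^ 2 ≤ 2 * C ^ 2 - 2 * C ^ 2 * (1/2) ^ N := by
    intro N
    induction N with
    | zero => simp
    | succ N ih =>
      rw [Finset.sum_range_succ]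
      have h1 : X N 0 ≤ C * (1/2) ^ N := by
        have := hC N
        have h2 : (0:ℝ) < 2 ^ N := by positivity
        rw [one_div, inv_pow, ← div_eq_mul_inv, le_div_iff₀ h2]
        linarith
      have h3 : X N 0 ^ 2 ≤ (C * (1/2) ^ N) ^ 2 := pow_le_pow_left₀ (h0 N) h1 2
      have h4 : ((1:ℝ)/2) ^ N ≤ 1 := pow_le_one₀ (by norm_num) (by norm_num)
      have h5 : (0:ℝ) < (1/2) ^ N := by positivity
      have h6 : (C * (1/2) ^ N) ^ 2 ≤ C ^ 2 * (1/2) ^ N := by
        rw [mul_pow]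
        apply mul_le_mul_of_nonneg_left _ (by positivity)
        nlinarith
      rw [pow_succ ((1:ℝ)/2) N]
      nlinarith
  refine ⟨2 * C, fun n t ht => ?_⟩
  have h1 := hX.energy hν h0 n t ht
  have h2 := hsum (n+1)
  have h3 : X n t ^ 2 ≤ ∑ k ∈ Finset.range (n+1), X k t ^ 2 :=
    Finset.single_le_sum (f := fun k => X k t ^ 2) (fun k _ => by positivity)
      (Finset.mem_range.2 (Nat.lt_succ_self n))
  have h4 : (0:ℝ) ≤ 2 * C ^ 2 * (1/2) ^ (n+1) := by positivity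
  have h5 : X n t ^ 2 ≤ (2 * C) ^ 2 := by nlinarith
  exact (le_abs_self _).trans (abs_le_of_sq_le_sq h5 (by positivity))

end Pool.Agent.H219.Dy
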