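import Pool.Agent.H219.Dy.InvE
import Pool.Agent.H219.Dy.Limit
import Pool.Agent.H219.Dy.Tools

/-! The inviscid dyadic model. -/

set_option maxHeartbeats 4000000

namespace Pool.Agent.H219.Dy

open Set Filter Topology

/-- `X` solves the inviscid dyadic model with the coefficients `kₙ = b^(3n)`. -/
def IsE (b : ℝ) (X : ℕ → ℝ → ℝ) : Prop :=
  ∀ n : ℕ, ∀ t : ℝ, 0 ≤ t → HasDerivWithinAt (X n)
    ((if n = 0 then 0 else b ^ (3 * (n - 1)) * X (n - 1) t ^ 2)
      - b ^ (3 * n) * X n t * X (n + 1) t) (Set.Ici 0) t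

noncomputable def FE (b : ℝ) (x : ℕ → ℝ) (n : ℕ) : ℝ :=
  (if n = 0 then 0 else b ^ (3 * (n - 1)) * x (n - 1) ^ 2) - b ^ (3 * n) * x n * x (n + 1)

theorem FE_succ (b : ℝ) (x : ℕ → ℝ) (n : ℕ) :
    FE b x (n+1) = b ^ (3 * n) * x n ^ 2 - b ^ (3 * (n+1)) * x (n+1) * x (n + 2) := by
  unfold FE; simp

theorem FE_zero (b : ℝ) (x : ℕ → ℝ) : FE b x 0 = - (x 0 * x 1) := by
  unfold FE; simp

theorem IsE.deriv {b : ℝ} {X : ℕ → ℝ → ℝ} (hX : IsE b X) (T : ℝ) (n : ℕ) (t : ℝ)
    (ht : t ∈ Icc (0:ℝ) T) : HasDerivWithinAt (X n) (FE b (fun k => X k t) n) (Icc 0 T) t :=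
  (hX n t ht.1).mono (fun _ hy => hy.1)

theorem IsE.nonneg {b : ℝ} (hb : 0 ≤ b) {X : ℕ → ℝ → ℝ} (hX : IsE b X) (h0 : ∀ n, 0 ≤ X n 0) :
    ∀ n t, 0 ≤ t → 0 ≤ X n t := by
  intro n T hT
  have hc : ContinuousOn (X (n+1)) (Icc 0 T) := fun t ht =>
    ((hX (n+1) t ht.1).continuousWithinAt).mono (fun x hx => hx.1)
  obtain ⟨B, hB⟩ := isCompact_Icc.exists_bound_of_continuousOn hc
  set L : ℝ := b ^ (3 * n) * |B| + 1 with hL
  apply le_of_forall_pos_le_add
  intro ε hε
  set η := ε / Real.exp (L * T) with hηd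
  have hη : 0 < η := by positivity
  have key := barrier (ι := Unit) T (fun _ x => X n x + η * Real.exp (L * x))
    (fun _ x => FE b (fun k => X k x) n + η * (Real.exp (L * x) * (L * 1)))
    (fun _ => by
      have := h0 n
      simp only [mul_zero, Real.exp_zero, mul_one]; linarith)
    (fun _ x hx => by
      have h1 : HasDerivWithinAt (fun x => η * Real.exp (L * x)) (η * (Real.exp (L * x) * (L * 1)))
          (Icc 0 T) x :=
        (((hasDerivWithinAt_id x (Icc (0:ℝ) T)).const_mul L).exp).const_mul η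
      exact (hX.deriv T n x hx).add h1)
    (fun x hx _ _ hz => by
      have hXn : X n x = - (η * Real.exp (L * x)) := by linarith
      have hx' : x ∈ Icc (0:ℝ) T := ⟨hx.1.le, hx.2⟩
      have hbd := hB x hx'
      rw [Real.norm_eq_abs] at hbd
      have hb2 : -|B| ≤ X (n+1) x := by
        have := neg_abs_le (X (n+1) x)
        have := le_abs_self B
        linarith
      have hp : 0 < η * Real.exp (L * x) := by positivity
      have hsrc : 0 ≤ (if n = 0 then (0:ℝ) else b ^ (3 * (n - 1)) * X (n - 1) x ^ 2) := by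
        split_ifs
        · exact le_refl _
        · positivity
      have h2 : (0:ℝ) ≤ b ^ (3 * n) := by positivity
      have hsum : 0 < b ^ (3 * n) * X (n+1) x + L := by
        have q2 := mul_le_mul_of_nonneg_left hb2 h2
        rw [hL]
        nlinarith
      have e : FE b (fun k => X k x) n + η * (Real.exp (L * x) * (L * 1))
          = (if n = 0 then (0:ℝ) else b ^ (3 * (n - 1)) * X (n - 1) x ^ 2)
            + (η * Real.exp (L * x)) * (b ^ (3 * n) * X (n+1) x + L) := by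
        unfold FE
        simp only
        rw [hXn]; ring
      rw [e]
      have := mul_pos hp hsum
      linarith) T ⟨hT, le_refl _⟩ ()
  have e : η * Real.exp (L * T) = ε := by rw [hηd]; field_simp
  linarith

theorem energyE_id (b : ℝ) (x : ℕ → ℝ) (N : ℕ) :
    ∑ n ∈ Finset.range (N+1), 2 * x n * FE b x n = - 2 * (b ^ (3 * N) * x N ^ 2 * x (N+1)) := by
  induction N with
  | zero => simp only [zero_add, Finset.range_one, Finset.sum_singleton]; rw [FE_zero]; ring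
  | succ N ih => rw [Finset.sum_range_succ, ih, FE_succ]; ring

theorem diffE_id (b : ℝ) (x y : ℕ → ℝ) (N : ℕ) :
    ∑ n ∈ Finset.range (N+1), (1/2) ^ n * (2 * (x n - y n) * (FE b x n - FE b y n))
      = - ∑ n ∈ Finset.range (N+1), (1/2) ^ n * (b ^ (3 * n) * ((x n - y n) ^ 2 * (x (n+1) + y (n+1))))
        - (1/2) ^ N * (b ^ (3 * N) * ((x N ^ 2 - y N ^ 2) * (x (N+1) - y (N+1)))) := by
  induction N with
  | zero => simp only [zero_add, Finset.range_one, Finset.sum_singleton]; rw [FE_zero, FE_zero]; ring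
  | succ N ih =>
    rw [Finset.sum_range_succ, ih, FE_succ, FE_succ, Finset.sum_range_succ _ (N+1)]
    ring

/-- the energy of the first modes -/
noncomputable def EN (X : ℕ → ℝ → ℝ) (N : ℕ) (t : ℝ) : ℝ := ∑ n ∈ Finset.range (N+1), X n t ^ 2

theorem IsE.EN_deriv {b : ℝ} {X : ℕ → ℝ → ℝ} (hX : IsE b X) (N : ℕ) (t : ℝ) (ht : 0 ≤ t) :
    HasDerivWithinAt (EN X N) (- 2 * (b ^ (3 * N) * X N t ^ 2 * X (N+1) t)) (Ici 0) t := by
  have h : HasDerivWithinAt (EN X N) (∑ n ∈ Finset.range (N+1), 2 * X n t * FE b (fun k => X k t) n)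
      (Ici 0) t := by
    unfold EN
    apply HasDerivWithinAt.fun_sum
    intro n _
    have := (hX n t ht).pow 2
    refine this.congr_deriv ?_
    unfold FE
    norm_num
  rw [energyE_id] at h
  exact h

theorem IsE.EN_anti {b : ℝ} (hb : 0 ≤ b) {X : ℕ → ℝ → ℝ} (hX : IsE b X) (h0 : ∀ n, 0 ≤ X n 0) (N : ℕ) :
    AntitoneOn (EN X N) (Ici 0) := by
  have hnn := hX.nonneg hb h0
  apply antitoneOn_of_deriv_nonpos (convex_Ici 0)
  · exact fun t ht => (hX.EN_deriv N t ht).continuousWithinAt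
  · intro t ht
    rw [interior_Ici] at ht
    exact ((hX.EN_deriv N t (le_of_lt ht)).hasDerivAt (Ici_mem_nhds ht)).differentiableAt.differentiableWithinAt
  · intro t ht
    rw [interior_Ici] at ht
    have h0t : 0 ≤ t := le_of_lt ht
    rw [((hX.EN_deriv N t h0t).hasDerivAt (Ici_mem_nhds ht)).deriv]
    have := hnn (N+1) t h0t
    have : 0 ≤ b ^ (3 * N) * X N t ^ 2 * X (N+1) t := by positivity
    linarith

/-- existence with the Onsager bound -/
theorem euler_exists (b : ℝ) (hb : 0 < b) (h7 : 7 ≤ b ^ 3) : ∃ K : ℝ, 0 < K ∧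
    ∀ a : ℕ → ℝ, (∀ n, 0 ≤ a n) → ∀ A : ℝ, 0 < A → (∀ n : ℕ, b ^ n * a n ≤ A) →
      ∃ X : ℕ → ℝ → ℝ, IsE b X ∧ (∀ n, X n 0 = a n) ∧ (∀ n t, 0 ≤ t → 0 ≤ X n t) ∧
        (∀ (n : ℕ) t, 0 ≤ t → b ^ n * X n t ≤ K * A) := by
  have hR : 363/100 ≤ b ^ 2 := by
    by_contra hcon
    push Not at hcon
    have h1 : (b ^ 2) ^ 3 < (363/100) ^ 3 := by gcongr
    have h2 : (b ^ 3) ^ 2 = (b ^ 2) ^ 3 := by ring
    have h3 : (7:ℝ) ^ 2 ≤ (b ^ 3) ^ 2 := by gcongr
    rw [h2] at h3
    norm_num at h1 h3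
    linarith
  set G := regE (b ^ 2) hR with hG
  obtain ⟨K, hK, hKA⟩ := G.exists_K
  refine ⟨K, hK, ?_⟩
  intro a ha A hA haA
  let κ : ℕ → ℝ := fun n => b ^ (2 * n) / b
  have hκ : ∀ n, 0 < κ n := fun n => by simp only [κ]; positivity
  have hκR : ∀ n, κ (n+1) = b ^ 2 * κ n := by
    intro n; simp only [κ]; ring
  obtain ⟨q1, q2, q3, q4⟩ := hKA A hA
  let u0 : ℕ → ℝ := fun n => b ^ n * a n
  have hu0 : ∀ n, 0 ≤ u0 n := fun n => by have := ha n; simp only [u0]; positivity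
  have hKApos : 0 < K * A := by positivity
  have htr : ∀ N : ℕ, ∃ U : ℕ → ℝ → ℝ, (∀ n, n ≤ N + 2 → U n 0 = u0 n) ∧
      (∀ n, ∀ t ∈ Icc (0:ℝ) ((N:ℝ)+1), 0 ≤ U n t ∧ U n t ≤ K * A) ∧
      ∀ n, n ≤ N + 2 → ∀ t ∈ Icc (0:ℝ) ((N:ℝ)+1), HasDerivWithinAt (U n)
        (rhs κ (fun _ => 0) 1 (fun k => U k t) n) (Icc 0 ((N:ℝ)+1)) t := fun N =>
    trunc_final0 G (N+2) (by omega) κ hκ hκR ((N:ℝ)+1) (by positivity) (K*A) A hKApos
      q1 q2 q3 q4 u0 hu0 haA
  choose V hV0 hVb hVd using htr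
  obtain ⟨U, hU0, hUb, hUd⟩ := limit_exists κ (fun _ => 0) hκ (fun _ => le_rfl) 1 (K*A) zero_le_one u0 V
    (fun N n hn => hV0 N n (by omega)) (fun N n t ht => hVb N n t ht)
    (fun N n hn t ht => hVd N n (by omega) t ht)
  have hbn : ∀ n : ℕ, (0:ℝ) < b ^ n := fun n => by positivity
  refine ⟨fun n t => U n t / b ^ n, ?_, ?_, ?_, ?_⟩
  · intro n t ht
    have h := (hUd n t ht).div_const (b ^ n)
    refine h.congr_deriv ?_
    unfold rhs
    simp only
    rcases n with _ | m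
    · simp only [if_true, κ, add_zero]
      simp
      field_simp
    · simp only [Nat.add_sub_cancel, κ, add_zero, Nat.add_eq_zero_iff, one_ne_zero, and_false, if_false,
        one_mul]
      have e1 : b ^ (2 * (m+1)) / b / b ^ (m+1) = b ^ (3 * m) / (b ^ m) ^ 2 := by
        rw [div_div, div_eq_div_iff (by positivity) (by positivity)]; ring
      have e2 : b ^ (2 * (m+1)) / b / b ^ (m+1) = b ^ (3 * (m+1)) / (b ^ (m+1) * b ^ (m+1+1)) := by
        rw [div_div, div_eq_div_iff (by positivity) (by positivity)]; ring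
      calc b ^ (2 * (m+1)) / b * (U m t ^ 2 - U (m+1) t * U (m+1+1) t) / b ^ (m+1)
          = (b ^ (2 * (m+1)) / b / b ^ (m+1)) * U m t ^ 2
            - (b ^ (2 * (m+1)) / b / b ^ (m+1)) * (U (m+1) t * U (m+1+1) t) := by ring
        _ = b ^ (3 * m) / (b ^ m) ^ 2 * U m t ^ 2
            - b ^ (3 * (m+1)) / (b ^ (m+1) * b ^ (m+1+1)) * (U (m+1) t * U (m+1+1) t) := by
          rw [← e2, ← e1]
        _ = _ := by
          have := (hbn m).ne'
          have := (hbn (m+1)).ne'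
          have := (hbn (m+1+1)).ne'
          field_simp
  · intro n
    simp only
    rw [hU0 n]
    simp only [u0]
    have := (hbn n).ne'
    field_simp
  · intro n t ht
    have := (hUb n t ht).1
    have := hbn n
    positivity
  · intro n t ht
    simp only
    have h1 := (hUb n t ht).2
    have := (hbn n).ne'
    have e : b ^ n * (U n t / b ^ n) = U n t := by field_simp
    rw [e]; exact h1

end Pool.Agent.H219.Dy
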