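import Pool.Agent.H219.Dy.Euler

/-! Decay of the energy and blow-up above the Onsager exponent for the inviscid dyadic model. -/

set_option maxHeartbeats 4000000

namespace Pool.Agent.H219.Dy

open Set Filter Topology

/-- if `f` converges at infinity and its derivative converges, the derivative tends to zero -/
theorem limit_deriv_zero {f f' : ℝ → ℝ} {l m : ℝ}
    (hd : ∀ t, 0 ≤ t → HasDerivWithinAt f (f' t) (Ici 0) t)
    (hf : Tendsto f atTop (𝓝 l)) (hf' : Tendsto f' atTop (𝓝 m)) : m = 0 := by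
  have hmvt : ∀ n : ℕ, ∃ c ∈ Ioo (n:ℝ) ((n:ℝ)+1), f' c = f ((n:ℝ)+1) - f n := by
    intro n
    have hn : (0:ℝ) ≤ n := by positivity
    have h := exists_hasDerivAt_eq_slope f f' (a := (n:ℝ)) (b := (n:ℝ)+1) (by linarith)
      (fun t ht => ((hd t (hn.trans ht.1)).continuousWithinAt).mono (fun y hy => hn.trans hy.1))
      (fun t ht => (hd t (hn.trans ht.1.le)).hasDerivAt (Ici_mem_nhds (lt_of_le_of_lt hn ht.1)))
    obtain ⟨c, hc, e⟩ := h
    refine ⟨c, hc, ?_⟩
    rw [e]; simp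
  choose c hc e using hmvt
  have hcT : Tendsto c atTop atTop :=
    tendsto_atTop_mono (fun n => (hc n).1.le) tendsto_natCast_atTop_atTop
  have h1 : Tendsto (fun n => f' (c n)) atTop (𝓝 m) := hf'.comp hcT
  have h2 : Tendsto (fun n : ℕ => f ((n:ℝ)+1) - f n) atTop (𝓝 (l - l)) :=
    (hf.comp (tendsto_atTop_add_const_right _ _ tendsto_natCast_atTop_atTop)).sub
      (hf.comp tendsto_natCast_atTop_atTop)
  have h3 : (fun n => f' (c n)) = fun n : ℕ => f ((n:ℝ)+1) - f n := funext e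
  rw [h3] at h1
  have := tendsto_nhds_unique h1 h2
  linarith

theorem anti_tendsto {f : ℝ → ℝ} (hf : AntitoneOn f (Ici 0)) (h0 : ∀ t, 0 ≤ t → 0 ≤ f t) :
    ∃ l, Tendsto f atTop (𝓝 l) := by
  have hg : Antitone (fun t => f (max t 0)) := fun s t h =>
    hf (Set.mem_Ici.2 (le_max_right _ _)) (Set.mem_Ici.2 (le_max_right _ _)) (max_le_max_right _ h)
  have hb : BddBelow (range (fun t => f (max t 0))) :=
    ⟨0, by rintro _ ⟨t, rfl⟩; exact h0 _ (le_max_right _ _)⟩
  refine ⟨_, (tendsto_atTop_ciInf hg hb).congr' ?_⟩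
  filter_upwards [eventually_ge_atTop (0:ℝ)] with t ht
  rw [max_eq_left ht]

theorem IsE.mode_tendsto {b : ℝ} (hb : 0 < b) {X : ℕ → ℝ → ℝ} (hX : IsE b X)
    (h0 : ∀ n, 0 ≤ X n 0) (n : ℕ) : Tendsto (X n) atTop (𝓝 0) := by
  have hnn := hX.nonneg hb.le h0
  have hE : ∀ N, ∃ l, Tendsto (EN X N) atTop (𝓝 l) := fun N =>
    anti_tendsto (hX.EN_anti hb.le h0 N) (fun t _ => by unfold EN; positivity)
  choose l hl using hE
  have hsq : ∀ N, ∃ s, Tendsto (fun t => X N t ^ 2) atTop (𝓝 s) := by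
    intro N
    rcases N with _ | N
    · refine ⟨l 0, (hl 0).congr (fun t => ?_)⟩
      simp [EN]
    · refine ⟨l (N+1) - l N, ((hl (N+1)).sub (hl N)).congr (fun t => ?_)⟩
      unfold EN
      rw [Finset.sum_range_succ _ (N+1)]; ring
  choose s hs using hsq
  have hx : ∀ N, Tendsto (X N) atTop (𝓝 (Real.sqrt (s N))) := by
    intro N
    have := (Real.continuous_sqrt.tendsto (s N)).comp (hs N)
    refine this.congr' ?_
    filter_upwards [eventually_ge_atTop (0:ℝ)] with t ht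
    simp only [Function.comp]
    exact Real.sqrt_sq (hnn N t ht)
  set x : ℕ → ℝ := fun N => Real.sqrt (s N) with hxd
  have k1 : ∀ N, x N ^ 2 * x (N+1) = 0 := by
    intro N
    have hd : Tendsto (fun t => - 2 * (b ^ (3 * N) * X N t ^ 2 * X (N+1) t)) atTop
        (𝓝 (- 2 * (b ^ (3 * N) * x N ^ 2 * x (N+1)))) :=
      ((((hx N).pow 2).const_mul (b ^ (3 * N))).mul (hx (N+1))).const_mul (-2)
    have h := limit_deriv_zero (fun t ht => hX.EN_deriv N t ht) (hl N) hd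
    have hB : b ^ (3 * N) ≠ 0 := by positivity
    have h2 : b ^ (3 * N) * (x N ^ 2 * x (N+1)) = 0 := by linarith
    rcases mul_eq_zero.1 h2 with h3 | h3
    · exact absurd h3 hB
    · exact h3
  have k1' : ∀ N, x N * x (N+1) = 0 := by
    intro N
    rcases mul_eq_zero.1 (k1 N) with h3 | h3
    · rw [pow_eq_zero_iff (by norm_num)] at h3; rw [h3]; ring
    · rw [h3]; ring
  have k2 : x n = 0 := by
    have hd : Tendsto (fun t => b ^ (3 * n) * X n t ^ 2 - b ^ (3 * (n+1)) * X (n+1) t * X (n+2) t) atTop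
        (𝓝 (b ^ (3 * n) * x n ^ 2 - b ^ (3 * (n+1)) * x (n+1) * x (n+2))) :=
      (((hx n).pow 2).const_mul _).sub (((hx (n+1)).const_mul _).mul (hx (n+2)))
    have h := limit_deriv_zero (fun t ht => by
      have := hX (n+1) t ht
      simpa using this) (hx (n+1)) hd
    have h3 := k1' (n+1)
    have h4 : b ^ (3 * (n+1)) * x (n+1) * x (n+2) = 0 := by
      rw [mul_assoc, h3, mul_zero]
    rw [h4, sub_zero] at h
    have hB : b ^ (3 * n) ≠ 0 := by positivity
    rcases mul_eq_zero.1 h with h5 | h5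
    · exact absurd h5 hB
    · rwa [pow_eq_zero_iff (by norm_num)] at h5
  have h5 := hx n
  rw [show Real.sqrt (s n) = 0 from k2] at h5
  exact h5

theorem geo_bound {b C x : ℝ} {n : ℕ} (hb : 0 < b) (hx : 0 ≤ x) (h : b ^ n * x ≤ C) :
    x ^ 2 ≤ C ^ 2 * (1 / b ^ 2) ^ n := by
  have hbn : (0:ℝ) < b ^ n := by positivity
  have h1 : (b ^ n * x) ^ 2 ≤ C ^ 2 := pow_le_pow_left₀ (by positivity) h 2
  have h2 : C ^ 2 * (1 / b ^ 2) ^ n = C ^ 2 / (b ^ n) ^ 2 := by
    rw [one_div, inv_pow, ← div_eq_mul_inv, ← pow_mul, ← pow_mul, mul_comm 2 n]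
  rw [h2, le_div_iff₀ (by positivity)]
  nlinarith

theorem summ_geo {b C : ℝ} (hb : 1 < b) : Summable (fun n : ℕ => C ^ 2 * (1 / b ^ 2) ^ n) := by
  apply Summable.mul_left
  apply summable_geometric_of_lt_one (by positivity)
  rw [div_lt_one (by positivity)]
  nlinarith

theorem summ_sq {b C : ℝ} (hb : 1 < b) {x : ℕ → ℝ} (hx : ∀ n, 0 ≤ x n) (h : ∀ n : ℕ, b ^ n * x n ≤ C) :
    Summable (fun n => x n ^ 2) :=
  Summable.of_nonneg_of_le (fun n => by positivity)
    (fun n => geo_bound (by linarith) (hx n) (h n)) (summ_geo hb)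

theorem IsE.energy_tendsto {b : ℝ} (hb : 1 < b) {X : ℕ → ℝ → ℝ} (hX : IsE b X)
    (h0 : ∀ n, 0 ≤ X n 0) (C : ℝ) (hC : ∀ (n : ℕ) t, 0 ≤ t → b ^ n * X n t ≤ C) :
    Tendsto (fun t => ∑' n, X n t ^ 2) atTop (𝓝 0) := by
  have hb0 : 0 < b := by linarith
  have hnn := hX.nonneg hb0.le h0
  have key := tendsto_tsum_of_dominated_convergence (𝓕 := (atTop : Filter ℝ))
    (f := fun t n => X n t ^ 2) (g := fun _ => (0:ℝ)) (bound := fun n : ℕ => C ^ 2 * (1 / b ^ 2) ^ n)
    (summ_geo hb)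
    (fun n => by
      have := (hX.mode_tendsto hb0 h0 n).pow 2
      simpa using this)
    (by
      filter_upwards [eventually_ge_atTop (0:ℝ)] with t ht
      intro n
      rw [Real.norm_eq_abs, abs_of_nonneg (by positivity)]
      exact geo_bound hb0 (hnn n t ht) (hC n t ht))
  simpa using key

theorem IsE.energy_anti {b : ℝ} (hb : 1 < b) {X : ℕ → ℝ → ℝ} (hX : IsE b X)
    (h0 : ∀ n, 0 ≤ X n 0) (C : ℝ) (hC : ∀ (n : ℕ) t, 0 ≤ t → b ^ n * X n t ≤ C) :
    AntitoneOn (fun t => ∑' n, X n t ^ 2) (Ici 0) := by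
  have hb0 : 0 < b := by linarith
  have hnn := hX.nonneg hb0.le h0
  intro s hs t ht hst
  have h1 : ∀ r, 0 ≤ r → Tendsto (fun N => EN X N r) atTop (𝓝 (∑' n, X n r ^ 2)) := by
    intro r hr
    have := (summ_sq hb (fun n => hnn n r hr) (fun n => hC n r hr)).hasSum.tendsto_sum_nat
    exact this.comp (tendsto_add_atTop_nat 1)
  exact le_of_tendsto_of_tendsto' (h1 t ht) (h1 s hs) (fun N => hX.EN_anti hb0.le h0 N hs ht hst)

/-- no bound above the Onsager exponent while energy is lost -/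
theorem IsE.blowup {b : ℝ} (hb : 1 < b) {X : ℕ → ℝ → ℝ} (hX : IsE b X)
    (h0 : ∀ n, 0 ≤ X n 0) (C : ℝ) (hC : ∀ (n : ℕ) t, 0 ≤ t → b ^ n * X n t ≤ C)
    (T : ℝ) (hT : 0 ≤ T) (hE : ∑' n, X n T ^ 2 < ∑' n, X n 0 ^ 2) (c : ℝ) (hc : b < c) (M : ℝ) :
    ∃ n : ℕ, ∃ t ∈ Icc (0:ℝ) T, M < c ^ n * X n t := by
  by_contra hcon
  push Not at hcon
  have hb0 : 0 < b := by linarith
  have hc0 : 0 < c := by linarith
  have hnn := hX.nonneg hb0.le h0
  have hM : 0 ≤ M := le_trans (by have := h0 0; positivity) (hcon 0 0 ⟨le_rfl, hT⟩)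
  have h1 : ∀ r, 0 ≤ r → Tendsto (fun N => EN X N r) atTop (𝓝 (∑' n, X n r ^ 2)) := by
    intro r hr
    have := (summ_sq hb (fun n => hnn n r hr) (fun n => hC n r hr)).hasSum.tendsto_sum_nat
    exact this.comp (tendsto_add_atTop_nat 1)
  have h2 : ∀ N : ℕ, EN X N 0 ≤ EN X N T + (2 * M ^ 3 / c) * (b ^ 3 / c ^ 3) ^ N * T := by
    intro N
    have key := le_of_deriv_le (T := T) (c := (2 * M ^ 3 / c) * (b ^ 3 / c ^ 3) ^ N)
      (f := fun t => - EN X N t) (f' := fun t => - (- 2 * (b ^ (3 * N) * X N t ^ 2 * X (N+1) t)))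
      (fun t ht => ((hX.EN_deriv N t ht.1).mono (fun y hy => hy.1)).neg)
      (fun t ht => by
        have q1 : X N t ≤ M / c ^ N := by
          rw [le_div_iff₀ (by positivity)]
          have := hcon N t ht; linarith
        have q2 : X (N+1) t ≤ M / c ^ (N+1) := by
          rw [le_div_iff₀ (by positivity)]
          have := hcon (N+1) t ht; linarith
        have q3 : X N t ^ 2 ≤ (M / c ^ N) ^ 2 := pow_le_pow_left₀ (hnn N t ht.1) q1 2
        have q4 : X N t ^ 2 * X (N+1) t ≤ (M / c ^ N) ^ 2 * (M / c ^ (N+1)) :=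
          mul_le_mul q3 q2 (hnn (N+1) t ht.1) (by positivity)
        have q5 := mul_le_mul_of_nonneg_left q4 (by positivity : (0:ℝ) ≤ 2 * b ^ (3 * N))
        have e : 2 * b ^ (3 * N) * ((M / c ^ N) ^ 2 * (M / c ^ (N+1)))
            = (2 * M ^ 3 / c) * (b ^ 3 / c ^ 3) ^ N := by
          rw [div_pow (b^3), ← pow_mul, ← pow_mul]
          field_simp
          ring
        rw [e] at q5
        linarith) T ⟨hT, le_refl _⟩

    linarith
  have h3 : Tendsto (fun N : ℕ => EN X N T + (2 * M ^ 3 / c) * (b ^ 3 / c ^ 3) ^ N * T) atTop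
      (𝓝 (∑' n, X n T ^ 2 + (2 * M ^ 3 / c) * 0 * T)) := by
    refine (h1 T hT).add (((tendsto_pow_atTop_nhds_zero_of_lt_one (by positivity) ?_).const_mul _).mul_const T)
    rw [div_lt_one (by positivity)]
    gcongr
  have h4 := le_of_tendsto_of_tendsto' (h1 0 le_rfl) h3 h2
  linarith

end Pool.Agent.H219.Dy
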