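import Pool.Agent.H219.Dy.Tilt
import Pool.Agent.H219.Dy.EulerD

/-! Finite energy solutions enter the Onsager class instantaneously. -/

set_option maxHeartbeats 4000000

namespace Pool.Agent.H219.Dy

open Set Filter Topology

/-- change of variables `U n = bⁿ Xₙ` -/
theorem conv_FE (b : ℝ) (hb : 0 < b) (U : ℕ → ℝ) (n : ℕ) :
    (b ^ (2 * n) / b * ((if n = 0 then 0 else U (n-1))^2 - U n * U (n+1))) / b ^ n
      = FE b (fun k => U k / b ^ k) n := by
  have hbn : ∀ n : ℕ, (0:ℝ) < b ^ n := fun n => by positivity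
  rcases n with _ | m
  · unfold FE
    simp
    field_simp
  · rw [FE_succ]
    simp only [Nat.add_eq_zero_iff, one_ne_zero, and_false, if_false, Nat.add_sub_cancel]
    have e1 : b ^ (2 * (m+1)) / b / b ^ (m+1) = b ^ (3 * m) / (b ^ m) ^ 2 := by
      rw [div_div, div_eq_div_iff (by positivity) (by positivity)]; ring
    have e2 : b ^ (2 * (m+1)) / b / b ^ (m+1) = b ^ (3 * (m+1)) / (b ^ (m+1) * b ^ (m+2)) := by
      rw [div_div, div_eq_div_iff (by positivity) (by positivity)]; ring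
    calc b ^ (2 * (m+1)) / b * (U m ^ 2 - U (m+1) * U (m+1+1)) / b ^ (m+1)
        = (b ^ (2 * (m+1)) / b / b ^ (m+1)) * U m ^ 2
          - (b ^ (2 * (m+1)) / b / b ^ (m+1)) * (U (m+1) * U (m+1+1)) := by ring
      _ = b ^ (3 * m) / (b ^ m) ^ 2 * U m ^ 2
          - b ^ (3 * (m+1)) / (b ^ (m+1) * b ^ (m+2)) * (U (m+1) * U (m+1+1)) := by
        rw [← e2, ← e1]
      _ = _ := by
        have := (hbn m).ne'
        have := (hbn (m+1)).ne'
        have := (hbn (m+2)).ne'
        field_simp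

theorem rhs_FE (b : ℝ) (hb : 0 < b) (x : ℕ → ℝ) (n : ℕ) :
    rhs (fun n => b ^ (3 * n)) (fun _ => 0) (1 / b ^ 3) x n = FE b x n := by
  rcases n with _ | m
  · unfold rhs FE
    simp
  · rw [FE_succ]
    unfold rhs
    simp only [Nat.add_eq_zero_iff, one_ne_zero, and_false, if_false, Nat.add_sub_cancel, add_zero]
    have e : b ^ (3 * (m+1)) * (1 / b ^ 3) = b ^ (3 * m) := by
      field_simp
      ring
    rw [mul_sub, ← mul_assoc, e]
    ring

/-- the truncated solutions with their bounds -/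
theorem trunc_family (b : ℝ) (hb1 : 1 ≤ b) (hR : 73/20 ≤ b ^ 2) (G : RegE (b^2)) (K : ℝ)
    (hK : 0 < K) (hKA : ∀ A : ℝ, 0 < A →
      A < K * A ∧ (∀ i, G.a i * A < G.b i * (K * A)) ∧ A < G.d * (K * A) ∧
      A ^ 2 + A ^ 2 / b^2 < (G.d * (K * A)) ^ 2 / b^2)
    (a : ℕ → ℝ) (ha : ∀ n, 0 ≤ a n) (S : ℝ) (hS : 0 < S)
    (haS : ∀ N, ∑ n ∈ Finset.range (N+1), a n ^ 2 ≤ S ^ 2) (N : ℕ) (m0 : ℝ) (hm0 : 0 < m0)
    (hm : ∀ n, n ≤ N + 2 → b ^ n * a n ≤ m0) :
    ∃ V : ℕ → ℝ → ℝ, (∀ n, n ≤ N + 2 → V n 0 = a n) ∧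
      (∀ n, ∀ t ∈ Icc (0:ℝ) ((N:ℝ)+1), 0 ≤ V n t ∧ V n t ≤ S) ∧
      (∀ n, ∀ t ∈ Icc (0:ℝ) ((N:ℝ)+1), b ^ n * V n t ≤ K * m0) ∧
      (∀ m, m ≤ N + 2 → ∀ n, n ≤ N + 2 → ∀ t ∈ Icc (0:ℝ) ((N:ℝ)+1), 0 < t →
        b ^ n * V n t ≤ 5 * b ^ (m+1) * S + 100 * b / b ^ (2 * m) * (1 / t)) ∧
      ∀ n, n ≤ N + 2 → ∀ t ∈ Icc (0:ℝ) ((N:ℝ)+1), HasDerivWithinAt (V n)
        (FE b (fun k => V k t) n) (Icc 0 ((N:ℝ)+1)) t := by
  have hb : 0 < b := by linarith
  have hbn : ∀ n : ℕ, (0:ℝ) < b ^ n := fun n => by positivity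
  let κ : ℕ → ℝ := fun n => b ^ (2 * n) / b
  have hκ : ∀ n, 0 < κ n := fun n => by simp only [κ]; positivity
  have hκR : ∀ n, κ (n+1) = b ^ 2 * κ n := by
    intro n; simp only [κ]; ring
  obtain ⟨q1, q2, q3, q4⟩ := hKA m0 hm0
  have hKm : 0 < K * m0 := by positivity
  set T : ℝ := (N:ℝ) + 1 with hTd
  have hT : 0 < T := by positivity
  obtain ⟨U, hU0, hUcl, hUb, hUd⟩ := trunc_final1 G (N+2) (by omega) κ hκ hκR T hT (K*m0) m0 hKm
    q1 q2 q3 q4 (fun n => b ^ n * a n) (fun n => by have := ha n; positivity) hm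
  have hVd : ∀ n, n ≤ N + 2 → ∀ t ∈ Icc (0:ℝ) T, HasDerivWithinAt (fun t => U n t / b ^ n)
      (FE b (fun k => U k t / b ^ k) n) (Icc 0 T) t := by
    intro n hn t ht
    have h := (hUd n hn t ht).div_const (b ^ n)
    refine h.congr_deriv ?_
    exact conv_FE b hb (fun k => U k t) n
  have hV0 : ∀ n, n ≤ N + 2 → U n 0 / b ^ n = a n := by
    intro n hn
    rw [hU0 n hn]
    have := (hbn n).ne'
    field_simp
  have hVn : ∀ n, ∀ t ∈ Icc (0:ℝ) T, 0 ≤ U n t / b ^ n := by
    intro n t ht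
    have := (hUb n t ht).1
    have := hbn n
    positivity
  -- energy
  have hE : ∀ t ∈ Icc (0:ℝ) T, ∑ n ∈ Finset.range (N+2+1), (U n t / b ^ n) ^ 2 ≤ S ^ 2 := by
    intro t ht
    have key := le_of_deriv_le (T := T) (c := 0)
      (f := fun t => ∑ n ∈ Finset.range (N+2+1), (U n t / b ^ n) ^ 2)
      (f' := fun t => ∑ n ∈ Finset.range (N+2+1), 2 * (U n t / b ^ n) * FE b (fun k => U k t / b ^ k) n)
      (fun x hx => by
        apply HasDerivWithinAt.fun_sum
        intro n hn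
        have := (hVd n (by have := Finset.mem_range.1 hn; omega) x hx).pow 2
        refine this.congr_deriv ?_
        norm_num)
      (fun x hx => by
        have h1 := energyE_id b (fun k => U k x / b ^ k) (N+2)
        rw [h1]
        have h2 := hVn (N+2) x hx
        have h3 := hVn (N+2+1) x hx
        have h4 : 0 ≤ b ^ (3 * (N+2)) * (U (N+2) x / b ^ (N+2)) ^ 2 * (U (N+2+1) x / b ^ (N+2+1)) := by
          positivity
        linarith) t ht
    have h0 : ∑ n ∈ Finset.range (N+2+1), (U n 0 / b ^ n) ^ 2 = ∑ n ∈ Finset.range (N+2+1), a n ^ 2 := by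
      apply Finset.sum_congr rfl
      intro n hn
      rw [hV0 n (by have := Finset.mem_range.1 hn; omega)]
    rw [h0] at key
    have := haS (N+2)
    linarith
  have hVS1 : ∀ n, n ≤ N + 2 → ∀ t ∈ Icc (0:ℝ) T, U n t / b ^ n ≤ S := by
    intro n hn t ht
    have h1 : (U n t / b ^ n) ^ 2 ≤ S ^ 2 :=
      (Finset.single_le_sum (f := fun k => (U k t / b ^ k) ^ 2) (fun k _ => by positivity)
        (Finset.mem_range.2 (by omega))).trans (hE t ht)
    exact (le_abs_self _).trans (abs_le_of_sq_le_sq h1 hS.le)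
  have hVS : ∀ n, ∀ t ∈ Icc (0:ℝ) T, U n t / b ^ n ≤ S := by
    intro n t ht
    rcases le_total n (N+2) with h | h
    · exact hVS1 n h t ht
    · rw [hUcl n h]
      have h1 := hVS1 (N+2) le_rfl t ht
      have h2 := (hUb (N+2) t ht).1
      have h3 : b ^ (N+2) ≤ b ^ n := pow_le_pow_right₀ hb1 h
      have h4 : U (N+2) t / b ^ n ≤ U (N+2) t / b ^ (N+2) := by
        apply div_le_div_of_nonneg_left h2 (hbn _) h3
      linarith
  have hUS : ∀ n, ∀ t ∈ Icc (0:ℝ) T, U n t ≤ b ^ n * S := by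
    intro n t ht
    have h1 := hVS n t ht
    rw [div_le_iff₀ (hbn n)] at h1
    linarith
  -- the tilted polygons
  let ε : ℕ → ℝ := fun n => 1 / 100 / (73/20) ^ n
  have hε0 : ∀ n, 0 < ε n := fun n => by simp only [ε]; positivity
  have hε1 : ∀ n, ε n ≤ 1/100 := by
    intro n
    simp only [ε]
    apply div_le_self (by norm_num)
    exact one_le_pow₀ (by norm_num)
  have hεR : ∀ n, ε n = 73/20 * ε (n+1) := by
    intro n
    simp only [ε]
    rw [pow_succ]
    field_simp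
  have htilt : ∀ m, m ≤ N + 2 → ∀ n, ∀ t ∈ Icc (0:ℝ) T, 0 < t →
      U n t ≤ 5 * b ^ (m+1) * S + 100 * b / b ^ (2 * m) * (1 / t) := by
    intro m hmN
    set Q : ℝ := 100 * b / b ^ (2 * m) with hQd
    have hQ : 0 < Q := by positivity
    have hκε : ∀ n, 1 / Q ≤ κ (n + m) * ε n := by
      intro n
      induction n with
      | zero =>
        simp only [κ, ε, hQd, zero_add, pow_zero]
        apply le_of_eq
        field_simp
      | succ n ih =>
        have e0 : κ (n + 1 + m) = b ^ 2 * κ (n + m) := by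
          rw [show n + 1 + m = (n + m) + 1 by ring]; exact hκR _
        rw [e0]
        have h1 : κ (n+m) * ε n = 73/20 * (κ (n+m) * ε (n+1)) := by rw [hεR n]; ring
        have h2 : 0 < κ (n+m) * ε (n+1) := mul_pos (hκ _) (hε0 _)
        have h3 := mul_le_mul_of_nonneg_right hR h2.le
        have h4 : b ^ 2 * κ (n+m) * ε (n+1) = b ^ 2 * (κ (n+m) * ε (n+1)) := by ring
        rw [h4]
        linarith
    set τ : ℝ := Q / (5 * m0) with hτd
    have hτ : 0 < τ := by positivity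
    set B : ℝ := 5 * b ^ (m+1) * S with hBd
    have hB : 0 < B := by positivity
    let M : ℝ → ℝ := fun t => B + Q * (1 / (t + τ))
    let M' : ℝ → ℝ := fun t => - (Q * (1 / (t + τ) ^ 2))
    have htl := trunc_tilt (b^2) hR (N+2-m) (fun n => κ (n + m)) (fun n => hκ _)
      (fun n => by
        rw [show n + 1 + m = (n + m) + 1 by ring]; exact hκR _)
      ε hε0 hε1 hεR T M M'
      (fun t ht => by
        have hne : t + τ ≠ 0 := by have := ht.1; positivity
        have h1 : HasDerivWithinAt (fun t => t + τ) 1 (Icc 0 T) t := (hasDerivWithinAt_id t _).add_const τ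
        have h2 := ((h1.inv hne).const_mul Q).const_add B
        have e : (fun t => B + Q * (t + τ)⁻¹) = M := by
          funext s; simp only [M, one_div]
        have h3 : HasDerivWithinAt (fun t => B + Q * (t + τ)⁻¹) (Q * (-1 / (t + τ) ^ 2))
          (Icc 0 T) t := h2
        rw [e] at h3
        refine h3.congr_deriv ?_
        simp only [M']
        ring)
      (fun t ht => by have := ht.1; simp only [M]; positivity)
      (fun t ht => by
        have := ht.1
        simp only [M']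
        have : 0 ≤ Q * (1 / (t + τ) ^ 2) := by positivity
        linarith)
      (fun n t ht => by
        have h0t := ht.1
        simp only [M, M', neg_neg]
        have h1 := hκε n
        have h2 : 0 < 1 / (t + τ) := by positivity
        have h3 : (Q * (1 / (t + τ))) ^ 2 ≤ (B + Q * (1 / (t + τ))) ^ 2 := by
          apply pow_le_pow_left₀ (by positivity); linarith
        have h4 : 1 / (t + τ) ^ 2 = (1 / (t + τ)) ^ 2 := by rw [div_pow, one_pow]
        rw [h4]
        calc Q * (1 / (t + τ)) ^ 2 = 1 / Q * (Q * (1 / (t + τ))) ^ 2 := by field_simp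
          _ ≤ 1 / Q * (B + Q * (1 / (t + τ))) ^ 2 := by gcongr
          _ ≤ κ (n + m) * ε n * (B + Q * (1 / (t + τ))) ^ 2 := by gcongr)
      (fun n => U (n + m)) (fun n t ht => (hUb _ t ht).1)
      (fun n hn => by
        rw [hUcl (n+m) (by omega), show N + 2 - m + m = N + 2 by omega])
      (fun n hn t ht => by
        have h0t := ht.1
        have h2 := hUS (n+m) t ht
        have h3 : b ^ (n+m) ≤ b ^ (m+1) := pow_le_pow_right₀ hb1 (by omega)
        have h4 : b ^ (n+m) * S ≤ b ^ (m+1) * S := mul_le_mul_of_nonneg_right h3 hS.le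
        have h6 : 0 < Q * (1 / (t + τ)) := by positivity
        simp only [M, hBd]
        linarith)
      (fun n hn => by
        rw [hU0 (n+m) (by omega)]
        have h1 := hm (n+m) (by omega)
        simp only [M, zero_add]
        have h2 : Q * (1 / τ) = 5 * m0 := by
          rw [hτd]; field_simp
        rw [h2]
        linarith) hT.le
      (fun n hn1 hn t ht => by
        have h1 := hUd (n+m) (by omega) t ht
        rw [if_neg (by omega)]
        rw [if_neg (by omega)] at h1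
        rw [show n - 1 + m = n + m - 1 by omega, show n + 1 + m = n + m + 1 by ring]
        exact h1)
    intro n t ht htp
    have h2 : 1 / (t + τ) ≤ 1 / t := one_div_le_one_div_of_le htp (by linarith)
    have h3 : Q * (1 / (t + τ)) ≤ Q * (1 / t) := mul_le_mul_of_nonneg_left h2 hQ.le
    rcases le_total m n with h | h
    · obtain ⟨k, rfl⟩ : ∃ k, n = k + m := ⟨n - m, by omega⟩
      have h1 := htl k t ht
      simp only [M] at h1
      linarith
    · have h1 := hUS n t ht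
      have h4 : b ^ n ≤ b ^ (m+1) := pow_le_pow_right₀ hb1 (by omega)
      have h5 : b ^ n * S ≤ b ^ (m+1) * S := mul_le_mul_of_nonneg_right h4 hS.le
      have h6 : 0 < Q * (1 / t) := by positivity
      have h7 : 0 < b ^ (m+1) * S := by positivity
      rw [hBd]
      linarith
  refine ⟨fun n t => U n t / b ^ n, hV0, fun n t ht => ⟨hVn n t ht, hVS n t ht⟩, ?_, ?_, hVd⟩
  · intro n t ht
    have := (hUb n t ht).2
    have e : b ^ n * (U n t / b ^ n) = U n t := by have := (hbn n).ne'; field_simp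
    simp only
    rw [e]; exact this
  · intro m hmN n hn t ht htp
    have h1 := htilt m hmN n t ht htp
    have e : b ^ n * (U n t / b ^ n) = U n t := by have := (hbn n).ne'; field_simp
    simp only
    rw [e]
    exact h1

/-- optimisation over the shell -/
theorem opt_shell (b : ℝ) (hb : 1 < b) (S t u : ℝ) (hS : 0 < S) (ht : 0 < t) (hu : 0 ≤ u)
    (h : ∀ m : ℕ, u ≤ 5 * b ^ (m+1) * S + 100 * b / b ^ (2 * m) * (1 / t)) :
    u ^ 3 ≤ (200 * b ^ 4) ^ 3 * (S ^ 2 * (S + 1 / t)) := by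
  have hb0 : 0 < b := by linarith
  have hb4 : b ≤ b ^ 4 := by
    calc b = b ^ 1 := (pow_one b).symm
      _ ≤ b ^ 4 := pow_le_pow_right₀ hb.le (by norm_num)
  rcases le_total (1 / t) S with h1 | h1
  · have h2 := h 0
    simp only [zero_add, pow_one, mul_zero, pow_zero, div_one] at h2
    have h3 : u ≤ 200 * b ^ 4 * S := by
      have h4 : b * (1 / t) ≤ b * S := mul_le_mul_of_nonneg_left h1 hb0.le
      have h5 : b * S ≤ b ^ 4 * S := mul_le_mul_of_nonneg_right hb4 hS.le
      have h6 : 0 < b ^ 4 * S := by positivity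
      nlinarith
    calc u ^ 3 ≤ (200 * b ^ 4 * S) ^ 3 := pow_le_pow_left₀ hu h3 3
      _ = (200 * b ^ 4) ^ 3 * (S ^ 2 * S) := by ring
      _ ≤ (200 * b ^ 4) ^ 3 * (S ^ 2 * (S + 1 / t)) := by
        have : 0 < 1 / t := by positivity
        gcongr; linarith
  · have hx : 1 ≤ 1 / (S * t) := by
      rw [le_div_iff₀ (by positivity)]
      rw [le_div_iff₀ ht] at h1
      linarith
    obtain ⟨m, hm1, hm2⟩ := exists_nat_pow_near hx (one_lt_pow₀ hb (by norm_num : (3:ℕ) ≠ 0))
    have e1 : (b ^ 3) ^ m = b ^ (3 * m) := by rw [← pow_mul]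
    have e2 : (b ^ 3) ^ (m+1) = b ^ 3 * b ^ (3 * m) := by rw [pow_succ, ← pow_mul]; ring
    rw [e1] at hm1
    rw [e2] at hm2
    have hSt : 0 < S * t := by positivity
    rw [le_div_iff₀ hSt] at hm1
    rw [div_lt_iff₀ hSt] at hm2
    have h2 := h m
    have h3 : 100 * b / b ^ (2 * m) * (1 / t) ≤ 100 * b ^ 4 * (b ^ m * S) := by
      rw [div_mul_div_comm, div_le_iff₀ (by positivity)]
      have e3 : 100 * b ^ 4 * (b ^ m * S) * (b ^ (2 * m) * t)
          = 100 * b * (b ^ 3 * b ^ (3 * m) * (S * t)) := by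
        rw [show 3 * m = m + 2 * m by ring, pow_add]; ring
      rw [e3]
      have := mul_lt_mul_of_pos_left hm2 (by positivity : 0 < 100 * b)
      linarith
    have h4 : 5 * b ^ (m+1) * S ≤ 5 * b ^ 4 * (b ^ m * S) := by
      have : 5 * b ^ (m+1) * S = 5 * b * (b ^ m * S) := by rw [pow_succ]; ring
      rw [this]
      gcongr
    have h5 : 0 < b ^ 4 * (b ^ m * S) := by positivity
    have h6 : u ≤ 200 * b ^ 4 * (b ^ m * S) := by linarith
    calc u ^ 3 ≤ (200 * b ^ 4 * (b ^ m * S)) ^ 3 := pow_le_pow_left₀ hu h6 3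
      _ = (200 * b ^ 4) ^ 3 * (S ^ 2 * (b ^ (3 * m) * S)) := by
        rw [show 3 * m = m * 3 by ring, pow_mul]; ring
      _ ≤ (200 * b ^ 4) ^ 3 * (S ^ 2 * (S + 1 / t)) := by
        have h7 : b ^ (3 * m) * S ≤ 1 / t := by
          rw [le_div_iff₀ ht]; linarith
        gcongr
        linarith

theorem smooth_exists (b : ℝ) (hb : 0 < b) (h7 : 7 ≤ b ^ 3) : ∃ K : ℝ, 0 < K ∧
    ∀ a : ℕ → ℝ, (∀ n, 0 ≤ a n) → ∀ S : ℝ, 0 < S →
      (∀ N, ∑ n ∈ Finset.range (N+1), a n ^ 2 ≤ S ^ 2) →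
      ∃ X : ℕ → ℝ → ℝ, IsE b X ∧ (∀ n, X n 0 = a n) ∧ (∀ n t, 0 ≤ t → 0 ≤ X n t) ∧
        (∀ (n : ℕ) t, 0 < t → (b ^ n * X n t) ^ 3 ≤ K * (S ^ 2 * (S + 1 / t))) ∧
        (∀ A : ℝ, (∀ n : ℕ, b ^ n * a n ≤ A) → ∀ (n : ℕ) t, 0 ≤ t → b ^ n * X n t ≤ K * A) := by
  have hb1' : 1 < b := by
    by_contra hcon
    push Not at hcon
    have : b ^ 3 ≤ 1 ^ 3 := by gcongr
    linarith
  have hb1 : 1 ≤ b := hb1'.le
  have hR : 73/20 ≤ b ^ 2 := by
    by_contra hcon
    push Not at hcon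
    have h1 : (b ^ 2) ^ 3 < (73/20) ^ 3 := by gcongr
    have h2 : (b ^ 3) ^ 2 = (b ^ 2) ^ 3 := by ring
    have h3 : (7:ℝ) ^ 2 ≤ (b ^ 3) ^ 2 := by gcongr
    rw [h2] at h3
    norm_num at h1 h3
    linarith
  have hbn : ∀ n : ℕ, (0:ℝ) < b ^ n := fun n => by positivity
  set G := regE (b ^ 2) (by linarith) with hG
  obtain ⟨K, hK, hKA⟩ := G.exists_K
  refine ⟨max K ((200 * b ^ 4) ^ 3), lt_max_of_lt_left hK, ?_⟩
  intro a ha S hS haS
  have hne : ∀ N : ℕ, (Finset.range (N+3)).Nonempty := fun N => ⟨0, by simp⟩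
  let m0 : ℕ → ℝ := fun N =>
    (Finset.range (N+3)).sup' (hne N) (fun n => b ^ n * a n) + 1 / ((N:ℝ) + 1)
  have hm : ∀ N n, n ≤ N + 2 → b ^ n * a n ≤ m0 N := by
    intro N n hn
    have h1 := Finset.le_sup' (f := fun n => b ^ n * a n) (Finset.mem_range.2 (by omega : n < N + 3))
    have h2 : (0:ℝ) < 1 / ((N:ℝ) + 1) := by positivity
    simp only [m0]
    linarith
  have hm0 : ∀ N, 0 < m0 N := by
    intro N
    have h1 := Finset.le_sup' (f := fun n => b ^ n * a n) (Finset.mem_range.2 (by omega : 0 < N + 3))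
    have h2 : (0:ℝ) < 1 / ((N:ℝ) + 1) := by positivity
    have h3 := ha 0
    simp only [m0]
    simp only [pow_zero, one_mul] at h1
    linarith
  have hmA : ∀ A : ℝ, (∀ n : ℕ, b ^ n * a n ≤ A) → ∀ N, m0 N ≤ A + 1 / ((N:ℝ) + 1) := by
    intro A hA N
    have h1 := Finset.sup'_le (hne N) (fun n => b ^ n * a n)
      (fun n _ => hA n)
    simp only [m0]
    linarith
  have hfam := fun N : ℕ => trunc_family b hb1 hR G K hK hKA a ha S hS haS N (m0 N) (hm0 N) (hm N)
  choose V hV0 hVb hVK hVQ hVd using hfam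
  obtain ⟨X, hX0, hXb, hXd, hXc⟩ := limit_exists2 (fun n => b ^ (3 * n)) (fun _ => 0)
    (fun n => by positivity) (fun _ => le_rfl) (1 / b ^ 3) S (by positivity) a V
    (fun N n hn => hV0 N n (by omega)) (fun N n t ht => hVb N n t ht)
    (fun N n hn t ht => by
      rw [rhs_FE b hb]
      exact hVd N n (by omega) t ht)
  refine ⟨X, ?_, hX0, fun n t ht => (hXb n t ht).1, ?_, ?_⟩
  · intro n t ht
    have h := hXd n t ht
    rw [rhs_FE b hb] at h
    exact h
  · intro n t ht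
    have h1 : ∀ m : ℕ, b ^ n * X n t ≤ 5 * b ^ (m+1) * S + 100 * b / b ^ (2 * m) * (1 / t) := by
      intro m
      have h1 : X n t ≤ (5 * b ^ (m+1) * S + 100 * b / b ^ (2 * m) * (1 / t)) / b ^ n := by
        apply hXc n t ht.le
        filter_upwards [eventually_ge_atTop n, eventually_ge_atTop m, eventually_ge_atTop ⌈t⌉₊]
          with N h1 h1' h2
        rw [le_div_iff₀ (hbn n), mul_comm]
        refine hVQ N m (by omega) n (by omega) t ⟨ht.le, ?_⟩ ht
        have h3 := Nat.le_ceil t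
        have h4 : ((⌈t⌉₊ : ℕ) : ℝ) ≤ N := by exact_mod_cast h2
        linarith
      rwa [le_div_iff₀ (hbn n), mul_comm] at h1
    have h2 := opt_shell b hb1' S t (b ^ n * X n t) hS ht
      (mul_nonneg (hbn n).le (hXb n t ht.le).1) h1
    refine h2.trans ?_
    have h3 : 0 ≤ S ^ 2 * (S + 1 / t) := by positivity
    exact mul_le_mul_of_nonneg_right (le_max_right _ _) h3
  · intro A hA n t ht
    have hA0 : 0 ≤ A := le_trans (by have := ha 0; positivity) (hA 0)
    have h0 : b ^ n * X n t ≤ K * A := by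
      apply le_of_forall_pos_le_add
      intro δ hδ
      have h1 : X n t ≤ (K * A + δ) / b ^ n := by
        apply hXc n t ht
        obtain ⟨N0, hN0⟩ := exists_nat_gt (K / δ)
        filter_upwards [eventually_ge_atTop N0, eventually_ge_atTop ⌈t⌉₊] with N h1 h2
        rw [le_div_iff₀ (hbn n), mul_comm]
        have h3 := Nat.le_ceil t
        have h4 : ((⌈t⌉₊ : ℕ) : ℝ) ≤ N := by exact_mod_cast h2
        have h5 := hVK N n t ⟨ht, by linarith⟩
        have h6 := hmA A hA N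
        have h7 : K * m0 N ≤ K * (A + 1 / ((N:ℝ) + 1)) := mul_le_mul_of_nonneg_left h6 hK.le
        have h8 : (N0:ℝ) ≤ N := by exact_mod_cast h1
        have h9 : K / δ < (N:ℝ) + 1 := by linarith
        have h10 : K * (1 / ((N:ℝ) + 1)) ≤ δ := by
          rw [mul_one_div, div_le_iff₀ (by positivity)]
          rw [div_lt_iff₀ hδ] at h9
          linarith
        linarith
      rwa [le_div_iff₀ (hbn n), mul_comm] at h1
    exact h0.trans (mul_le_mul_of_nonneg_right (le_max_left _ _) hA0)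

end Pool.Agent.H219.Dy
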