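import Pool.Agent.H219.Dy.EulerS

/-! Energy, positivity and sharpness for finite energy data. -/

set_option maxHeartbeats 4000000

namespace Pool.Agent.H219.Dy

open Set Filter Topology

theorem IsE.shift {b : ℝ} {X : ℕ → ℝ → ℝ} (hX : IsE b X) (t0 : ℝ) (ht0 : 0 ≤ t0) :
    IsE b (fun n t => X n (t0 + t)) := by
  intro n t ht
  have h1 := hX n (t0 + t) (by linarith)
  have h2 : HasDerivWithinAt (fun s => t0 + s) 1 (Ici 0) t := (hasDerivWithinAt_id t _).const_add t0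
  have h3 := HasDerivWithinAt.comp t h1 h2 (fun s hs => by
    have : (0:ℝ) ≤ s := hs
    exact Set.mem_Ici.2 (by linarith))
  rw [mul_one] at h3
  exact h3

theorem IsE.summ {b : ℝ} (hb : 0 ≤ b) {X : ℕ → ℝ → ℝ} (hX : IsE b X) (h0 : ∀ n, 0 ≤ X n 0)
    (S : ℝ) (hS : ∀ N, EN X N 0 ≤ S ^ 2) (t : ℝ) (ht : 0 ≤ t) : Summable (fun n => X n t ^ 2) := by
  apply summable_of_sum_range_le (c := S ^ 2) (fun n => by positivity)
  intro N
  rcases N with _ | N
  · simp; positivity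
  · exact (hX.EN_anti hb h0 N (Set.mem_Ici.2 le_rfl) ht ht).trans (hS N)

theorem tendsto_EN {X : ℕ → ℝ → ℝ} {t : ℝ} (h : Summable (fun n => X n t ^ 2)) :
    Tendsto (fun N => EN X N t) atTop (𝓝 (∑' n, X n t ^ 2)) :=
  h.hasSum.tendsto_sum_nat.comp (tendsto_add_atTop_nat 1)

theorem IsE.energy_anti2 {b : ℝ} (hb : 0 ≤ b) {X : ℕ → ℝ → ℝ} (hX : IsE b X)
    (h0 : ∀ n, 0 ≤ X n 0) (hs : ∀ t, 0 ≤ t → Summable (fun n => X n t ^ 2)) :
    AntitoneOn (fun t => ∑' n, X n t ^ 2) (Ici 0) := by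
  intro s hs' t ht hst
  exact le_of_tendsto_of_tendsto' (tendsto_EN (hs t ht)) (tendsto_EN (hs s hs'))
    (fun N => hX.EN_anti hb h0 N hs' ht hst)

theorem IsE.energy_tendsto2 {b : ℝ} (hb : 1 < b) {X : ℕ → ℝ → ℝ} (hX : IsE b X)
    (h0 : ∀ n, 0 ≤ X n 0) (C : ℝ) (hC : ∀ (n : ℕ) t, 1 ≤ t → b ^ n * X n t ≤ C) :
    Tendsto (fun t => ∑' n, X n t ^ 2) atTop (𝓝 0) := by
  have hb0 : 0 < b := by linarith
  have hnn := hX.nonneg hb0.le h0
  have key := tendsto_tsum_of_dominated_convergence (𝓕 := (atTop : Filter ℝ))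
    (f := fun t n => X n t ^ 2) (g := fun _ => (0:ℝ)) (bound := fun n : ℕ => C ^ 2 * (1 / b ^ 2) ^ n)
    (summ_geo hb)
    (fun n => by
      have := (hX.mode_tendsto hb0 h0 n).pow 2
      simpa using this)
    (by
      filter_upwards [eventually_ge_atTop (1:ℝ)] with t ht
      intro n
      rw [Real.norm_eq_abs, abs_of_nonneg (by positivity)]
      exact geo_bound hb0 (hnn n t (by linarith)) (hC n t ht))
  simpa using key

/-- a mode which is positive stays positive -/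
theorem IsE.pos {b : ℝ} (hb : 0 ≤ b) {X : ℕ → ℝ → ℝ} (hX : IsE b X) (h0 : ∀ n, 0 ≤ X n 0)
    (S : ℝ) (hS : ∀ n t, 0 ≤ t → X n t ≤ S) (m : ℕ) (hm : 0 < X m 0) (t : ℝ) (ht : 0 ≤ t) :
    0 < X m t := by
  have hnn := hX.nonneg hb h0
  set L : ℝ := b ^ (3 * m) * S with hL
  have key := le_of_deriv_le (T := t) (c := 0) (f := fun s => - (X m s * Real.exp (L * s)))
    (f' := fun s => - (FE b (fun k => X k s) m * Real.exp (L * s) + X m s * (Real.exp (L * s) * (L * 1))))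
    (fun s hs => by
      have h1 : HasDerivWithinAt (fun x => Real.exp (L * x)) (Real.exp (L * s) * (L * 1))
          (Icc 0 t) s :=
        ((hasDerivWithinAt_id s (Icc (0:ℝ) t)).const_mul L).exp
      exact ((hX.deriv t m s hs).mul h1).neg)
    (fun s hs => by
      have hsrc : 0 ≤ (if m = 0 then (0:ℝ) else b ^ (3 * (m - 1)) * X (m - 1) s ^ 2) := by
        split_ifs
        · exact le_refl _
        · positivity
      have h1 := hS (m+1) s hs.1
      have h2 := hnn m s hs.1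
      have h3 : 0 ≤ b ^ (3 * m) := by positivity
      have h4 : b ^ (3 * m) * X m s * X (m+1) s ≤ b ^ (3 * m) * X m s * S :=
        mul_le_mul_of_nonneg_left h1 (by positivity)
      have h5 : 0 ≤ FE b (fun k => X k s) m + L * X m s := by
        unfold FE
        simp only
        have : L * X m s = b ^ (3 * m) * X m s * S := by rw [hL]; ring
        rw [this]; linarith
      have h6 := mul_nonneg h5 (Real.exp_pos (L * s)).le
      linarith) t ⟨ht, le_refl _⟩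
  simp only [mul_zero, Real.exp_zero, mul_one, zero_mul, add_zero] at key
  have h7 : 0 < X m t * Real.exp (L * t) := by linarith
  exact (pos_iff_pos_of_mul_pos h7).2 (Real.exp_pos _)

theorem IsE.blowup2 {b : ℝ} (hb : 1 < b) {X : ℕ → ℝ → ℝ} (hX : IsE b X)
    (h0 : ∀ n, 0 ≤ X n 0) (hs : ∀ t, 0 ≤ t → Summable (fun n => X n t ^ 2))
    (T : ℝ) (hT : 0 ≤ T) (hE : ∑' n, X n T ^ 2 < ∑' n, X n 0 ^ 2) (c : ℝ) (hc : b < c) (M : ℝ) :
    ∃ n : ℕ, ∃ t ∈ Icc (0:ℝ) T, M < c ^ n * X n t := by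
  by_contra hcon
  push Not at hcon
  have hb0 : 0 < b := by linarith
  have hc0 : 0 < c := by linarith
  have hnn := hX.nonneg hb0.le h0
  have hM : 0 ≤ M := le_trans (by have := h0 0; positivity) (hcon 0 0 ⟨le_rfl, hT⟩)
  have h1 : ∀ r, 0 ≤ r → Tendsto (fun N => EN X N r) atTop (𝓝 (∑' n, X n r ^ 2)) :=
    fun r hr => tendsto_EN (hs r hr)
  have h2 : ∀ N : ℕ, EN X N 0 ≤ EN X N T + (2 * M ^ 3 / c) * (b ^ 3 / c ^ 3) ^ N * T := by
    intro N
    have key := le_of_deriv_le (T := T) (c := (2 * M ^ 3 / c) * (b ^ 3 / c ^ 3) ^ N)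
      (f := fun t => - EN X N t) (f' := fun t => - (- 2 * (b ^ (3 * N) * X N t ^ 2 * X (N+1) t)))
      (fun t ht => ((hX.EN_deriv N t ht.1).mono (fun y hy => hy.1)).neg)
      (fun t ht => by
        have q1 : X N t ≤ M / c ^ N := by
          rw [le_div_iff₀ (by positivity)]
          have := hcon N t ht; linarith
        have q2 : X (N+1) t ≤ M / c ^ (N+1) := by
          rw [le_div_iff₀ (by positivity)]
          have := hcon (N+1) t ht; linarith
        have q3 : X N t ^ 2 ≤ (M / c ^ N) ^ 2 := pow_le_pow_left₀ (hnn N t ht.1) q1 2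
        have q4 : X N t ^ 2 * X (N+1) t ≤ (M / c ^ N) ^ 2 * (M / c ^ (N+1)) :=
          mul_le_mul q3 q2 (hnn (N+1) t ht.1) (by positivity)
        have q5 := mul_le_mul_of_nonneg_left q4 (by positivity : (0:ℝ) ≤ 2 * b ^ (3 * N))
        have e : 2 * b ^ (3 * N) * ((M / c ^ N) ^ 2 * (M / c ^ (N+1)))
            = (2 * M ^ 3 / c) * (b ^ 3 / c ^ 3) ^ N := by
          rw [div_pow (b^3), ← pow_mul, ← pow_mul]
          field_simp
          ring
        rw [e] at q5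
        linarith) T ⟨hT, le_refl _⟩
    linarith
  have h3 : Tendsto (fun N : ℕ => EN X N T + (2 * M ^ 3 / c) * (b ^ 3 / c ^ 3) ^ N * T) atTop
      (𝓝 (∑' n, X n T ^ 2 + (2 * M ^ 3 / c) * 0 * T)) := by
    refine (h1 T hT).add (((tendsto_pow_atTop_nhds_zero_of_lt_one (by positivity) ?_).const_mul _).mul_const T)
    rw [div_lt_one (by positivity)]
    gcongr
  have h4 := le_of_tendsto_of_tendsto' (h1 0 le_rfl) h3 h2
  linarith

/-- sharpness after every time `t0` -/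
theorem IsE.sharp {b : ℝ} (hb : 1 < b) {X : ℕ → ℝ → ℝ} (hX : IsE b X)
    (h0 : ∀ n, 0 ≤ X n 0) (hs : ∀ t, 0 ≤ t → Summable (fun n => X n t ^ 2))
    (hE : Tendsto (fun t => ∑' n, X n t ^ 2) atTop (𝓝 0)) (t0 : ℝ) (ht0 : 0 ≤ t0)
    (hpos : 0 < ∑' n, X n t0 ^ 2) :
    ∃ T : ℝ, t0 < T ∧ ∀ c : ℝ, b < c → ∀ M : ℝ, ∃ n : ℕ, ∃ t ∈ Icc t0 T, M < c ^ n * X n t := by
  have hnn := hX.nonneg (by linarith : (0:ℝ) ≤ b) h0
  have hev := hE.eventually (gt_mem_nhds hpos)
  obtain ⟨T, hT1, hT2⟩ := (hev.and (eventually_gt_atTop t0)).exists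
  refine ⟨T, hT2, fun c hc M => ?_⟩
  have h1 := (hX.shift t0 ht0).blowup2 hb (fun n => by
      simp only [add_zero]; exact hnn n t0 ht0)
    (fun t ht => hs (t0 + t) (by linarith)) (T - t0) (by linarith) (by
      simp only [add_zero]
      have e : t0 + (T - t0) = T := by ring
      rw [e]; exact hT1) c hc M
  obtain ⟨n, t, ht, h2⟩ := h1
  exact ⟨n, t0 + t, ⟨by linarith [ht.1], by linarith [ht.2]⟩, h2⟩

end Pool.Agent.H219.Dy
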