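import Pool.Agent.H219.Dy.EulerT

/-! Uniqueness for all finite energy data. -/

set_option maxHeartbeats 4000000

namespace Pool.Agent.H219.Dy

open Set Filter Topology

/-- pointwise estimate of the cube of a mode -/
theorem cube_point (b : ℝ) (hb : 1 ≤ b) (κ : ℝ) (hκ : 0 < κ) (hκb : κ * b ^ 3 ≤ 1) (m : ℕ)
    (s x0 x1 x2 : ℝ) (hs : 0 ≤ s) (h0 : 0 ≤ x0) (h1 : 0 ≤ x1) (h2 : 0 ≤ x2) :
    b ^ (3 * m) * x0 ^ 3 ≤
      2 * ((s - b ^ (3 * m) * x0 * x1) * x1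
        + x0 * (b ^ (3 * m) * x0 ^ 2 - b ^ (3 * (m+1)) * x1 * x2))
      + 1 / κ * (b ^ (3 * m) * x0 ^ 2 * x1 + b ^ (3 * (m+1)) * x1 ^ 2 * x2)
      + κ * (b ^ (3 * (m+1)) * x1 ^ 3 + b ^ (3 * (m+2)) * x2 ^ 3) := by
  have hb0 : 0 < b := by linarith
  have hP : 0 < b ^ (3 * m) := by positivity
  set P := b ^ (3 * m) with hPd
  have e1 : b ^ (3 * (m+1)) = b ^ 3 * P := by rw [hPd]; ring
  have e2 : b ^ (3 * (m+2)) = b ^ 3 * (b ^ 3 * P) := by rw [hPd]; ring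
  rw [e1, e2]
  have hb3 : 1 ≤ b ^ 3 := one_le_pow₀ hb
  set B := b ^ 3 with hBd
  -- Young 1:  2 x0 x1² ≤ (1/κ) x0² x1 + κ x1³
  have y1 : 2 * (x0 * x1 ^ 2) ≤ 1 / κ * (x0 ^ 2 * x1) + κ * x1 ^ 3 := by
    have : 0 ≤ 1 / κ * (x1 * (x0 - κ * x1) ^ 2) := by positivity
    have e : 1 / κ * (x1 * (x0 - κ * x1) ^ 2)
        = 1 / κ * (x0 ^ 2 * x1) + κ * x1 ^ 3 - 2 * (x0 * x1 ^ 2) := by
      field_simp; ring
    linarith
  -- Young 2:  2 x0 x1 x2 ≤ (1/κ) x1² x2 + κ x0² x2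
  have y2 : 2 * (x0 * x1 * x2) ≤ 1 / κ * (x1 ^ 2 * x2) + κ * (x0 ^ 2 * x2) := by
    have : 0 ≤ 1 / κ * (x2 * (x1 - κ * x0) ^ 2) := by positivity
    have e : 1 / κ * (x2 * (x1 - κ * x0) ^ 2)
        = 1 / κ * (x1 ^ 2 * x2) + κ * (x0 ^ 2 * x2) - 2 * (x0 * x1 * x2) := by
      field_simp; ring
    linarith
  have y3 : x0 ^ 2 * x2 ≤ x0 ^ 3 + x2 ^ 3 := by
    rcases le_total x0 x2 with h | h
    · have : x0 ^ 2 * x2 ≤ x2 ^ 2 * x2 := by gcongr
      have : 0 ≤ x0 ^ 3 := by positivity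
      nlinarith
    · have : x0 ^ 2 * x2 ≤ x0 ^ 2 * x0 := by gcongr
      have : 0 ≤ x2 ^ 3 := by positivity
      nlinarith
  have z1 := mul_le_mul_of_nonneg_left y1 hP.le
  have z2 := mul_le_mul_of_nonneg_left y2 (by positivity : 0 ≤ B * P)
  have z3 := mul_le_mul_of_nonneg_left y3 (by positivity : 0 ≤ B * P * κ)
  have z4 : B * P * κ * x0 ^ 3 ≤ P * x0 ^ 3 := by
    have : B * P * κ * x0 ^ 3 = (κ * B) * (P * x0 ^ 3) := by ring
    rw [this]
    have h5 : 0 ≤ P * x0 ^ 3 := by positivity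
    nlinarith
  have z5 : P * (κ * x1 ^ 3) ≤ κ * (B * P * x1 ^ 3) := by
    have h5 : 0 ≤ κ * (P * x1 ^ 3) := by positivity
    have h6 := mul_le_mul_of_nonneg_right hb3 h5
    linarith
  have z6 : B * P * κ * x2 ^ 3 ≤ κ * (B * (B * P) * x2 ^ 3) := by
    have h5 : 0 ≤ κ * (B * P * x2 ^ 3) := by positivity
    have h6 := mul_le_mul_of_nonneg_right hb3 h5
    linarith
  have z7 : 0 ≤ s * x1 := by positivity
  have e3 : 1 / κ * (P * x0 ^ 2 * x1 + B * P * x1 ^ 2 * x2)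
      = P * (1 / κ * (x0 ^ 2 * x1)) + B * P * (1 / κ * (x1 ^ 2 * x2)) := by ring
  rw [e3]
  nlinarith

/-- the time integral of `b^(3N) X_N³` is bounded, in the form of a differential inequality -/
theorem IsE.cube {b : ℝ} (hb : 1 ≤ b) {X : ℕ → ℝ → ℝ} (hX : IsE b X) (h0 : ∀ n, 0 ≤ X n 0)
    (S : ℝ) (hS0 : 0 ≤ S) (hS : ∀ N, EN X N 0 ≤ S ^ 2) (T : ℝ) : ∃ D : ℝ, ∀ (K N : ℕ),
      ∃ g g' : ℝ → ℝ, (∀ t ∈ Icc (0:ℝ) T, HasDerivWithinAt g (g' t) (Icc 0 T) t) ∧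
        (∀ t ∈ Icc (0:ℝ) T, b ^ (3 * N) * X N t ^ 3 ≤ g' t + b ^ (3 * N) * S ^ 3 * (1/2) ^ K) ∧
        (∀ t ∈ Icc (0:ℝ) T, g t - g 0 ≤ D) := by
  have hb0 : 0 < b := by linarith
  have hnn := hX.nonneg hb0.le h0
  have hE : ∀ N t, 0 ≤ t → EN X N t ≤ S ^ 2 := fun N t ht =>
    (hX.EN_anti hb0.le h0 N (Set.mem_Ici.2 le_rfl) ht ht).trans (hS N)
  have hE0 : ∀ N t, 0 ≤ EN X N t := fun N t => by unfold EN; positivity
  have hXS : ∀ n t, 0 ≤ t → X n t ≤ S := by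
    intro n t ht
    have h1 : X n t ^ 2 ≤ EN X n t :=
      Finset.single_le_sum (f := fun k => X k t ^ 2) (fun k _ => by positivity)
        (Finset.mem_range.2 (Nat.lt_succ_self n))
    exact (le_abs_self _).trans (abs_le_of_sq_le_sq (h1.trans (hE n t ht)) hS0)
  set κ : ℝ := 1 / (4 * b ^ 6) with hκd
  have hκ : 0 < κ := by positivity
  have hb3 : 1 ≤ b ^ 3 := one_le_pow₀ hb
  have hb6 : b ^ 6 = b ^ 3 * b ^ 3 := by ring
  have hκb6 : κ * b ^ 6 = 1 / 4 := by rw [hκd]; field_simp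
  have hκb : κ * b ^ 3 ≤ 1 := by
    have h1 : κ * b ^ 3 ≤ κ * b ^ 6 := by
      apply mul_le_mul_of_nonneg_left _ hκ.le
      rw [hb6]; nlinarith
    linarith
  have hκ4 : κ ≤ 1 / 4 := by
    have h1 : κ * 1 ≤ κ * b ^ 6 := by
      apply mul_le_mul_of_nonneg_left _ hκ.le
      rw [hb6]; nlinarith
    linarith
  set D0 : ℝ := 2 * S ^ 2 + 1 / κ * S ^ 2 with hD0
  have hD00 : 0 ≤ D0 := by positivity
  refine ⟨2 * D0, ?_⟩
  intro K
  induction K with
  | zero =>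
    intro N
    refine ⟨fun _ => 0, fun _ => 0, fun t _ => hasDerivWithinAt_const _ _ _, fun t ht => ?_,
      fun t _ => by simp; exact hD00⟩
    have h1 := hnn N t ht.1
    have h2 : X N t ^ 3 ≤ S ^ 3 := pow_le_pow_left₀ h1 (hXS N t ht.1) 3
    have h3 : b ^ (3 * N) * X N t ^ 3 ≤ b ^ (3 * N) * S ^ 3 := mul_le_mul_of_nonneg_left h2 (by positivity)
    simp only [pow_zero, mul_one, zero_add]
    exact h3
  | succ K ih =>
    intro N
    obtain ⟨g1, g1', d1, i1, o1⟩ := ih (N+1)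
    obtain ⟨g2, g2', d2, i2, o2⟩ := ih (N+2)
    refine ⟨fun t => 2 * (X N t * X (N+1) t) - 1 / (2 * κ) * (EN X N t + EN X (N+1) t)
        + κ * (g1 t + g2 t),
      fun t => 2 * (FE b (fun k => X k t) N * X (N+1) t + X N t * FE b (fun k => X k t) (N+1))
        - 1 / (2 * κ) * (- 2 * (b ^ (3 * N) * X N t ^ 2 * X (N+1) t)
          + - 2 * (b ^ (3 * (N+1)) * X (N+1) t ^ 2 * X (N+1+1) t))
        + κ * (g1' t + g2' t), ?_, ?_, ?_⟩
    · intro t ht
      have hsub : Icc (0:ℝ) T ⊆ Ici 0 := fun y hy => hy.1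
      have c1 := ((hX.deriv T N t ht).mul (hX.deriv T (N+1) t ht)).const_mul 2
      have c2 := (((hX.EN_deriv N t ht.1).mono hsub).add
        ((hX.EN_deriv (N+1) t ht.1).mono hsub)).const_mul (1 / (2 * κ))
      have c3 := ((d1 t ht).add (d2 t ht)).const_mul κ
      exact (c1.sub c2).add c3
    · intro t ht
      have x0 := hnn N t ht.1
      have x1 := hnn (N+1) t ht.1
      have x2 := hnn (N+2) t ht.1
      have hsrc : 0 ≤ (if N = 0 then (0:ℝ) else b ^ (3 * (N - 1)) * X (N - 1) t ^ 2) := by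
        split_ifs
        · exact le_refl _
        · positivity
      have hp := cube_point b hb κ hκ hκb N _ (X N t) (X (N+1) t) (X (N+2) t) hsrc x0 x1 x2
      have j1 := mul_le_mul_of_nonneg_left (i1 t ht) hκ.le
      have j2 := mul_le_mul_of_nonneg_left (i2 t ht) hκ.le
      have eF : FE b (fun k => X k t) N = (if N = 0 then (0:ℝ) else b ^ (3 * (N - 1)) * X (N - 1) t ^ 2)
        - b ^ (3 * N) * X N t * X (N+1) t := by unfold FE; rfl
      have eF1 : FE b (fun k => X k t) (N+1) = b ^ (3 * N) * X N t ^ 2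
        - b ^ (3 * (N+1)) * X (N+1) t * X (N+2) t := FE_succ b (fun k => X k t) N
      have ek : 1 / (2 * κ) * (- 2 * (b ^ (3 * N) * X N t ^ 2 * X (N+1) t)
          + - 2 * (b ^ (3 * (N+1)) * X (N+1) t ^ 2 * X (N+2) t))
          = - (1 / κ * (b ^ (3 * N) * X N t ^ 2 * X (N+1) t
            + b ^ (3 * (N+1)) * X (N+1) t ^ 2 * X (N+2) t)) := by
        field_simp
        ring
      -- remainders
      have hrem : κ * (b ^ (3 * (N+1)) * S ^ 3 * (1/2) ^ K) + κ * (b ^ (3 * (N+2)) * S ^ 3 * (1/2) ^ K)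
          ≤ b ^ (3 * N) * S ^ 3 * (1/2) ^ (K+1) := by
        have r1 : b ^ (3 * (N+1)) ≤ b ^ (3 * (N+2)) := pow_le_pow_right₀ hb (by omega)
        have r2 : κ * (b ^ (3 * (N+1)) * S ^ 3 * (1/2) ^ K) ≤ κ * (b ^ (3 * (N+2)) * S ^ 3 * (1/2) ^ K) := by
          gcongr
        have r3 : κ * (b ^ (3 * (N+2)) * S ^ 3 * (1/2) ^ K)
            = (κ * b ^ 6) * (b ^ (3 * N) * S ^ 3 * (1/2) ^ K) := by
          rw [show 3 * (N+2) = 3 * N + 6 by ring, pow_add]; ring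
        rw [hκb6] at r3
        have r4 : b ^ (3 * N) * S ^ 3 * (1/2) ^ (K+1) = 1 / 2 * (b ^ (3 * N) * S ^ 3 * (1/2) ^ K) := by
          rw [pow_succ]; ring
        rw [r4]
        linarith
      beta_reduce
      rw [eF, eF1, show N + 1 + 1 = N + 2 by ring, ek]
      linarith
    · intro t ht
      have q1 := o1 t ht
      have q2 := o2 t ht
      have q3 : κ * (g1 t - g1 0 + (g2 t - g2 0)) ≤ 1 / 4 * (2 * D0 + 2 * D0) := by
        have : κ * (g1 t - g1 0 + (g2 t - g2 0)) ≤ κ * (2 * D0 + 2 * D0) :=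
          mul_le_mul_of_nonneg_left (by linarith) hκ.le
        have h5 : 0 ≤ 2 * D0 + 2 * D0 := by linarith
        have := mul_le_mul_of_nonneg_right hκ4 h5
        linarith
      have q4 : X N t * X (N+1) t ≤ S ^ 2 := by
        have := mul_le_mul (hXS N t ht.1) (hXS (N+1) t ht.1) (hnn (N+1) t ht.1) hS0
        nlinarith
      have q5 : 0 ≤ X N 0 * X (N+1) 0 := mul_nonneg (h0 N) (h0 (N+1))
      have q6 : 1 / (2 * κ) * (EN X N 0 + EN X (N+1) 0) ≤ 1 / (2 * κ) * (S ^ 2 + S ^ 2) := by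
        have := hS N; have := hS (N+1)
        gcongr
      have q7 : 0 ≤ 1 / (2 * κ) * (EN X N t + EN X (N+1) t) := by
        have := hE0 N t; have := hE0 (N+1) t; positivity
      have q8 : 1 / (2 * κ) * (S ^ 2 + S ^ 2) = 1 / κ * S ^ 2 := by field_simp; ring
      have q9 : κ * (g1 t + g2 t) - κ * (g1 0 + g2 0) = κ * (g1 t - g1 0 + (g2 t - g2 0)) := by ring
      beta_reduce
      linarith

/-- uniqueness for all data of finite energy -/
theorem IsE.unique2 {b : ℝ} (hb : 1 ≤ b) {X Y : ℕ → ℝ → ℝ} (hX : IsE b X)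
    (hY : IsE b Y) (h0 : ∀ n, 0 ≤ X n 0) (h : ∀ n, Y n 0 = X n 0)
    (S : ℝ) (hS0 : 0 ≤ S) (hS : ∀ N, EN X N 0 ≤ S ^ 2) : ∀ n t, 0 ≤ t → Y n t = X n t := by
  have hb0 : 0 < b := by linarith
  have hXn := hX.nonneg hb0.le h0
  have h0Y : ∀ n, 0 ≤ Y n 0 := fun n => by rw [h]; exact h0 n
  have hYn := hY.nonneg hb0.le h0Y
  have hSY : ∀ N, EN Y N 0 ≤ S ^ 2 := by
    intro N
    have h2 : EN Y N 0 = EN X N 0 := by unfold EN; simp only [h]
    rw [h2]; exact hS N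
  intro n t ht
  obtain ⟨D1, hD1⟩ := hX.cube hb h0 S hS0 hS t
  obtain ⟨D2, hD2⟩ := hY.cube hb h0Y S hS0 hSY t
  have key : ∀ N, n ≤ N → (1/2:ℝ) ^ n * (X n t - Y n t) ^ 2 ≤ (1/2) ^ N * (2 * D1 + 2 * D2 + 4 * t) := by
    intro N hN
    -- choose K
    obtain ⟨K, hK⟩ : ∃ K : ℕ, b ^ (3 * (N+1)) * S ^ 3 * (1/2) ^ K ≤ 1 := by
      have h1 : Tendsto (fun K : ℕ => b ^ (3 * (N+1)) * S ^ 3 * (1/2:ℝ) ^ K) atTop
          (𝓝 (b ^ (3 * (N+1)) * S ^ 3 * 0)) :=
        (tendsto_pow_atTop_nhds_zero_of_lt_one (by norm_num) (by norm_num)).const_mul _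
      rw [mul_zero] at h1
      exact (h1.eventually (ge_mem_nhds one_pos)).exists
    have hK' : b ^ (3 * N) * S ^ 3 * (1/2) ^ K ≤ 1 := by
      refine le_trans ?_ hK
      have : b ^ (3 * N) ≤ b ^ (3 * (N+1)) := pow_le_pow_right₀ hb (by omega)
      gcongr
    obtain ⟨g1, g1', d1, i1, o1⟩ := hD1 K N
    obtain ⟨g2, g2', d2, i2, o2⟩ := hD1 K (N+1)
    obtain ⟨g3, g3', d3, i3, o3⟩ := hD2 K N
    obtain ⟨g4, g4', d4, i4, o4⟩ := hD2 K (N+1)
    have hk := le_of_deriv_le (T := t) (c := (1/2) ^ N * 4)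
      (f := fun t => ∑ k ∈ Finset.range (N+1), (1/2:ℝ) ^ k * (X k t - Y k t) ^ 2
        - (1/2) ^ N * (g1 t + g2 t + (g3 t + g4 t)))
      (f' := fun t => ∑ k ∈ Finset.range (N+1), (1/2:ℝ) ^ k * (2 * (X k t - Y k t) *
        (FE b (fun j => X j t) k - FE b (fun j => Y j t) k))
        - (1/2) ^ N * (g1' t + g2' t + (g3' t + g4' t)))
      (fun x hx => by
        have d0 : HasDerivWithinAt (fun t => ∑ k ∈ Finset.range (N+1), (1/2:ℝ) ^ k * (X k t - Y k t) ^ 2)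
            (∑ k ∈ Finset.range (N+1), (1/2:ℝ) ^ k * (2 * (X k x - Y k x) *
              (FE b (fun j => X j x) k - FE b (fun j => Y j x) k))) (Icc 0 t) x := by
          apply HasDerivWithinAt.fun_sum
          intro k _
          have := (((hX.deriv t k x hx).sub (hY.deriv t k x hx)).pow 2).const_mul ((1/2:ℝ) ^ k)
          refine this.congr_deriv ?_
          simp
        exact d0.sub ((((d1 x hx).add (d2 x hx)).add ((d3 x hx).add (d4 x hx))).const_mul _))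
      (fun x hx => by
        rw [diffE_id]
        have x1 := hXn N x hx.1
        have x2 := hXn (N+1) x hx.1
        have y1 := hYn N x hx.1
        have y2 := hYn (N+1) x hx.1
        have s2 : 0 ≤ ∑ k ∈ Finset.range (N+1), (1/2:ℝ) ^ k * (b ^ (3 * k) *
            ((X k x - Y k x) ^ 2 * (X (k+1) x + Y (k+1) x))) :=
          Finset.sum_nonneg (fun k _ => by
            have := hXn (k+1) x hx.1
            have := hYn (k+1) x hx.1
            positivity)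
        have cube : ∀ u v : ℝ, 0 ≤ u → 0 ≤ v → u ^ 2 * v ≤ u ^ 3 + v ^ 3 := by
          intro u v hu hv
          rcases le_total u v with h | h
          · have : u ^ 2 * v ≤ v ^ 2 * v := by gcongr
            have : 0 ≤ u ^ 3 := by positivity
            nlinarith
          · have : u ^ 2 * v ≤ u ^ 2 * u := by gcongr
            have : 0 ≤ v ^ 3 := by positivity
            nlinarith
        have c1 := cube _ _ x1 y2
        have c2 := cube _ _ y1 x2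
        have j1 := i1 x hx
        have j2 := i2 x hx
        have j3 := i3 x hx
        have j4 := i4 x hx
        have hB : (0:ℝ) < b ^ (3 * N) := by positivity
        have hB1 : b ^ (3 * N) ≤ b ^ (3 * (N+1)) := pow_le_pow_right₀ hb (by omega)
        have m1 : b ^ (3 * N) * X (N+1) x ^ 3 ≤ b ^ (3 * (N+1)) * X (N+1) x ^ 3 := by gcongr
        have m2 : b ^ (3 * N) * Y (N+1) x ^ 3 ≤ b ^ (3 * (N+1)) * Y (N+1) x ^ 3 := by gcongr
        have hmain : b ^ (3 * N) * (-((X N x ^ 2 - Y N x ^ 2) * (X (N+1) x - Y (N+1) x)))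
            ≤ g1' x + g2' x + (g3' x + g4' x) + 4 := by
          have w1 : 0 ≤ b ^ (3 * N) * (X N x ^ 2 * X (N+1) x) := by positivity
          have w2 : 0 ≤ b ^ (3 * N) * (Y N x ^ 2 * Y (N+1) x) := by positivity
          have v1 := mul_le_mul_of_nonneg_left c1 hB.le
          have v2 := mul_le_mul_of_nonneg_left c2 hB.le
          nlinarith
        have hfin := mul_le_mul_of_nonneg_left hmain (by positivity : (0:ℝ) ≤ (1/2) ^ N)
        linarith) t ⟨ht, le_rfl⟩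
    have hz : ∑ k ∈ Finset.range (N+1), (1/2:ℝ) ^ k * (X k 0 - Y k 0) ^ 2 = 0 := by
      apply Finset.sum_eq_zero
      intro k _
      rw [h k]; simp
    rw [hz] at hk
    have hs : (1/2:ℝ) ^ n * (X n t - Y n t) ^ 2 ≤ ∑ k ∈ Finset.range (N+1), (1/2:ℝ) ^ k * (X k t - Y k t) ^ 2 :=
      Finset.single_le_sum (f := fun k => (1/2:ℝ) ^ k * (X k t - Y k t) ^ 2)
        (fun k _ => by positivity) (Finset.mem_range.2 (by omega))
    have p1 := o1 t ⟨ht, le_rfl⟩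
    have p2 := o2 t ⟨ht, le_rfl⟩
    have p3 := o3 t ⟨ht, le_rfl⟩
    have p4 := o4 t ⟨ht, le_rfl⟩
    have p5 : (1/2:ℝ) ^ N * (g1 t - g1 0 + (g2 t - g2 0) + (g3 t - g3 0 + (g4 t - g4 0)))
        ≤ (1/2) ^ N * (2 * D1 + 2 * D2) := by
      apply mul_le_mul_of_nonneg_left _ (by positivity)
      linarith
    linarith
  have hlim : Tendsto (fun N : ℕ => (1/2:ℝ) ^ N * (2 * D1 + 2 * D2 + 4 * t)) atTop
      (𝓝 (0 * (2 * D1 + 2 * D2 + 4 * t))) :=
    (tendsto_pow_atTop_nhds_zero_of_lt_one (by norm_num) (by norm_num)).mul_const _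
  rw [zero_mul] at hlim
  have h1 : (1/2:ℝ) ^ n * (X n t - Y n t) ^ 2 ≤ 0 := by
    apply ge_of_tendsto hlim
    filter_upwards [eventually_ge_atTop n] with N hN
    exact key N hN
  have h2 : (0:ℝ) < (1/2) ^ n := by positivity
  have h3 : (X n t - Y n t) ^ 2 ≤ 0 := by
    by_contra hcon
    push Not at hcon
    have := mul_pos h2 hcon
    linarith
  have h4 : X n t - Y n t = 0 := by
    have := sq_nonneg (X n t - Y n t)
    exact pow_eq_zero_iff (n := 2) (by norm_num) |>.1 (le_antisymm h3 this)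
  linarith

end Pool.Agent.H219.Dy
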