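import Pool.Agent.H219.Dy.EulerV

/-! The bounds for every solution. -/

set_option maxHeartbeats 4000000

namespace Pool.Agent.H219.Dy

open Set Filter Topology

theorem all_solutions (b : ℝ) (hb : 0 < b) (h7 : 7 ≤ b ^ 3) : ∃ K : ℝ, 0 < K ∧
    (∀ a : ℕ → ℝ, (∀ n, 0 ≤ a n) → Summable (fun n => a n ^ 2) →
      ∃ X : ℕ → ℝ → ℝ, IsE b X ∧ ∀ n, X n 0 = a n) ∧
    ∀ X : ℕ → ℝ → ℝ, IsE b X → (∀ n, 0 ≤ X n 0) → Summable (fun n => X n 0 ^ 2) →
      (∀ (n : ℕ) t, 0 < t → (b ^ n * X n t) ^ 3 ≤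
        K * ((∑' n, X n 0 ^ 2) * (Real.sqrt (∑' n, X n 0 ^ 2) + 1 / t))) ∧
      (∀ A : ℝ, (∀ n : ℕ, b ^ n * X n 0 ≤ A) → ∀ (n : ℕ) t, 0 ≤ t → b ^ n * X n t ≤ K * A) := by
  have hb1 : 1 ≤ b := by
    by_contra hcon
    push Not at hcon
    have : b ^ 3 ≤ 1 ^ 3 := by gcongr
    linarith
  obtain ⟨K, hK, hex⟩ := smooth_exists b hb h7
  have hzero : IsE b (fun _ _ => 0) := by
    intro n t _
    simpa using hasDerivWithinAt_const t (Ici (0:ℝ)) (0:ℝ)
  have hsq : ∀ a : ℕ → ℝ, Summable (fun n => a n ^ 2) → ∀ N, ∑ n ∈ Finset.range (N+1), a n ^ 2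
      ≤ Real.sqrt (∑' n, a n ^ 2) ^ 2 := by
    intro a hs N
    rw [Real.sq_sqrt (tsum_nonneg (fun n => by positivity))]
    exact hs.sum_le_tsum _ (fun n _ => by positivity)
  have hpos : ∀ a : ℕ → ℝ, Summable (fun n => a n ^ 2) → (∃ n, a n ≠ 0) →
      0 < Real.sqrt (∑' n, a n ^ 2) := by
    rintro a hs ⟨m, hm⟩
    exact Real.sqrt_pos.2 (hs.tsum_pos (fun n => by positivity) m (by positivity))
  refine ⟨K, hK, ?_, ?_⟩
  · intro a ha hs
    by_cases h : ∃ n, a n ≠ 0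
    · obtain ⟨X, h1, h2, _⟩ := hex a ha _ (hpos a hs h) (hsq a hs)
      exact ⟨X, h1, h2⟩
    · push Not at h
      exact ⟨fun _ _ => 0, hzero, fun n => (h n).symm⟩
  · intro X hX h0 hs
    set E : ℝ := ∑' n, X n 0 ^ 2 with hEd
    have hE0 : 0 ≤ E := tsum_nonneg (fun n => by positivity)
    have hEN : ∀ N, EN X N 0 ≤ Real.sqrt E ^ 2 := hsq (fun n => X n 0) hs
    by_cases h : ∃ n, X n 0 ≠ 0
    · have hp : 0 < Real.sqrt E := hpos (fun n => X n 0) hs h
      obtain ⟨Z, hZ, hZ0, _, hZ1, hZ2⟩ := hex (fun n => X n 0) h0 (Real.sqrt E) hp hEN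
      have hXZ : ∀ n t, 0 ≤ t → Z n t = X n t :=
        hX.unique2 hb1 hZ h0 hZ0 (Real.sqrt E) (Real.sqrt_nonneg _) hEN
      constructor
      · intro n t ht
        have h1 := hZ1 n t ht
        rw [hXZ n t ht.le, Real.sq_sqrt hE0] at h1
        exact h1
      · intro A hA n t ht
        have h1 := hZ2 A hA n t ht
        rw [hXZ n t ht] at h1
        exact h1
    · push Not at h
      have hXZ : ∀ n t, 0 ≤ t → (fun _ _ => (0:ℝ)) n t = X n t :=
        hX.unique2 hb1 hzero h0 (fun n => (h n).symm) (Real.sqrt E) (Real.sqrt_nonneg _) hEN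
      constructor
      · intro n t ht
        rw [← hXZ n t ht.le]
        have := Real.sqrt_nonneg E
        have h1 : (b ^ n * (0:ℝ)) ^ 3 = 0 := by simp
        simp only at h1 ⊢
        rw [h1]
        positivity
      · intro A hA n t ht
        rw [← hXZ n t ht]
        have hA0 : 0 ≤ A := le_trans (by have := h0 0; positivity) (hA 0)
        simp only [mul_zero]
        positivity

end Pool.Agent.H219.Dy
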