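import Mathlib

/-! The inequalities for the three polygons. -/

set_option maxHeartbeats 1000000

namespace Pool.Agent.H219.Dy


theorem B3A2 (R x y w p e : ℝ) (hR0 : 363/100 ≤ R) (hR1 : R ≤ 4) (hx1 : x ≤ 1) (hy : 0 ≤ y) (he : 0 ≤ e) (hp0 : 0 ≤ p) (hp1 : p ≤ 1)
  (hL : y + e = 1468/1000 * x - 468/1000) (hx' : 5/10 ≤ x) (hc : 1 ≤ x + e * R / 4)
  (h1 : y * (R * w) ≤ y * (R * (724/1000 * y + 276/1000) + 4 * (12/100) * e)) :
  0 ≤ R * x^2 - y * (R * w + 4 * e) - 1468/1000 * (p^2 - x * (y + e)) := by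
  have hp2 : p^2 ≤ 1 := by nlinarith
  have he1 : 1 - x ≤ e := by nlinarith
  -- A = x^2 - y (γ y + 1-γ) ≥ 0
  have hA : 0 ≤ x^2 - y*(724/1000*y+276/1000) := by
    obtain rfl : y = 1468/1000 * x - 468/1000 - e := by linarith
    nlinarith [mul_nonneg he hy, mul_nonneg hy (sub_nonneg.2 hx1), mul_nonneg he (sub_nonneg.2 hx1)]
  rcases le_total (1 - x) (363/400 * e) with hcc | hcc
  · have g0 : 0 ≤ (363/100) * x^2 - y*((363/100)*(724/1000*y+276/1000)+4*(112/100)*e) - 1468/1000*(1 - x*(y+e)) := by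
      obtain rfl : y = 1468/1000 * x - 468/1000 - e := by linarith
      nlinarith [mul_nonneg he hy, mul_nonneg hy (sub_nonneg.2 hx1), mul_nonneg he (sub_nonneg.2 hx1), mul_nonneg (sub_nonneg.2 hcc) hy, mul_nonneg (sub_nonneg.2 hcc) he, mul_nonneg (sub_nonneg.2 hcc) (sub_nonneg.2 hx1), mul_nonneg (sub_nonneg.2 hx1) (sub_nonneg.2 hx1)]
    nlinarith [mul_nonneg (sub_nonneg.2 hR0) hA]
  · -- 4(1-x) ≤ R e
    have hRe : 4 * (1 - x) ≤ R * e := by linarith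
    have hepos : 0 < e ∨ e = 0 := by rcases he.lt_or_eq with h | h; exact Or.inl h; exact Or.inr h.symm
    rcases hepos with hepos | h0
    · have key : 0 ≤ (4*(1-x)) * (x^2 - y*(724/1000*y+276/1000)) - e * (y*(4*(112/100)*e) + 1468/1000*(1 - x*(y+e))) := by
        obtain rfl : y = 1468/1000 * x - 468/1000 - e := by linarith
        nlinarith [mul_nonneg he hy, mul_nonneg hy (sub_nonneg.2 hx1), mul_nonneg he (sub_nonneg.2 hx1), mul_nonneg (mul_nonneg (sub_nonneg.2 hcc) hy) he, mul_nonneg (mul_nonneg (sub_nonneg.2 hcc) hy) (sub_nonneg.2 hx1), mul_nonneg (sub_nonneg.2 hcc) (sub_nonneg.2 he1), mul_nonneg (mul_nonneg (sub_nonneg.2 hcc) (sub_nonneg.2 he1)) hy, mul_nonneg (mul_nonneg (sub_nonneg.2 hcc) (sub_nonneg.2 he1)) he, mul_nonneg (mul_nonneg (sub_nonneg.2 hx1) (sub_nonneg.2 hx1)) hy,  mul_nonneg (mul_nonneg (sub_nonneg.2 hx1) (sub_nonneg.2 hx1)) (sub_nonneg.2 hx1), mul_nonneg (mul_nonneg (sub_nonneg.2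 he1) (sub_nonneg.2 hx1)) hy, mul_nonneg (mul_nonneg (sub_nonneg.2 he1) (sub_nonneg.2 hx1)) he, mul_nonneg (mul_nonneg (sub_nonneg.2 he1) (sub_nonneg.2 he1)) hy]
      have h3 : 0 ≤ e * (R * x^2 - y * (R * w + 4 * e) - 1468/1000 * (p^2 - x * (y + e))) := by
        nlinarith [mul_nonneg (sub_nonneg.2 hRe) hA, mul_le_mul_of_nonneg_left h1 he]
      exact nonneg_of_mul_nonneg_right h3 hepos
    · subst h0
      have : x = 1 := by linarith
      subst this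
      nlinarith


-- Region A: δ = 1, R ∈ [363/100, 4].
-- H lines (735/1000,1606/10000),(1204/1000,3358/10000),(1468/1000,468/1000); G line (724/1000,276/1000); θ=12/100
theorem B1A (R x y w p e : ℝ) (hR0 : 363/100 ≤ R) (hR1 : R ≤ 4) (hy : 0 ≤ y) (he : 0 ≤ e) (hp0 : 0 ≤ p)
  (hL : y + e = 735/1000 * x - 1606/10000) (hL2 : 1204/1000 * x - 3358/10000 ≤ y + e)
  (hp2 : 1204/1000 * p - 3358/10000 ≤ x + e * R / 4)
  (hw : R * w ≤ R * (724/1000 * y + 276/1000) + 4 * (12/100) * e) :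
  0 ≤ R * x^2 - y * (R * w + 4 * e) - 735/1000 * (p^2 - x * (y + e)) := by
  have h1 : y * (R * w) ≤ y * (R * (724/1000 * y + 276/1000) + 4 * (12/100) * e) := mul_le_mul_of_nonneg_left hw hy
  have hQ : 1204/1000 * p ≤ x + e*R/4 + 3358/10000 := by linarith
  have hQ2 : (1204/1000*p)^2 ≤ (x + e*R/4 + 3358/10000)^2 := by gcongr
  have hx : x ≤ 3737/10000 := by linarith
  have g0 : 0 ≤ (1204/1000)^2*((363/100) * x^2 - y*((363/100)*(724/1000*y+276/1000)+4*(112/100)*e) + 735/1000*(x*(y+e))) - 735/1000*(x+e*(363/100)/4+3358/10000)^2 := by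
    obtain rfl : y = 735/1000 * x - 1606/10000 - e := by linarith
    nlinarith [mul_nonneg he hy, mul_nonneg he (sub_nonneg.2 hx), mul_nonneg hy (sub_nonneg.2 hx), mul_nonneg he he, mul_nonneg hy hy]
  have g1 : 0 ≤ (1204/1000)^2*(4 * x^2 - y*(4*(724/1000*y+276/1000)+4*(112/100)*e) + 735/1000*(x*(y+e))) - 735/1000*(x+e*4/4+3358/10000)^2 := by
    obtain rfl : y = 735/1000 * x - 1606/10000 - e := by linarith
    nlinarith [mul_nonneg he hy, mul_nonneg he (sub_nonneg.2 hx), mul_nonneg hy (sub_nonneg.2 hx), mul_nonneg he he, mul_nonneg hy hy]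
  nlinarith [mul_nonneg (mul_nonneg (sub_nonneg.2 hR0) (sub_nonneg.2 hR1)) (sq_nonneg e), mul_nonneg (sub_nonneg.2 hR1) g0, mul_nonneg (sub_nonneg.2 hR0) g1]

theorem B2A (R x y w p e : ℝ) (hR0 : 363/100 ≤ R) (hR1 : R ≤ 4) (hy : 0 ≤ y) (he : 0 ≤ e) (hp0 : 0 ≤ p)
  (hL : y + e = 1204/1000 * x - 3358/10000) (hL1 : 735/1000 * x - 1606/10000 ≤ y + e) (hL3 : 1468/1000 * x - 468/1000 ≤ y + e)
  (hp3 : 1468/1000 * p - 468/1000 ≤ x + e * R / 4)
  (hw : R * w ≤ R * (724/1000 * y + 276/1000) + 4 * (12/100) * e) :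
  0 ≤ R * x^2 - y * (R * w + 4 * e) - 1204/1000 * (p^2 - x * (y + e)) := by
  have h1 : y * (R * w) ≤ y * (R * (724/1000 * y + 276/1000) + 4 * (12/100) * e) := mul_le_mul_of_nonneg_left hw hy
  have hQ : 1468/1000 * p ≤ x + e*R/4 + 468/1000 := by linarith
  have hQ2 : (1468/1000*p)^2 ≤ (x + e*R/4 + 468/1000)^2 := by gcongr
  have hx : x ≤ 501/1000 := by linarith
  have hx' : 3735/10000 ≤ x := by linarith
  have g0 : 0 ≤ (1468/1000)^2*((363/100) * x^2 - y*((363/100)*(724/1000*y+276/1000)+4*(112/100)*e) + 1204/1000*(x*(y+e))) - 1204/1000*(x+e*(363/100)/4+468/1000)^2 := by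
    obtain rfl : y = 1204/1000 * x - 3358/10000 - e := by linarith
    nlinarith [mul_nonneg he hy, mul_nonneg he (sub_nonneg.2 hx), mul_nonneg hy (sub_nonneg.2 hx), mul_nonneg he he, mul_nonneg hy hy, mul_nonneg (sub_nonneg.2 hx') (sub_nonneg.2 hx)]
  have g1 : 0 ≤ (1468/1000)^2*(4 * x^2 - y*(4*(724/1000*y+276/1000)+4*(112/100)*e) + 1204/1000*(x*(y+e))) - 1204/1000*(x+e*4/4+468/1000)^2 := by
    obtain rfl : y = 1204/1000 * x - 3358/10000 - e := by linarith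
    nlinarith [mul_nonneg he hy, mul_nonneg he (sub_nonneg.2 hx), mul_nonneg hy (sub_nonneg.2 hx), mul_nonneg he he, mul_nonneg hy hy, mul_nonneg (sub_nonneg.2 hx') (sub_nonneg.2 hx)]
  nlinarith [mul_nonneg (mul_nonneg (sub_nonneg.2 hR0) (sub_nonneg.2 hR1)) (sq_nonneg e), mul_nonneg (sub_nonneg.2 hR1) g0, mul_nonneg (sub_nonneg.2 hR0) g1]

theorem B3A (R x y w p e : ℝ) (hR0 : 363/100 ≤ R) (hR1 : R ≤ 4) (hx1 : x ≤ 1) (hy : 0 ≤ y) (he : 0 ≤ e) (hp0 : 0 ≤ p) (hp1 : p ≤ 1)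
  (hL : y + e = 1468/1000 * x - 468/1000) (hL2 : 1204/1000 * x - 3358/10000 ≤ y + e)
  (hp3 : 1468/1000 * p - 468/1000 ≤ x + e * R / 4)
  (hw : R * w ≤ R * (724/1000 * y + 276/1000) + 4 * (12/100) * e) :
  0 ≤ R * x^2 - y * (R * w + 4 * e) - 1468/1000 * (p^2 - x * (y + e)) := by
  have h1 : y * (R * w) ≤ y * (R * (724/1000 * y + 276/1000) + 4 * (12/100) * e) := mul_le_mul_of_nonneg_left hw hy
  have hx' : 5/10 ≤ x := by linarith
  rcases le_total (x + e * R / 4) 1 with hc | hc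
  · have hQ : 1468/1000 * p ≤ x + e*R/4 + 468/1000 := by linarith
    have hQ2 : (1468/1000*p)^2 ≤ (x + e*R/4 + 468/1000)^2 := by gcongr
    have hc' : x + e * (363/400) ≤ 1 := by nlinarith
    have g0 : 0 ≤ (1468/1000)^2*((363/100) * x^2 - y*((363/100)*(724/1000*y+276/1000)+4*(112/100)*e) + 1468/1000*(x*(y+e))) - 1468/1000*((x+e*(363/100)/4+468/1000)^2) := by
      obtain rfl : y = 1468/1000 * x - 468/1000 - e := by linarith
      nlinarith [mul_nonneg he hy, mul_nonneg he (sub_nonneg.2 hx1), mul_nonneg hy (sub_nonneg.2 hx1), mul_nonneg he he, mul_nonneg hy hy, mul_nonneg (sub_nonneg.2 hx') (sub_nonneg.2 hx1), mul_nonneg he (sub_nonneg.2 hx'), mul_nonneg (sub_nonneg.2 hc') (sub_nonneg.2 hx'), mul_nonneg (sub_nonneg.2 hc') he]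
    have g1 : 0 ≤ (1468/1000)^2*(4 * x^2 - y*(4*(724/1000*y+276/1000)+4*(112/100)*e) + 1468/1000*(x*(y+e))) - 1468/1000*((x+e*4/4+468/1000)^2) := by
      obtain rfl : y = 1468/1000 * x - 468/1000 - e := by linarith
      nlinarith [mul_nonneg he hy, mul_nonneg he (sub_nonneg.2 hx1), mul_nonneg hy (sub_nonneg.2 hx1), mul_nonneg he he, mul_nonneg hy hy, mul_nonneg (sub_nonneg.2 hx') (sub_nonneg.2 hx1), mul_nonneg he (sub_nonneg.2 hx'), mul_nonneg (sub_nonneg.2 hc') (sub_nonneg.2 hx'), mul_nonneg (sub_nonneg.2 hc') he]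
    nlinarith [mul_nonneg (mul_nonneg (sub_nonneg.2 hR0) (sub_nonneg.2 hR1)) (sq_nonneg e), mul_nonneg (sub_nonneg.2 hR1) g0, mul_nonneg (sub_nonneg.2 hR0) g1]
  · exact B3A2 R x y w p e hR0 hR1 hx1 hy he hp0 hp1 hL hx' hc h1


-- Region A, upper line
theorem CA (R x y w p e : ℝ) (hR0 : 363/100 ≤ R) (hR1 : R ≤ 4) (hx0 : 0 ≤ x) (hx1 : x ≤ 1) (hy1 : y ≤ 1) (he : 0 ≤ e) (hp0 : 0 ≤ p)
  (hL : y = 724/1000 * x + 276/1000 + 12/100 * e)
  (hp : x ≤ 724/1000 * p + 276/1000 + 12/100 * e)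
  (hw1 : R * (735/1000 * y - 1606/10000) ≤ R * w + 4 * e)
  (hw2 : R * (1204/1000 * y - 3358/10000) ≤ R * w + 4 * e)
  (hw3 : R * (1468/1000 * y - 468/1000) ≤ R * w + 4 * e) :
  R * x^2 - y * (R * w + 4 * e) ≤ 724/1000 * (p^2 - x * (y + e)) := by
  have hy : 0 ≤ y := by linarith
  have hpp : (x - 276/1000 - 12/100*e)^2 ≤ (724/1000)^2 * p^2 ∨ x - 276/1000 - 12/100*e < 0 := by
    by_cases h : x - 276/1000 - 12/100*e < 0
    · right; exact h
    · left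
      have h' : x - 276/1000 - 12/100*e ≤ 724/1000 * p := by linarith
      nlinarith
  rcases le_total x (14/100) with h14 | h14
  · have h1 := mul_le_mul_of_nonneg_left hw1 hy
    have g0 : 0 ≤ -(724/1000 * (x * (y+e))) - (363/100) * x^2 + y * ((363/100) * (735/1000*y-1606/10000)) := by
      subst hL
      nlinarith [mul_nonneg he hx0, mul_nonneg he (sub_nonneg.2 h14), mul_nonneg hx0 (sub_nonneg.2 h14), mul_nonneg he he]
    have g1 : 0 ≤ -(724/1000 * (x * (y+e))) - 4 * x^2 + y * (4 * (735/1000*y-1606/10000)) := by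
      subst hL
      nlinarith [mul_nonneg he hx0, mul_nonneg he (sub_nonneg.2 h14), mul_nonneg hx0 (sub_nonneg.2 h14), mul_nonneg he he]
    nlinarith [mul_nonneg (sub_nonneg.2 hR1) g0, mul_nonneg (sub_nonneg.2 hR0) g1, sq_nonneg p]
  rcases le_total x (33/100) with h33 | h33
  · have h1 := mul_le_mul_of_nonneg_left hw2 hy
    have g0 : 0 ≤ 724/1000*p^2 -(724/1000 * (x * (y+e))) - (363/100) * x^2 + y * ((363/100) * (1204/1000*y-3358/10000)) := by
      subst hL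
      nlinarith [mul_nonneg he (sub_nonneg.2 h14), mul_nonneg he (sub_nonneg.2 h33), mul_nonneg (sub_nonneg.2 h14) (sub_nonneg.2 h33), mul_nonneg he he, sq_nonneg (p - 4/100), mul_nonneg he hp0]
    have g1 : 0 ≤ 724/1000*p^2 -(724/1000 * (x * (y+e))) - 4 * x^2 + y * (4 * (1204/1000*y-3358/10000)) := by
      subst hL
      nlinarith [mul_nonneg he (sub_nonneg.2 h14), mul_nonneg he (sub_nonneg.2 h33), mul_nonneg (sub_nonneg.2 h14) (sub_nonneg.2 h33), mul_nonneg he he, sq_nonneg (p - 4/100), mul_nonneg he hp0]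
    nlinarith [mul_nonneg (sub_nonneg.2 hR1) g0, mul_nonneg (sub_nonneg.2 hR0) g1]
  · have h1 := mul_le_mul_of_nonneg_left hw3 hy
    rcases hpp with hpp | hneg
    · have g0 : 0 ≤ (x - 276/1000 - 12/100*e)^2 + (724/1000) * (-(724/1000 * (x * (y+e))) - (363/100) * x^2 + y * ((363/100) * (1468/1000*y-468/1000))) := by
        subst hL
        nlinarith [mul_nonneg he (sub_nonneg.2 h33), mul_nonneg he (sub_nonneg.2 hx1), mul_nonneg (sub_nonneg.2 h33) (sub_nonneg.2 hx1), mul_nonneg he he, mul_nonneg he (sub_nonneg.2 hy1), mul_nonneg (sub_nonneg.2 h33) (sub_nonneg.2 hy1)]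
      have g1 : 0 ≤ (x - 276/1000 - 12/100*e)^2 + (724/1000) * (-(724/1000 * (x * (y+e))) - 4 * x^2 + y * (4 * (1468/1000*y-468/1000))) := by
        subst hL
        nlinarith [mul_nonneg he (sub_nonneg.2 h33), mul_nonneg he (sub_nonneg.2 hx1), mul_nonneg (sub_nonneg.2 h33) (sub_nonneg.2 hx1), mul_nonneg he he, mul_nonneg he (sub_nonneg.2 hy1), mul_nonneg (sub_nonneg.2 h33) (sub_nonneg.2 hy1)]
      nlinarith [mul_nonneg (sub_nonneg.2 hR1) g0, mul_nonneg (sub_nonneg.2 hR0) g1]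
    · have g0 : 0 ≤ (-(724/1000 * (x * (y+e))) - (363/100) * x^2 + y * ((363/100) * (1468/1000*y-468/1000))) := by
        subst hL
        nlinarith [mul_nonneg he (sub_nonneg.2 h33), mul_nonneg he (sub_nonneg.2 hx1), mul_nonneg (sub_nonneg.2 h33) (sub_nonneg.2 hx1), mul_nonneg he he, mul_nonneg he (sub_nonneg.2 hy1), mul_nonneg (sub_nonneg.2 h33) (sub_nonneg.2 hy1), mul_nonneg (sub_nonneg.2 hneg.le) (sub_nonneg.2 h33), mul_nonneg (sub_nonneg.2 hneg.le) (sub_nonneg.2 hx1), mul_nonneg (sub_nonneg.2 hneg.le) he]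
      have g1 : 0 ≤ (-(724/1000 * (x * (y+e))) - 4 * x^2 + y * (4 * (1468/1000*y-468/1000))) := by
        subst hL
        nlinarith [mul_nonneg he (sub_nonneg.2 h33), mul_nonneg he (sub_nonneg.2 hx1), mul_nonneg (sub_nonneg.2 h33) (sub_nonneg.2 hx1), mul_nonneg he he, mul_nonneg he (sub_nonneg.2 hy1), mul_nonneg (sub_nonneg.2 h33) (sub_nonneg.2 hy1), mul_nonneg (sub_nonneg.2 hneg.le) (sub_nonneg.2 h33), mul_nonneg (sub_nonneg.2 hneg.le) (sub_nonneg.2 hx1), mul_nonneg (sub_nonneg.2 hneg.le) he]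
      nlinarith [mul_nonneg (sub_nonneg.2 hR1) g0, mul_nonneg (sub_nonneg.2 hR0) g1, sq_nonneg p]


-- Region B: δ = 3/4, R ∈ [349/100, 4].
-- H lines (752/1000,2825/10000),(1307/1000,6531/10000),(1992/1000,1242/1000); G line (6823/10000,4319/10000); θ=25/100
theorem B1B (R x y w p e : ℝ) (hR0 : 349/100 ≤ R) (hR1 : R ≤ 4) (hy : 0 ≤ y) (he : 0 ≤ e) (hp0 : 0 ≤ p)
  (hL : y + e = 752/1000 * x - 2825/10000) (hL2 : 1307/1000 * x - 6531/10000 ≤ y + e)
  (hp2 : 1307/1000 * p - 6531/10000 ≤ x + e * R / 4)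
  (hw : R * w ≤ R * (6823/10000 * y + 4319/10000) + 4 * (25/100) * e) :
  0 ≤ R * (3/4 * x^2) - y * (R * w + 4 * e) - 752/1000 * (3/4 * p^2 - x * (y + e)) := by
  have h1 : y * (R * w) ≤ y * (R * (6823/10000 * y + 4319/10000) + 4 * (25/100) * e) := mul_le_mul_of_nonneg_left hw hy
  have hQ : 1307/1000 * p ≤ x + e*R/4 + 6531/10000 := by linarith
  have hQ2 : (1307/1000*p)^2 ≤ (x + e*R/4 + 6531/10000)^2 := by gcongr
  have hx : x ≤ 668/1000 := by linarith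
  have hx0 : 375/1000 ≤ x := by linarith
  have g0 : 0 ≤ (1307/1000)^2*((349/100) * (3/4*x^2) - y*((349/100)*(6823/10000*y+4319/10000)+4*(125/100)*e) + 752/1000*(x*(y+e))) - 752/1000*(3/4)*(x+e*(349/100)/4+6531/10000)^2 := by
    obtain rfl : y = 752/1000 * x - 2825/10000 - e := by linarith
    nlinarith [mul_nonneg he hy, mul_nonneg he (sub_nonneg.2 hx), mul_nonneg hy (sub_nonneg.2 hx), mul_nonneg he he, mul_nonneg hy hy, mul_nonneg (sub_nonneg.2 hx0) (sub_nonneg.2 hx)]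
  have g1 : 0 ≤ (1307/1000)^2*(4 * (3/4*x^2) - y*(4*(6823/10000*y+4319/10000)+4*(125/100)*e) + 752/1000*(x*(y+e))) - 752/1000*(3/4)*(x+e*4/4+6531/10000)^2 := by
    obtain rfl : y = 752/1000 * x - 2825/10000 - e := by linarith
    nlinarith [mul_nonneg he hy, mul_nonneg he (sub_nonneg.2 hx), mul_nonneg hy (sub_nonneg.2 hx), mul_nonneg he he, mul_nonneg hy hy, mul_nonneg (sub_nonneg.2 hx0) (sub_nonneg.2 hx)]
  nlinarith [mul_nonneg (mul_nonneg (sub_nonneg.2 hR0) (sub_nonneg.2 hR1)) (sq_nonneg e), mul_nonneg (sub_nonneg.2 hR1) g0, mul_nonneg (sub_nonneg.2 hR0) g1]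

theorem B2B (R x y w p e : ℝ) (hR0 : 349/100 ≤ R) (hR1 : R ≤ 4) (hy : 0 ≤ y) (he : 0 ≤ e) (hp0 : 0 ≤ p)
  (hL : y + e = 1307/1000 * x - 6531/10000) (hL1 : 752/1000 * x - 2825/10000 ≤ y + e) (hL3 : 1992/1000 * x - 1242/1000 ≤ y + e)
  (hp3 : 1992/1000 * p - 1242/1000 ≤ x + e * R / 4)
  (hw : R * w ≤ R * (6823/10000 * y + 4319/10000) + 4 * (25/100) * e) :
  0 ≤ R * (3/4 * x^2) - y * (R * w + 4 * e) - 1307/1000 * (3/4 * p^2 - x * (y + e)) := by
  have h1 : y * (R * w) ≤ y * (R * (6823/10000 * y + 4319/10000) + 4 * (25/100) * e) := mul_le_mul_of_nonneg_left hw hy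
  have hQ : 1992/1000 * p ≤ x + e*R/4 + 1242/1000 := by linarith
  have hQ2 : (1992/1000*p)^2 ≤ (x + e*R/4 + 1242/1000)^2 := by gcongr
  have hx : x ≤ 860/1000 := by linarith
  have hx' : 6677/10000 ≤ x := by linarith
  have g0 : 0 ≤ (1992/1000)^2*((349/100) * (3/4*x^2) - y*((349/100)*(6823/10000*y+4319/10000)+4*(125/100)*e) + 1307/1000*(x*(y+e))) - 1307/1000*(3/4)*(x+e*(349/100)/4+1242/1000)^2 := by
    obtain rfl : y = 1307/1000 * x - 6531/10000 - e := by linarith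
    nlinarith [mul_nonneg he hy, mul_nonneg he (sub_nonneg.2 hx), mul_nonneg hy (sub_nonneg.2 hx), mul_nonneg he he, mul_nonneg hy hy, mul_nonneg (sub_nonneg.2 hx') (sub_nonneg.2 hx)]
  have g1 : 0 ≤ (1992/1000)^2*(4 * (3/4*x^2) - y*(4*(6823/10000*y+4319/10000)+4*(125/100)*e) + 1307/1000*(x*(y+e))) - 1307/1000*(3/4)*(x+e*4/4+1242/1000)^2 := by
    obtain rfl : y = 1307/1000 * x - 6531/10000 - e := by linarith
    nlinarith [mul_nonneg he hy, mul_nonneg he (sub_nonneg.2 hx), mul_nonneg hy (sub_nonneg.2 hx), mul_nonneg he he, mul_nonneg hy hy, mul_nonneg (sub_nonneg.2 hx') (sub_nonneg.2 hx)]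
  nlinarith [mul_nonneg (mul_nonneg (sub_nonneg.2 hR0) (sub_nonneg.2 hR1)) (sq_nonneg e), mul_nonneg (sub_nonneg.2 hR1) g0, mul_nonneg (sub_nonneg.2 hR0) g1]

theorem B3B (R x y w p e : ℝ) (hR0 : 349/100 ≤ R) (hR1 : R ≤ 4) (hx1 : x ≤ 1) (hy : 0 ≤ y) (he : 0 ≤ e) (hp0 : 0 ≤ p) (hp1 : p ≤ 1)
  (hL : y + e = 1992/1000 * x - 1242/1000) (hL2 : 1307/1000 * x - 6531/10000 ≤ y + e)
  (hw : R * w ≤ R * (6823/10000 * y + 4319/10000) + 4 * (25/100) * e) :
  0 ≤ R * (3/4 * x^2) - y * (R * w + 4 * e) - 1992/1000 * (3/4 * p^2 - x * (y + e)) := by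
  have h1 : y * (R * w) ≤ y * (R * (6823/10000 * y + 4319/10000) + 4 * (25/100) * e) := mul_le_mul_of_nonneg_left hw hy
  have hp2 : p^2 ≤ 1 := by nlinarith
  have hx' : 8597/10000 ≤ x := by linarith
  have g0 : 0 ≤ ((349/100) * (3/4*x^2) - y*((349/100)*(6823/10000*y+4319/10000)+4*(125/100)*e) + 1992/1000*(x*(y+e))) - 1992/1000*(3/4) := by
    obtain rfl : y = 1992/1000 * x - 1242/1000 - e := by linarith
    nlinarith [mul_nonneg he hy, mul_nonneg he (sub_nonneg.2 hx1), mul_nonneg hy (sub_nonneg.2 hx1), mul_nonneg he he, mul_nonneg hy hy, mul_nonneg (sub_nonneg.2 hx') (sub_nonneg.2 hx1)]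
  have g1 : 0 ≤ (4 * (3/4*x^2) - y*(4*(6823/10000*y+4319/10000)+4*(125/100)*e) + 1992/1000*(x*(y+e))) - 1992/1000*(3/4) := by
    obtain rfl : y = 1992/1000 * x - 1242/1000 - e := by linarith
    nlinarith [mul_nonneg he hy, mul_nonneg he (sub_nonneg.2 hx1), mul_nonneg hy (sub_nonneg.2 hx1), mul_nonneg he he, mul_nonneg hy hy, mul_nonneg (sub_nonneg.2 hx') (sub_nonneg.2 hx1)]
  nlinarith [mul_nonneg (sub_nonneg.2 hR1) g0, mul_nonneg (sub_nonneg.2 hR0) g1]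

theorem CB (R x y w p e : ℝ) (hR0 : 349/100 ≤ R) (hR1 : R ≤ 4) (hx0 : 0 ≤ x) (hx1 : x ≤ 1) (hy1 : y ≤ 1) (he : 0 ≤ e) (hp0 : 0 ≤ p)
  (hL : y = 6823/10000 * x + 4319/10000 + 25/100 * e)
  (hw1 : R * (752/1000 * y - 2825/10000) ≤ R * w + 4 * e)
  (hw2 : R * (1307/1000 * y - 6531/10000) ≤ R * w + 4 * e)
  (hw3 : R * (1992/1000 * y - 1242/1000) ≤ R * w + 4 * e) :
  R * (3/4 * x^2) - y * (R * w + 4 * e) ≤ 6823/10000 * (3/4 * p^2 - x * (y + e)) := by
  have hy : 0 ≤ y := by linarith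
  rcases le_total x (30/100) with h14 | h14
  · have h1 := mul_le_mul_of_nonneg_left hw1 hy
    have g0 : 0 ≤ -(6823/10000 * (x * (y+e))) - (349/100) * (3/4*x^2) + y * ((349/100) * (752/1000*y-2825/10000)) := by
      subst hL
      nlinarith [mul_nonneg he hx0, mul_nonneg he (sub_nonneg.2 h14), mul_nonneg hx0 (sub_nonneg.2 h14), mul_nonneg he he]
    have g1 : 0 ≤ -(6823/10000 * (x * (y+e))) - 4 * (3/4*x^2) + y * (4 * (752/1000*y-2825/10000)) := by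
      subst hL
      nlinarith [mul_nonneg he hx0, mul_nonneg he (sub_nonneg.2 h14), mul_nonneg hx0 (sub_nonneg.2 h14), mul_nonneg he he]
    nlinarith [mul_nonneg (sub_nonneg.2 hR1) g0, mul_nonneg (sub_nonneg.2 hR0) g1, sq_nonneg p]
  rcases le_total x (64/100) with h33 | h33
  · have h1 := mul_le_mul_of_nonneg_left hw2 hy
    have g0 : 0 ≤ -(6823/10000 * (x * (y+e))) - (349/100) * (3/4*x^2) + y * ((349/100) * (1307/1000*y-6531/10000)) := by
      subst hL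
      nlinarith [mul_nonneg he (sub_nonneg.2 h14), mul_nonneg he (sub_nonneg.2 h33), mul_nonneg (sub_nonneg.2 h14) (sub_nonneg.2 h33), mul_nonneg he he]
    have g1 : 0 ≤ -(6823/10000 * (x * (y+e))) - 4 * (3/4*x^2) + y * (4 * (1307/1000*y-6531/10000)) := by
      subst hL
      nlinarith [mul_nonneg he (sub_nonneg.2 h14), mul_nonneg he (sub_nonneg.2 h33), mul_nonneg (sub_nonneg.2 h14) (sub_nonneg.2 h33), mul_nonneg he he]
    nlinarith [mul_nonneg (sub_nonneg.2 hR1) g0, mul_nonneg (sub_nonneg.2 hR0) g1, sq_nonneg p]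
  · have h1 := mul_le_mul_of_nonneg_left hw3 hy
    have g0 : 0 ≤ -(6823/10000 * (x * (y+e))) - (349/100) * (3/4*x^2) + y * ((349/100) * (1992/1000*y-1242/1000)) := by
      subst hL
      nlinarith [mul_nonneg he (sub_nonneg.2 h33), mul_nonneg he (sub_nonneg.2 hx1), mul_nonneg (sub_nonneg.2 h33) (sub_nonneg.2 hx1), mul_nonneg he he, mul_nonneg he (sub_nonneg.2 hy1), mul_nonneg (sub_nonneg.2 h33) (sub_nonneg.2 hy1)]
    have g1 : 0 ≤ -(6823/10000 * (x * (y+e))) - 4 * (3/4*x^2) + y * (4 * (1992/1000*y-1242/1000)) := by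
      subst hL
      nlinarith [mul_nonneg he (sub_nonneg.2 h33), mul_nonneg he (sub_nonneg.2 hx1), mul_nonneg (sub_nonneg.2 h33) (sub_nonneg.2 hx1), mul_nonneg he he, mul_nonneg he (sub_nonneg.2 hy1), mul_nonneg (sub_nonneg.2 h33) (sub_nonneg.2 hy1)]
    nlinarith [mul_nonneg (sub_nonneg.2 hR1) g0, mul_nonneg (sub_nonneg.2 hR0) g1, sq_nonneg p]

-- Region C: δ = 1/2, R ∈ [317/100, 4].
-- H lines (494/1000,2276/10000),(1909/1000,1409/1000); G line (7114/10000,5963/10000); θ=25/100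
theorem B1C (R x y w p e : ℝ) (hR0 : 317/100 ≤ R) (hR1 : R ≤ 4) (hy : 0 ≤ y) (he : 0 ≤ e) (hp0 : 0 ≤ p) (hp1 : p ≤ 1)
  (hL : y + e = 494/1000 * x - 2276/10000) (hL2 : 1909/1000 * x - 1409/1000 ≤ y + e)
  (hw : R * w ≤ R * (7114/10000 * y + 5963/10000) + 4 * (25/100) * e) :
  0 ≤ R * (1/2 * x^2) - y * (R * w + 4 * e) - 494/1000 * (1/2 * p^2 - x * (y + e)) := by
  have h1 : y * (R * w) ≤ y * (R * (7114/10000 * y + 5963/10000) + 4 * (25/100) * e) := mul_le_mul_of_nonneg_left hw hy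
  have hp2 : p^2 ≤ 1 := by nlinarith
  have hx : x ≤ 835/1000 := by linarith
  have hx0 : 460/1000 ≤ x := by linarith
  have g0 : 0 ≤ ((317/100) * (1/2*x^2) - y*((317/100)*(7114/10000*y+5963/10000)+4*(125/100)*e) + 494/1000*(x*(y+e))) - 494/1000*(1/2) := by
    obtain rfl : y = 494/1000 * x - 2276/10000 - e := by linarith
    nlinarith [mul_nonneg he hy, mul_nonneg he (sub_nonneg.2 hx), mul_nonneg hy (sub_nonneg.2 hx), mul_nonneg he he, mul_nonneg hy hy, mul_nonneg (sub_nonneg.2 hx0) (sub_nonneg.2 hx)]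
  have g1 : 0 ≤ (4 * (1/2*x^2) - y*(4*(7114/10000*y+5963/10000)+4*(125/100)*e) + 494/1000*(x*(y+e))) - 494/1000*(1/2) := by
    obtain rfl : y = 494/1000 * x - 2276/10000 - e := by linarith
    nlinarith [mul_nonneg he hy, mul_nonneg he (sub_nonneg.2 hx), mul_nonneg hy (sub_nonneg.2 hx), mul_nonneg he he, mul_nonneg hy hy, mul_nonneg (sub_nonneg.2 hx0) (sub_nonneg.2 hx)]
  nlinarith [mul_nonneg (sub_nonneg.2 hR1) g0, mul_nonneg (sub_nonneg.2 hR0) g1]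

theorem B2C (R x y w p e : ℝ) (hR0 : 317/100 ≤ R) (hR1 : R ≤ 4) (hx1 : x ≤ 1) (hy : 0 ≤ y) (he : 0 ≤ e) (hp0 : 0 ≤ p) (hp1 : p ≤ 1)
  (hL : y + e = 1909/1000 * x - 1409/1000) (hL2 : 494/1000 * x - 2276/10000 ≤ y + e)
  (hw : R * w ≤ R * (7114/10000 * y + 5963/10000) + 4 * (25/100) * e) :
  0 ≤ R * (1/2 * x^2) - y * (R * w + 4 * e) - 1909/1000 * (1/2 * p^2 - x * (y + e)) := by
  have h1 : y * (R * w) ≤ y * (R * (7114/10000 * y + 5963/10000) + 4 * (25/100) * e) := mul_le_mul_of_nonneg_left hw hy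
  have hp2 : p^2 ≤ 1 := by nlinarith
  have hx' : 8348/10000 ≤ x := by linarith
  have g0 : 0 ≤ ((317/100) * (1/2*x^2) - y*((317/100)*(7114/10000*y+5963/10000)+4*(125/100)*e) + 1909/1000*(x*(y+e))) - 1909/1000*(1/2) := by
    obtain rfl : y = 1909/1000 * x - 1409/1000 - e := by linarith
    nlinarith [mul_nonneg he hy, mul_nonneg he (sub_nonneg.2 hx1), mul_nonneg hy (sub_nonneg.2 hx1), mul_nonneg he he, mul_nonneg hy hy, mul_nonneg (sub_nonneg.2 hx') (sub_nonneg.2 hx1)]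
  have g1 : 0 ≤ (4 * (1/2*x^2) - y*(4*(7114/10000*y+5963/10000)+4*(125/100)*e) + 1909/1000*(x*(y+e))) - 1909/1000*(1/2) := by
    obtain rfl : y = 1909/1000 * x - 1409/1000 - e := by linarith
    nlinarith [mul_nonneg he hy, mul_nonneg he (sub_nonneg.2 hx1), mul_nonneg hy (sub_nonneg.2 hx1), mul_nonneg he he, mul_nonneg hy hy, mul_nonneg (sub_nonneg.2 hx') (sub_nonneg.2 hx1)]
  nlinarith [mul_nonneg (sub_nonneg.2 hR1) g0, mul_nonneg (sub_nonneg.2 hR0) g1]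

theorem CC (R x y w p e : ℝ) (hR0 : 317/100 ≤ R) (hR1 : R ≤ 4) (hx0 : 0 ≤ x) (hy1 : y ≤ 1) (he : 0 ≤ e)
  (hL : y = 7114/10000 * x + 5963/10000 + 25/100 * e)
  (hw1 : R * (494/1000 * y - 2276/10000) ≤ R * w + 4 * e)
  (hw2 : R * (1909/1000 * y - 1409/1000) ≤ R * w + 4 * e) :
  R * (1/2 * x^2) - y * (R * w + 4 * e) ≤ 7114/10000 * (1/2 * p^2 - x * (y + e)) := by
  have hy : 0 ≤ y := by linarith
  have hx1 : x ≤ 568/1000 := by linarith
  rcases le_total x (40/100) with h14 | h14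
  · have h1 := mul_le_mul_of_nonneg_left hw1 hy
    have g0 : 0 ≤ -(7114/10000 * (x * (y+e))) - (317/100) * (1/2*x^2) + y * ((317/100) * (494/1000*y-2276/10000)) := by
      subst hL
      nlinarith [mul_nonneg he hx0, mul_nonneg he (sub_nonneg.2 h14), mul_nonneg hx0 (sub_nonneg.2 h14), mul_nonneg he he, mul_nonneg he (sub_nonneg.2 hy1), mul_nonneg hx0 (sub_nonneg.2 hy1)]
    have g1 : 0 ≤ -(7114/10000 * (x * (y+e))) - 4 * (1/2*x^2) + y * (4 * (494/1000*y-2276/10000)) := by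
      subst hL
      nlinarith [mul_nonneg he hx0, mul_nonneg he (sub_nonneg.2 h14), mul_nonneg hx0 (sub_nonneg.2 h14), mul_nonneg he he, mul_nonneg he (sub_nonneg.2 hy1), mul_nonneg hx0 (sub_nonneg.2 hy1)]
    nlinarith [mul_nonneg (sub_nonneg.2 hR1) g0, mul_nonneg (sub_nonneg.2 hR0) g1, sq_nonneg p]
  · have h1 := mul_le_mul_of_nonneg_left hw2 hy
    have g0 : 0 ≤ -(7114/10000 * (x * (y+e))) - (317/100) * (1/2*x^2) + y * ((317/100) * (1909/1000*y-1409/1000)) := by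
      subst hL
      nlinarith [mul_nonneg he (sub_nonneg.2 h14), mul_nonneg he (sub_nonneg.2 hx1), mul_nonneg (sub_nonneg.2 h14) (sub_nonneg.2 hx1), mul_nonneg he he]
    have g1 : 0 ≤ -(7114/10000 * (x * (y+e))) - 4 * (1/2*x^2) + y * (4 * (1909/1000*y-1409/1000)) := by
      subst hL
      nlinarith [mul_nonneg he (sub_nonneg.2 h14), mul_nonneg he (sub_nonneg.2 hx1), mul_nonneg (sub_nonneg.2 h14) (sub_nonneg.2 hx1), mul_nonneg he he]
    nlinarith [mul_nonneg (sub_nonneg.2 hR1) g0, mul_nonneg (sub_nonneg.2 hR0) g1, sq_nonneg p]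

end Pool.Agent.H219.Dy
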