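import Mathlib

/-! Existence for truncated and clamped shell systems. -/

namespace Pool.Agent.H219.Dy

open Set Filter Topology NNReal Metric

theorem global_bdd {E : Type*} [NormedAddCommGroup E] [NormedSpace ℝ E] [CompleteSpace E]
    (f : E → E) (K L : ℝ≥0) (hK : LipschitzWith K f) (hL : ∀ x, ‖f x‖ ≤ L) (T : ℝ) (hT : 0 ≤ T)
    (x0 : E) : ∃ α : ℝ → E, α 0 = x0 ∧
      ∀ t ∈ Icc (0:ℝ) T, HasDerivWithinAt α (f (α t)) (Icc 0 T) t := by
  have h0 : (0:ℝ) ∈ Icc (0:ℝ) T := ⟨le_refl _, hT⟩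
  have hP : IsPicardLindelof (fun _ : ℝ => f) (tmin := 0) (tmax := T) ⟨0, h0⟩ x0
      (L * T.toNNReal) 0 L K := by
    apply IsPicardLindelof.of_time_independent
    · intro x _; exact hL x
    · exact hK.lipschitzOnWith
    · have : max (T - 0) (0 - 0 : ℝ) = T := by simp [hT]
      simp only [this]
      rw [NNReal.coe_mul, Real.coe_toNNReal T hT, NNReal.coe_zero, sub_zero]
  obtain ⟨α, h1, h2⟩ := hP.exists_eq_forall_mem_Icc_hasDerivWithinAt₀
  exact ⟨α, h1, h2⟩

/-- clamp to `[0, B]` -/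
noncomputable def cl (B x : ℝ) : ℝ := max 0 (min x B)

theorem cl_nonneg (B x : ℝ) : 0 ≤ cl B x := le_max_left _ _

theorem cl_le {B : ℝ} (hB : 0 ≤ B) (x : ℝ) : cl B x ≤ B := max_le hB (min_le_right _ _)

theorem cl_eq {B x : ℝ} (h0 : 0 ≤ x) (h1 : x ≤ B) : cl B x = x := by
  unfold cl; rw [min_eq_left h1, max_eq_right h0]

theorem cl_eq_zero {B x : ℝ} (h0 : x ≤ 0) : cl B x = 0 := by
  unfold cl; exact max_eq_left ((min_le_left _ _).trans h0)

theorem cl_lip (B x y : ℝ) : |cl B x - cl B y| ≤ |x - y| := by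
  unfold cl
  have h1 : |max 0 (min x B) - max 0 (min y B)| ≤ |min x B - min y B| := by
    have := abs_max_sub_max_le_abs (min x B) (min y B) 0
    rwa [max_comm 0, max_comm 0]
  have h2 : |min x B - min y B| ≤ |x - y| := by
    have := abs_min_sub_min_le_max x B y B
    simpa using this
  exact h1.trans h2

/-- extension of a finite family, constant after `N` -/
def ext (N : ℕ) (x : Fin (N+1) → ℝ) (n : ℕ) : ℝ := x ⟨min n N, by omega⟩

noncomputable def field (N : ℕ) (κ e : ℕ → ℝ) (δ B : ℝ) (x : Fin (N+1) → ℝ) : Fin (N+1) → ℝ :=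
  fun i => κ i * (δ * (if (i:ℕ) = 0 then 0 else cl B (ext N x (i-1)))^2
    - cl B (x i) * (cl B (ext N x (i+1)) + e i))

theorem ext_lip (N : ℕ) (x y : Fin (N+1) → ℝ) (n : ℕ) : |ext N x n - ext N y n| ≤ ‖x - y‖ := by
  have := norm_le_pi_norm (x - y) (⟨min n N, by omega⟩ : Fin (N+1))
  simpa [ext] using this

theorem field_exists (N : ℕ) (κ e : ℕ → ℝ) (hκ : ∀ n, 0 ≤ κ n) (he : ∀ n, 0 ≤ e n) (δ B : ℝ)
    (hδ : 0 ≤ δ) (hB : 0 ≤ B) (T : ℝ) (hT : 0 ≤ T) (x0 : Fin (N+1) → ℝ) :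
    ∃ α : ℝ → Fin (N+1) → ℝ, α 0 = x0 ∧
      ∀ t ∈ Icc (0:ℝ) T, HasDerivWithinAt α (field N κ e δ B (α t)) (Icc 0 T) t := by
  let L : ℝ := ∑ i : Fin (N+1), κ i * (δ * B^2 + B * (B + e i))
  let K : ℝ := ∑ i : Fin (N+1), κ i * (δ * (2*B) + (2*B + e i))
  have hterm : ∀ i : Fin (N+1), 0 ≤ κ i * (δ * B^2 + B * (B + e i)) := fun i => by
    have := hκ i; have := he i; positivity
  have hterm2 : ∀ i : Fin (N+1), 0 ≤ κ i * (δ * (2*B) + (2*B + e i)) := fun i => by
    have := hκ i; have := he i; positivity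
  have hL0 : 0 ≤ L := Finset.sum_nonneg fun i _ => hterm i
  have hK0 : 0 ≤ K := Finset.sum_nonneg fun i _ => hterm2 i
  apply global_bdd _ ⟨K, hK0⟩ ⟨L, hL0⟩ _ _ T hT
  · apply LipschitzWith.of_dist_le_mul
    intro x y
    rw [dist_eq_norm, dist_eq_norm]
    apply (pi_norm_le_iff_of_nonneg (by positivity)).2
    intro i
    have hle : κ i * (δ * (2*B) + (2*B + e i)) ≤ K :=
      Finset.single_le_sum (f := fun i : Fin (N+1) => κ i * (δ * (2*B) + (2*B + e i)))
        (fun j _ => hterm2 j) (Finset.mem_univ i)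
    refine le_trans ?_ (mul_le_mul_of_nonneg_right hle (norm_nonneg _))
    set D := ‖x - y‖ with hD
    have hD0 : 0 ≤ D := norm_nonneg _
    simp only [Pi.sub_apply, field, Real.norm_eq_abs]
    set p := (if (i:ℕ) = 0 then (0:ℝ) else cl B (ext N x (i-1))) with hp
    set q := (if (i:ℕ) = 0 then (0:ℝ) else cl B (ext N y (i-1))) with hq
    have hp0 : 0 ≤ p := by rw [hp]; split_ifs; exact le_refl _; exact cl_nonneg _ _
    have hq0 : 0 ≤ q := by rw [hq]; split_ifs; exact le_refl _; exact cl_nonneg _ _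
    have hpB : p ≤ B := by rw [hp]; split_ifs; exact hB; exact cl_le hB _
    have hqB : q ≤ B := by rw [hq]; split_ifs; exact hB; exact cl_le hB _
    have hpq : |p - q| ≤ D := by
      rw [hp, hq]; split_ifs
      · simpa using hD0
      · exact (cl_lip _ _ _).trans (ext_lip _ _ _ _)
    have h1 : |cl B (x i) - cl B (y i)| ≤ D :=
      (cl_lip _ _ _).trans (by simpa using norm_le_pi_norm (x - y) i)
    have h2 : |cl B (ext N x (i+1)) - cl B (ext N y (i+1))| ≤ D :=
      (cl_lip _ _ _).trans (ext_lip _ _ _ _)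
    have c1 := cl_nonneg B (x i); have c2 := cl_nonneg B (y i)
    have c3 := cl_nonneg B (ext N x (i+1)); have c4 := cl_nonneg B (ext N y (i+1))
    have d1 := cl_le hB (x i); have d2 := cl_le hB (y i)
    have d3 := cl_le hB (ext N x (i+1)); have d4 := cl_le hB (ext N y (i+1))
    set a := cl B (x i); set b := cl B (y i)
    set c := cl B (ext N x (i+1)); set d := cl B (ext N y (i+1))
    have hei := he i
    have heq : κ i * (δ * p^2 - a * (c + e i)) - κ i * (δ * q^2 - b * (d + e i))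
        = κ i * (δ * ((p + q) * (p - q)) - ((a - b) * (c + e i) + b * (c - d))) := by ring
    rw [heq, abs_mul, abs_of_nonneg (hκ i), mul_assoc]
    apply mul_le_mul_of_nonneg_left _ (hκ i)
    have t1 : |δ * ((p + q) * (p - q))| ≤ δ * (2 * B) * D := by
      rw [abs_mul, abs_mul, abs_of_nonneg hδ, abs_of_nonneg (by positivity : 0 ≤ p + q), mul_assoc]
      apply mul_le_mul_of_nonneg_left _ hδ
      exact mul_le_mul (by linarith) hpq (abs_nonneg _) (by positivity)
    have t2 : |(a - b) * (c + e i)| ≤ (B + e i) * D := by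
      rw [abs_mul, abs_of_nonneg (by positivity : 0 ≤ c + e i), mul_comm]
      exact mul_le_mul (by linarith) h1 (abs_nonneg _) (by positivity)
    have t3 : |b * (c - d)| ≤ B * D := by
      rw [abs_mul, abs_of_nonneg c2]
      exact mul_le_mul d2 h2 (abs_nonneg _) hB
    calc |δ * ((p + q) * (p - q)) - ((a - b) * (c + e i) + b * (c - d))|
        ≤ |δ * ((p + q) * (p - q))| + |(a - b) * (c + e i) + b * (c - d)| := abs_sub _ _
      _ ≤ |δ * ((p + q) * (p - q))| + (|(a - b) * (c + e i)| + |b * (c - d)|) := by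
          gcongr; exact abs_add_le _ _
      _ ≤ δ * (2 * B) * D + ((B + e i) * D + B * D) := by gcongr
      _ = (δ * (2*B) + (2*B + e i)) * D := by ring
  · intro x
    apply (pi_norm_le_iff_of_nonneg hL0).2
    intro i
    have hle : κ i * (δ * B^2 + B * (B + e i)) ≤ L :=
      Finset.single_le_sum (f := fun i : Fin (N+1) => κ i * (δ * B^2 + B * (B + e i)))
        (fun j _ => hterm j) (Finset.mem_univ i)
    refine le_trans ?_ hle
    simp only [field, Real.norm_eq_abs]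
    rw [abs_mul, abs_of_nonneg (hκ i)]
    apply mul_le_mul_of_nonneg_left _ (hκ i)
    set p := (if (i:ℕ) = 0 then (0:ℝ) else cl B (ext N x (i-1))) with hp
    have hp0 : 0 ≤ p := by rw [hp]; split_ifs; exact le_refl _; exact cl_nonneg _ _
    have hpB : p ≤ B := by rw [hp]; split_ifs; exact hB; exact cl_le hB _
    have c1 := cl_nonneg B (x i); have d1 := cl_le hB (x i)
    have c3 := cl_nonneg B (ext N x (i+1)); have d3 := cl_le hB (ext N x (i+1))
    have hei := he i
    have t1 : δ * p^2 ≤ δ * B^2 := by gcongr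
    have t2 : cl B (x i) * (cl B (ext N x (i+1)) + e i) ≤ B * (B + e i) := by gcongr
    rw [abs_le]
    constructor
    · have : 0 ≤ δ * p^2 := by positivity
      have : 0 ≤ δ * B^2 := by positivity
      linarith
    · have : 0 ≤ cl B (x i) * (cl B (ext N x (i+1)) + e i) := by positivity
      have : 0 ≤ B * (B + e i) := by positivity
      linarith

theorem trunc_exists (N : ℕ) (κ e : ℕ → ℝ) (hκ : ∀ n, 0 ≤ κ n) (he : ∀ n, 0 ≤ e n) (δ B : ℝ)
    (hδ : 0 ≤ δ) (hB : 0 ≤ B) (T : ℝ) (hT : 0 ≤ T) (u0 : ℕ → ℝ) :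
    ∃ U : ℕ → ℝ → ℝ, (∀ n, n ≤ N → U n 0 = u0 n) ∧ (∀ n, N ≤ n → U n = U N) ∧
      ∀ n, n ≤ N → ∀ t ∈ Icc (0:ℝ) T, HasDerivWithinAt (U n)
        (κ n * (δ * (if n = 0 then 0 else cl B (U (n-1) t))^2
          - cl B (U n t) * (cl B (U (n+1) t) + e n))) (Icc 0 T) t := by
  obtain ⟨α, h0, hα⟩ := field_exists N κ e hκ he δ B hδ hB T hT (fun i => u0 i)
  refine ⟨fun n t => ext N (α t) n, ?_, ?_, ?_⟩
  · intro n hn
    simp only [ext, h0, min_eq_left hn]
  · intro n hn
    funext t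
    simp only [ext, min_eq_right hn, min_self]
  · intro n hn t ht
    have h1 := hα t ht
    rw [hasDerivWithinAt_pi] at h1
    have h2 := h1 (⟨n, by omega⟩ : Fin (N+1))
    simp only [field] at h2
    simp only [ext, min_eq_left hn] at h2 ⊢
    exact h2

end Pool.Agent.H219.Dy
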