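import Pool.Agent.H219.Dy.Barrier
import Pool.Agent.H219.Dy.Ode

/-! Invariance of the polygons for the truncated systems. -/

set_option maxHeartbeats 4000000

namespace Pool.Agent.H219.Dy

open Set Filter Topology

/-- An admissible polygon. -/
structure Reg (δ R θ : ℝ) where
  a : Fin 3 → ℝ
  b : Fin 3 → ℝ
  c : ℝ
  d : ℝ
  hδ : 0 < δ
  hδ1 : δ ≤ 1
  hR0 : 1 < R
  hR4 : R ≤ 4
  hθ : 0 ≤ θ
  ha : ∀ i, 0 < a i
  hb : ∀ i, 0 < b i
  hc : 0 ≤ c
  hd : 0 < d
  hA : ∃ i, δ ≤ a i - b i
  hT1 : ∀ i, a i - b i ≤ 1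
  hT2 : 1 ≤ c + d
  hB : ∀ (i : Fin 3) (p x y w e : ℝ), 0 ≤ p → p ≤ 1 → 0 ≤ x → x ≤ 1 → 0 ≤ y → 0 ≤ e →
    y + e = a i * x - b i → (∀ k, a k * x - b k ≤ y + e) → (∀ k, a k * p - b k ≤ x + e * R / 4) →
    R * w ≤ R * (c * y + d) + 4 * θ * e →
    0 ≤ R * (δ * x^2) - y * (R * w + 4 * e) - a i * (δ * p^2 - x * (y + e))
  hC : ∀ (p x y w e : ℝ), 0 ≤ p → 0 ≤ x → x ≤ 1 → y ≤ 1 → 0 ≤ e →
    y = c * x + d + θ * e → x ≤ c * p + d + θ * e → (∀ k, R * (a k * y - b k) ≤ R * w + 4 * e) →
    R * (δ * x^2) - y * (R * w + 4 * e) ≤ c * (δ * p^2 - x * (y + e))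

theorem Reg.hB' {δ R θ : ℝ} (G : Reg δ R θ) (M : ℝ) (hM : 0 < M) (i : Fin 3) (p x y w e : ℝ)
    (h1 : 0 ≤ p) (h2 : p ≤ M) (h3 : 0 ≤ x) (h4 : x ≤ M) (h5 : 0 ≤ y) (h6 : 0 ≤ e)
    (h7 : y + e = G.a i * x - G.b i * M) (h8 : ∀ k, G.a k * x - G.b k * M ≤ y + e)
    (h9 : ∀ k, G.a k * p - G.b k * M ≤ x + e * R / 4)
    (h10 : R * w ≤ R * (G.c * y + G.d * M) + 4 * θ * e) :
    0 ≤ R * (δ * x^2) - y * (R * w + 4 * e) - G.a i * (δ * p^2 - x * (y + e)) := by
  obtain ⟨p', rfl⟩ : ∃ p', p = M * p' := ⟨p / M, by field_simp⟩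
  obtain ⟨x', rfl⟩ : ∃ p', x = M * p' := ⟨x / M, by field_simp⟩
  obtain ⟨y', rfl⟩ : ∃ p', y = M * p' := ⟨y / M, by field_simp⟩
  obtain ⟨w', rfl⟩ : ∃ p', w = M * p' := ⟨w / M, by field_simp⟩
  obtain ⟨e', rfl⟩ : ∃ p', e = M * p' := ⟨e / M, by field_simp⟩
  have c1 : ∀ u v : ℝ, M * u ≤ M * v → u ≤ v := fun u v h => le_of_mul_le_mul_left h hM
  have c2 : ∀ u v : ℝ, M * u = M * v → u = v := fun u v h => mul_left_cancel₀ hM.ne' h
  have key := G.hB i p' x' y' w' e' (c1 _ _ (by linarith)) (c1 _ _ (by linarith))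
    (c1 _ _ (by linarith)) (c1 _ _ (by linarith)) (c1 _ _ (by linarith)) (c1 _ _ (by linarith))
    (c2 _ _ (by linarith)) (fun k => c1 _ _ (by have := h8 k; linarith))
    (fun k => c1 _ _ (by have := h9 k; linarith)) (c1 _ _ (by linarith))
  have := mul_nonneg (mul_nonneg hM.le hM.le) key
  nlinarith [this]

theorem Reg.hC' {δ R θ : ℝ} (G : Reg δ R θ) (M : ℝ) (hM : 0 < M) (p x y w e : ℝ)
    (h1 : 0 ≤ p) (h3 : 0 ≤ x) (h4 : x ≤ M) (h5 : y ≤ M) (h6 : 0 ≤ e)
    (h7 : y = G.c * x + G.d * M + θ * e) (h8 : x ≤ G.c * p + G.d * M + θ * e)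
    (h9 : ∀ k, R * (G.a k * y - G.b k * M) ≤ R * w + 4 * e) :
    R * (δ * x^2) - y * (R * w + 4 * e) ≤ G.c * (δ * p^2 - x * (y + e)) := by
  obtain ⟨p', rfl⟩ : ∃ p', p = M * p' := ⟨p / M, by field_simp⟩
  obtain ⟨x', rfl⟩ : ∃ p', x = M * p' := ⟨x / M, by field_simp⟩
  obtain ⟨y', rfl⟩ : ∃ p', y = M * p' := ⟨y / M, by field_simp⟩
  obtain ⟨w', rfl⟩ : ∃ p', w = M * p' := ⟨w / M, by field_simp⟩
  obtain ⟨e', rfl⟩ : ∃ p', e = M * p' := ⟨e / M, by field_simp⟩
  have c1 : ∀ u v : ℝ, M * u ≤ M * v → u ≤ v := fun u v h => le_of_mul_le_mul_left h hM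
  have c2 : ∀ u v : ℝ, M * u = M * v → u = v := fun u v h => mul_left_cancel₀ hM.ne' h
  have key := G.hC p' x' y' w' e' (c1 _ _ (by linarith))
    (c1 _ _ (by linarith)) (c1 _ _ (by linarith)) (c1 _ _ (by linarith)) (c1 _ _ (by linarith))
    (c2 _ _ (by linarith)) (c1 _ _ (by linarith))
    (fun k => c1 _ _ (by have := h9 k; linarith))
  have := mul_nonneg (mul_nonneg hM.le hM.le) (sub_nonneg.2 key)
  nlinarith [this]

/-- positivity for the clamped system -/
theorem trunc_nonneg (N : ℕ) (κ e : ℕ → ℝ) (hκ : ∀ n, 0 ≤ κ n) (δ B : ℝ)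
    (hδ : 0 ≤ δ) (T : ℝ) (U : ℕ → ℝ → ℝ) (h0 : ∀ n, n ≤ N → 0 ≤ U n 0)
    (hcl : ∀ n, N ≤ n → U n = U N)
    (hU : ∀ n, n ≤ N → ∀ t ∈ Icc (0:ℝ) T, HasDerivWithinAt (U n)
        (κ n * (δ * (if n = 0 then 0 else cl B (U (n-1) t))^2
          - cl B (U n t) * (cl B (U (n+1) t) + e n))) (Icc 0 T) t) :
    ∀ n, ∀ t ∈ Icc (0:ℝ) T, 0 ≤ U n t := by
  have main : ∀ η > 0, ∀ t ∈ Icc (0:ℝ) T, ∀ i : Fin (N+1), 0 < U i t + η * (1 + t) := by
    intro η hη
    apply barrier T (fun (i : Fin (N+1)) t => U i t + η * (1 + t))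
      (fun (i : Fin (N+1)) t => (κ i * (δ * (if (i:ℕ) = 0 then 0 else cl B (U (i-1) t))^2
          - cl B (U i t) * (cl B (U (i+1) t) + e i))) + η)
    · intro i
      have := h0 i (by omega)
      simp; linarith
    · intro i t ht
      have h1 := hU i (by omega) t ht
      have h2 : HasDerivWithinAt (fun t : ℝ => η * (1 + t)) η (Icc 0 T) t := by
        have := ((hasDerivWithinAt_id t (Icc 0 T)).const_add 1).const_mul η
        simpa using this
      exact h1.add h2
    · intro t ht _ i hi
      have hneg : U i t ≤ 0 := by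
        have : 0 < η * (1 + t) := by have := ht.1; positivity
        linarith
      rw [cl_eq_zero hneg]
      have : 0 ≤ κ i * (δ * (if (i:ℕ) = 0 then 0 else cl B (U (i-1) t))^2 - 0 * (cl B (U (i+1) t) + e i)) := by
        have := hκ i
        rw [zero_mul, sub_zero]; positivity
      linarith
  have h1 : ∀ n, n ≤ N → ∀ t ∈ Icc (0:ℝ) T, 0 ≤ U n t := by
    intro n hn t ht
    by_contra hneg
    push Not at hneg
    have ht1 : 0 < 1 + t := by have := ht.1; linarith
    have := main (-(U n t) / (2 * (1 + t))) (by apply div_pos <;> linarith) t ht ⟨n, by omega⟩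
    simp only at this
    have h3 : -(U n t) / (2 * (1 + t)) * (1 + t) = -(U n t) / 2 := by field_simp
    rw [h3] at this
    linarith
  intro n t ht
  rcases le_total n N with h | h
  · exact h1 n h t ht
  · rw [hcl n h]; exact h1 N le_rfl t ht

/-- the polygons are invariant for the truncated systems -/
theorem trunc_bound {δ R θ : ℝ} (G : Reg δ R θ) (N : ℕ) (hN : 2 ≤ N) (κ e : ℕ → ℝ)
    (hκ : ∀ n, 0 < κ n) (he : ∀ n, 0 ≤ e n) (hκR : ∀ n, κ (n+1) = R * κ n)
    (heR : ∀ n, e (n+1) = 4 / R * e n) (T : ℝ) (M0 μ m0 : ℝ) (hM0 : 0 < M0) (hμ : 0 < μ)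
    (hμT : μ * T ≤ 1) (U : ℕ → ℝ → ℝ) (h0 : ∀ n, n ≤ N → 0 ≤ U n 0) (h0m : ∀ n, n ≤ N → U n 0 ≤ m0)
    (hm1 : m0 < M0) (hm2 : ∀ i, G.a i * m0 < G.b i * M0) (hm3 : m0 < G.d * M0)
    (hm4 : m0^2 + m0^2 / (R * δ) < (G.d * M0 / 2)^2)
    (hcl : ∀ n, N ≤ n → U n = U N)
    (hU : ∀ n, n ≤ N → ∀ t ∈ Icc (0:ℝ) T, HasDerivWithinAt (U n)
        (κ n * (δ * (if n = 0 then 0 else cl (2*M0) (U (n-1) t))^2
          - cl (2*M0) (U n t) * (cl (2*M0) (U (n+1) t) + e n))) (Icc 0 T) t) :
    ∀ n, ∀ t ∈ Icc (0:ℝ) T, U n t ≤ M0 * (1 + μ * t) := by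
  have hδ := G.hδ
  have hR0 : 0 < R := by have := G.hR0; linarith
  have hpos := trunc_nonneg N κ e (fun n => (hκ n).le) δ (2*M0) G.hδ.le T U h0 hcl hU
  set D : ℕ → ℝ → ℝ := fun n t => κ n * (δ * (if n = 0 then 0 else cl (2*M0) (U (n-1) t))^2
          - cl (2*M0) (U n t) * (cl (2*M0) (U (n+1) t) + e n)) with hD
  let M : ℝ → ℝ := fun t => M0 * (1 + μ * t)
  have hMd : ∀ t, HasDerivWithinAt M (M0 * μ) (Icc 0 T) t := by
    intro t
    have := (((hasDerivWithinAt_id t (Icc 0 T)).const_mul μ).const_add 1).const_mul M0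
    simpa using this
  let φ : (Fin (N+1) ⊕ ((Fin N × Fin 3) ⊕ (Fin N ⊕ Unit))) → ℝ → ℝ := fun j t =>
    match j with
    | .inl n => M t - U n t
    | .inr (.inl (n, i)) => U (n+1) t + e n - G.a i * U n t + G.b i * M t
    | .inr (.inr (.inl n)) => if (n:ℕ) = 0 then 1 else
        G.c * U n t + G.d * M t + θ * e n - U (n+1) t
    | .inr (.inr (.inr _)) => (G.d * M t / 2)^2 - (U 0 t^2 + U 1 t^2 / (R * δ))
  let φ' : (Fin (N+1) ⊕ ((Fin N × Fin 3) ⊕ (Fin N ⊕ Unit))) → ℝ → ℝ := fun j t =>
    match j with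
    | .inl n => M0 * μ - D n t
    | .inr (.inl (n, i)) => D (n+1) t - G.a i * D n t + G.b i * (M0 * μ)
    | .inr (.inr (.inl n)) => if (n:ℕ) = 0 then 0 else
        G.c * D n t + G.d * (M0 * μ) - D (n+1) t
    | .inr (.inr (.inr _)) => 2 * (G.d * M t / 2) * (G.d * (M0 * μ) / 2)
        - (2 * U 0 t * D 0 t + 2 * U 1 t * D 1 t / (R * δ))
  have hUN : ∀ n, n ≤ N → ∀ t ∈ Icc (0:ℝ) T, HasDerivWithinAt (U n) (D n t) (Icc 0 T) t := hU
  have key : ∀ t ∈ Icc (0:ℝ) T, ∀ j, 0 < φ j t := by
    apply barrier T φ φ'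
    · -- initial
      intro j
      rcases j with n | ⟨n, i⟩ | n | _
      · have := h0m n (by omega)
        simp only [φ, M]; simp; linarith
      · have h1 := h0m n (by omega)
        have h2 := h0 (n+1) (by omega)
        have h3 := he n
        have h4 := mul_le_mul_of_nonneg_left h1 (G.ha i).le
        have h5 := hm2 i
        simp only [φ, M]; simp; linarith
      · simp only [φ, M]
        split_ifs
        · norm_num
        · have h1 := h0m (n+1) (by omega)
          have h2 := h0 n (by omega)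
          have h3 := he n
          have h4 := mul_nonneg G.hc h2
          have h5 := mul_nonneg G.hθ h3
          simp; linarith
      · have h1 := h0m 0 (by omega)
        have h2 := h0m 1 (by omega)
        have h3 := h0 0 (by omega)
        have h4 := h0 1 (by omega)
        have h5 : U 0 0 ^ 2 ≤ m0 ^ 2 := by gcongr
        have h6 : U 1 0 ^ 2 ≤ m0 ^ 2 := by gcongr
        have h7 : U 1 0 ^ 2 / (R * δ) ≤ m0 ^ 2 / (R * δ) := by gcongr
        simp only [φ, M]; simp only [mul_zero, add_zero, mul_one]; linarith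
    · -- derivatives
      intro j t ht
      rcases j with n | ⟨n, i⟩ | n | _
      · exact (hMd t).sub (hUN n (by omega) t ht)
      · have h1 := hUN (n+1) (by omega) t ht
        have h2 := hUN n (by omega) t ht
        exact (((h1.add_const (e n)).sub (h2.const_mul (G.a i))).add ((hMd t).const_mul (G.b i)))
      · simp only [φ, φ']
        split_ifs
        · exact hasDerivWithinAt_const _ _ _
        · have h1 := hUN (n+1) (by omega) t ht
          have h2 := hUN n (by omega) t ht
          exact (((h2.const_mul G.c).add ((hMd t).const_mul G.d)).add_const (θ * e n)).sub h1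
      · have h1 := hUN 0 (by omega) t ht
        have h2 := hUN 1 (by omega) t ht
        have h3 := (((hMd t).const_mul G.d).div_const 2).pow 2
        have h4 := h1.pow 2
        have h5 := (h2.pow 2).div_const (R * δ)
        refine (h3.sub (h4.add h5)).congr_deriv ?_
        norm_num [φ']
    · -- the barrier condition
      intro t ht hall j hj
      have htI : t ∈ Icc (0:ℝ) T := ⟨ht.1.le, ht.2⟩
      have hM1 : M0 ≤ M t := by
        have : 0 ≤ μ * t := mul_nonneg hμ.le ht.1.le
        simp only [M]; nlinarith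
      have hM2 : M t ≤ 2 * M0 := by
        have : μ * t ≤ μ * T := mul_le_mul_of_nonneg_left ht.2 hμ.le
        simp only [M]; nlinarith
      have hMpos : 0 < M t := lt_of_lt_of_le hM0 hM1
      have hM0μ : 0 < M0 * μ := mul_pos hM0 hμ
      have F0 : ∀ n, 0 ≤ U n t := fun n => hpos n t htI
      have F1 : ∀ n, U n t ≤ M t := by
        intro n
        rcases le_total n N with h | h
        · have := hall (.inl ⟨n, by omega⟩)
          simp only [φ] at this
          linarith
        · have := hall (.inl ⟨N, by omega⟩)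
          simp only [φ] at this
          rw [hcl n h]; linarith
      have hcl' : ∀ n, cl (2*M0) (U n t) = U n t := fun n => cl_eq (F0 n) ((F1 n).trans hM2)
      have hDn : ∀ n, D n t = κ n * (δ * (if n = 0 then 0 else U (n-1) t)^2
          - U n t * (U (n+1) t + e n)) := by
        intro n; simp only [hD, hcl']
      have F2 : ∀ n, n ≤ N → ∀ k, G.a k * U n t - G.b k * M t ≤ U (n+1) t + e n := by
        intro n hn k
        rcases hn.lt_or_eq with h | h
        · have := hall (.inr (.inl (⟨n, h⟩, k)))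
          simp only [φ] at this
          linarith
        · subst h
          rw [hcl (n+1) (by omega)]
          have h1 := G.hT1 k
          have h2 := G.hb k
          have h3 := F0 n
          have h4 := F1 n
          have h5 := he n
          have h6 : (G.a k - G.b k) * U n t ≤ 1 * U n t := mul_le_mul_of_nonneg_right h1 h3
          have h7 : G.b k * U n t ≤ G.b k * M t := mul_le_mul_of_nonneg_left h4 h2.le
          linarith
      have hE := hall (.inr (.inr (.inr ())))
      simp only [φ] at hE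
      have hU1 : U 1 t ≤ G.d * M t := by
        have h1 : U 1 t ^2 / (R * δ) ≤ (G.d * M t / 2)^2 := by nlinarith [sq_nonneg (U 0 t)]
        rw [div_le_iff₀ (by positivity)] at h1
        have h2 : R * δ ≤ 4 := by
          have := G.hR4; have := G.hδ1; nlinarith
        have h3 : U 1 t ^ 2 ≤ (G.d * M t)^2 := by nlinarith [sq_nonneg (G.d * M t / 2)]
        have h4 : 0 ≤ G.d * M t := mul_nonneg G.hd.le hMpos.le
        exact (abs_le_of_sq_le_sq' h3 h4).2
      have F3 : ∀ n, n ≤ N → U (n+1) t ≤ G.c * U n t + G.d * M t + θ * e n := by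
        intro n hn
        have hth : 0 ≤ θ * e n := mul_nonneg G.hθ (he n)
        rcases Nat.eq_zero_or_pos n with h0' | h0'
        · subst h0'
          have := mul_nonneg G.hc (F0 0)
          linarith
        rcases hn.lt_or_eq with h | h
        · have := hall (.inr (.inr (.inl ⟨n, h⟩)))
          simp only [φ] at this
          rw [if_neg (by omega)] at this
          linarith
        · subst h
          rw [hcl (n+1) (by omega)]
          have h1 := G.hT2
          have h3 := F0 n
          have h4 := F1 n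
          have h6 : 1 * U n t ≤ (G.c + G.d) * U n t := mul_le_mul_of_nonneg_right h1 h3
          have h7 : G.d * U n t ≤ G.d * M t := mul_le_mul_of_nonneg_left h4 G.hd.le
          linarith
      have heR' : ∀ n, R * e (n+1) = 4 * e n := by
        intro n; rw [heR n]; field_simp
      -- the value of the previous shell
      have hP : ∀ n, n ≤ N → 0 ≤ (if n = 0 then 0 else U (n-1) t) ∧ (if n = 0 then 0 else U (n-1) t) ≤ M t ∧
          (∀ k, G.a k * (if n = 0 then 0 else U (n-1) t) - G.b k * M t ≤ U n t + e n * R / 4) := by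
        intro n hn
        split_ifs with h
        · refine ⟨le_rfl, hMpos.le, fun k => ?_⟩
          have h1 := mul_nonneg (G.hb k).le hMpos.le
          have h2 := F0 n
          have h3 : 0 ≤ e n * R / 4 := by have := he n; positivity
          linarith
        · refine ⟨F0 _, F1 _, fun k => ?_⟩
          obtain ⟨m, rfl⟩ : ∃ m, n = m + 1 := ⟨n - 1, by omega⟩
          have h1 := F2 m (by omega) k
          have h2 := heR' m
          simp only [Nat.add_sub_cancel]
          linarith
      rcases j with n | ⟨n, i⟩ | n | _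
      · -- U n = M
        simp only [φ] at hj
        simp only [φ']
        have hUM : U n t = M t := by linarith
        obtain ⟨i, hi⟩ := G.hA
        have h1 := F2 n (by omega) i
        obtain ⟨p1, p2, _⟩ := hP n (by omega)
        have : D n t ≤ 0 := by
          rw [hDn n]
          apply mul_nonpos_of_nonneg_of_nonpos (hκ n).le
          rw [hUM] at h1 ⊢
          have h2 : (if (n:ℕ) = 0 then 0 else U (n-1) t)^2 ≤ (M t)^2 := by gcongr
          have h3 : δ * M t ≤ (G.a i - G.b i) * M t := mul_le_mul_of_nonneg_right hi hMpos.le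
          have h4 : M t * (δ * M t) ≤ M t * (U (n+1) t + e n) :=
            mul_le_mul_of_nonneg_left (by linarith) hMpos.le
          nlinarith
        linarith
      · -- lower edges
        simp only [φ] at hj
        simp only [φ']
        obtain ⟨p1, p2, p3⟩ := hP n (by omega)
        have hw := F3 (n+1) (by omega)
        have hw' : R * U (n+1+1) t ≤ R * (G.c * U (n+1) t + G.d * M t) + 4 * θ * e n := by
          have h1 := mul_le_mul_of_nonneg_left hw hR0.le
          have h2 := heR' n
          have h3 : R * (θ * e (n+1)) = θ * (4 * e n) := by rw [← h2]; ring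
          linarith
        have hk := G.hB' (M t) hMpos i _ (U n t) (U (n+1) t) (U (n+1+1) t) (e n) p1 p2 (F0 _) (F1 _)
          (F0 _) (he n) (by linarith) (F2 n (by omega)) p3 hw'
        have hκn := hκ n
        have h5 : 0 ≤ D (n+1) t - G.a i * D n t := by
          rw [hDn (n+1), hDn n, hκR n]
          have h6 := mul_nonneg hκn.le hk
          have h7 := heR' n
          simp only [Nat.add_eq_zero_iff, one_ne_zero, and_false, if_false, Nat.add_sub_cancel]
          calc (0:ℝ) ≤ _ := h6
            _ = _ := by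
              rw [show (4:ℝ) * e n = R * e (n+1) from h7.symm]
              ring
        have h8 := mul_pos (G.hb i) hM0μ
        linarith
      · -- upper edge
        simp only [φ] at hj
        simp only [φ']
        by_cases hn0 : (n:ℕ) = 0
        · rw [if_pos hn0] at hj; norm_num at hj
        · rw [if_neg hn0] at hj ⊢
          obtain ⟨p1, p2, p3⟩ := hP n (by omega)
          have hx : U n t ≤ G.c * (if (n:ℕ) = 0 then 0 else U (n-1) t) + G.d * M t + θ * e n := by
            rw [if_neg hn0]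
            obtain ⟨m, hm⟩ : ∃ m, (n:ℕ) = m + 1 := ⟨n - 1, by omega⟩
            rw [hm]
            simp only [Nat.add_sub_cancel]
            have h1 := F3 m (by omega)
            have h2 := heR' m
            have h3 := he m
            have h4 := he (m+1)
            have h5 : θ * e m ≤ θ * e (m+1) := by
              apply mul_le_mul_of_nonneg_left _ G.hθ
              have := G.hR4
              nlinarith
            linarith
          have hk := G.hC' (M t) hMpos _ (U n t) (U (n+1) t) (U (n+1+1) t) (e n) p1 (F0 _) (F1 _)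
            (F1 _) (he n) (by linarith) hx (fun k => by
              have h1 := F2 (n+1) (by omega) k
              have h2 := heR' n
              have h3 := mul_le_mul_of_nonneg_left h1 hR0.le
              nlinarith)
          have h5 : 0 ≤ G.c * D n t - D (n+1) t := by
            rw [hDn (n+1), hDn n, hκR n]
            have h6 := mul_nonneg (hκ n).le (sub_nonneg.2 hk)
            have h7 := heR' n
            simp only [Nat.add_eq_zero_iff, one_ne_zero, and_false, if_false, Nat.add_sub_cancel]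
            calc (0:ℝ) ≤ _ := h6
              _ = _ := by
                rw [show (4:ℝ) * e n = R * e (n+1) from h7.symm]
                ring
          have h8 := mul_pos G.hd hM0μ
          linarith
      · -- energy
        simp only [φ']
        rw [hDn 0, hDn 1]
        have h1 := hκR 0
        simp only [zero_add] at h1
        rw [h1]
        simp only [if_true, one_ne_zero, if_false, Nat.sub_self, zero_add]
        have hne : R * δ ≠ 0 := by positivity
        have e1 : 2 * U 1 t * (R * κ 0 * (δ * U 0 t ^ 2 - U 1 t * (U (1+1) t + e 1))) / (R * δ)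
            = 2 * κ 0 * U 1 t * U 0 t ^2 - 2 * κ 0 / δ * (U 1 t ^2 * (U (1+1) t + e 1)) := by
          field_simp
        rw [e1]
        have g1 : 0 < 2 * (G.d * M t / 2) * (G.d * (M0 * μ) / 2) := by
          have := G.hd; positivity
        have g2 : 0 ≤ 2 * κ 0 / δ * (U 1 t ^2 * (U (1+1) t + e 1)) := by
          have a1 := hκ 0; have a2 := F0 (1+1); have a3 := he 1
          positivity
        have g3 : 0 ≤ κ 0 * (U 0 t ^2 * e 0) := by
          have a1 := hκ 0; have a3 := he 0
          positivity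
        nlinarith
  intro n t ht
  rcases le_total n N with h | h
  · have := key t ht (.inl ⟨n, by omega⟩)
    simp only [φ, M] at this
    linarith
  · rw [hcl n h]
    have := key t ht (.inl ⟨N, by omega⟩)
    simp only [φ, M] at this
    linarith

end Pool.Agent.H219.Dy
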