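import Pool.Agent.H219.Dy.Ineq
import Pool.Agent.H219.Dy.Inv

/-! The three polygons. -/

set_option maxHeartbeats 4000000

namespace Pool.Agent.H219.Dy

noncomputable def regA (R : ℝ) (h0 : 363/100 ≤ R) (h1 : R ≤ 4) : Reg 1 R (12/100) where
  a := ![735/1000, 1204/1000, 1468/1000]
  b := ![1606/10000, 3358/10000, 468/1000]
  c := 724/1000
  d := 276/1000
  hδ := by norm_num
  hδ1 := le_rfl
  hR0 := by linarith
  hR4 := h1
  hθ := by norm_num
  ha := by intro i; fin_cases i <;> norm_num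
  hb := by intro i; fin_cases i <;> norm_num
  hc := by norm_num
  hd := by norm_num
  hA := ⟨2, by show (1:ℝ) ≤ 1468/1000 - 468/1000; norm_num⟩
  hT1 := by intro i; fin_cases i <;> norm_num
  hT2 := by norm_num
  hB := by
    intro i p x y w e hp0 hp1 hx0 hx1 hy he hL hk hpk hw
    have k0 : 735/1000 * x - 1606/10000 ≤ y + e := hk 0
    have k1 : 1204/1000 * x - 3358/10000 ≤ y + e := hk 1
    have k2 : 1468/1000 * x - 468/1000 ≤ y + e := hk 2
    have q1 : 1204/1000 * p - 3358/10000 ≤ x + e * R / 4 := hpk 1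
    have q2 : 1468/1000 * p - 468/1000 ≤ x + e * R / 4 := hpk 2
    fin_cases i
    · have hL' : y + e = 735/1000 * x - 1606/10000 := hL
      have := B1A R x y w p e h0 h1 hy he hp0 hL' k1 q1 hw
      show 0 ≤ R * (1 * x^2) - y * (R * w + 4 * e) - 735/1000 * (1 * p^2 - x * (y + e))
      linarith
    · have hL' : y + e = 1204/1000 * x - 3358/10000 := hL
      have := B2A R x y w p e h0 h1 hy he hp0 hL' k0 k2 q2 hw
      show 0 ≤ R * (1 * x^2) - y * (R * w + 4 * e) - 1204/1000 * (1 * p^2 - x * (y + e))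
      linarith
    · have hL' : y + e = 1468/1000 * x - 468/1000 := hL
      have := B3A R x y w p e h0 h1 hx1 hy he hp0 hp1 hL' k1 q2 hw
      show 0 ≤ R * (1 * x^2) - y * (R * w + 4 * e) - 1468/1000 * (1 * p^2 - x * (y + e))
      linarith
  hC := by
    intro p x y w e hp0 hx0 hx1 hy1 he hL hp hk
    have k0 : R * (735/1000 * y - 1606/10000) ≤ R * w + 4 * e := hk 0
    have k1 : R * (1204/1000 * y - 3358/10000) ≤ R * w + 4 * e := hk 1
    have k2 : R * (1468/1000 * y - 468/1000) ≤ R * w + 4 * e := hk 2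
    have := CA R x y w p e h0 h1 hx0 hx1 hy1 he hp0 hL hp k0 k1 k2
    linarith

noncomputable def regB (R : ℝ) (h0 : 349/100 ≤ R) (h1 : R ≤ 4) : Reg (3/4) R (25/100) where
  a := ![752/1000, 1307/1000, 1992/1000]
  b := ![2825/10000, 6531/10000, 1242/1000]
  c := 6823/10000
  d := 4319/10000
  hδ := by norm_num
  hδ1 := by norm_num
  hR0 := by linarith
  hR4 := h1
  hθ := by norm_num
  ha := by intro i; fin_cases i <;> norm_num
  hb := by intro i; fin_cases i <;> norm_num
  hc := by norm_num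
  hd := by norm_num
  hA := ⟨2, by show (3/4:ℝ) ≤ 1992/1000 - 1242/1000; norm_num⟩
  hT1 := by intro i; fin_cases i <;> norm_num
  hT2 := by norm_num
  hB := by
    intro i p x y w e hp0 hp1 hx0 hx1 hy he hL hk hpk hw
    have k0 : 752/1000 * x - 2825/10000 ≤ y + e := hk 0
    have k1 : 1307/1000 * x - 6531/10000 ≤ y + e := hk 1
    have k2 : 1992/1000 * x - 1242/1000 ≤ y + e := hk 2
    have q1 : 1307/1000 * p - 6531/10000 ≤ x + e * R / 4 := hpk 1
    have q2 : 1992/1000 * p - 1242/1000 ≤ x + e * R / 4 := hpk 2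
    fin_cases i
    · have hL' : y + e = 752/1000 * x - 2825/10000 := hL
      have := B1B R x y w p e h0 h1 hy he hp0 hL' k1 q1 hw
      show 0 ≤ R * (3/4 * x^2) - y * (R * w + 4 * e) - 752/1000 * (3/4 * p^2 - x * (y + e))
      linarith
    · have hL' : y + e = 1307/1000 * x - 6531/10000 := hL
      have := B2B R x y w p e h0 h1 hy he hp0 hL' k0 k2 q2 hw
      show 0 ≤ R * (3/4 * x^2) - y * (R * w + 4 * e) - 1307/1000 * (3/4 * p^2 - x * (y + e))
      linarith
    · have hL' : y + e = 1992/1000 * x - 1242/1000 := hL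
      have := B3B R x y w p e h0 h1 hx1 hy he hp0 hp1 hL' k1 hw
      show 0 ≤ R * (3/4 * x^2) - y * (R * w + 4 * e) - 1992/1000 * (3/4 * p^2 - x * (y + e))
      linarith
  hC := by
    intro p x y w e hp0 hx0 hx1 hy1 he hL hp hk
    have k0 : R * (752/1000 * y - 2825/10000) ≤ R * w + 4 * e := hk 0
    have k1 : R * (1307/1000 * y - 6531/10000) ≤ R * w + 4 * e := hk 1
    have k2 : R * (1992/1000 * y - 1242/1000) ≤ R * w + 4 * e := hk 2
    have := CB R x y w p e h0 h1 hx0 hx1 hy1 he hp0 hL k0 k1 k2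
    linarith

noncomputable def regC (R : ℝ) (h0 : 317/100 ≤ R) (h1 : R ≤ 4) : Reg (1/2) R (25/100) where
  a := ![494/1000, 1909/1000, 1909/1000]
  b := ![2276/10000, 1409/1000, 1409/1000]
  c := 7114/10000
  d := 5963/10000
  hδ := by norm_num
  hδ1 := by norm_num
  hR0 := by linarith
  hR4 := h1
  hθ := by norm_num
  ha := by intro i; fin_cases i <;> norm_num
  hb := by intro i; fin_cases i <;> norm_num
  hc := by norm_num
  hd := by norm_num
  hA := ⟨2, by show (1/2:ℝ) ≤ 1909/1000 - 1409/1000; norm_num⟩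
  hT1 := by intro i; fin_cases i <;> norm_num
  hT2 := by norm_num
  hB := by
    intro i p x y w e hp0 hp1 hx0 hx1 hy he hL hk hpk hw
    have k0 : 494/1000 * x - 2276/10000 ≤ y + e := hk 0
    have k1 : 1909/1000 * x - 1409/1000 ≤ y + e := hk 1
    fin_cases i
    · have hL' : y + e = 494/1000 * x - 2276/10000 := hL
      have := B1C R x y w p e h0 h1 hy he hp0 hp1 hL' k1 hw
      show 0 ≤ R * (1/2 * x^2) - y * (R * w + 4 * e) - 494/1000 * (1/2 * p^2 - x * (y + e))
      linarith
    · have hL' : y + e = 1909/1000 * x - 1409/1000 := hL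
      have := B2C R x y w p e h0 h1 hx1 hy he hp0 hp1 hL' k0 hw
      show 0 ≤ R * (1/2 * x^2) - y * (R * w + 4 * e) - 1909/1000 * (1/2 * p^2 - x * (y + e))
      linarith
    · have hL' : y + e = 1909/1000 * x - 1409/1000 := hL
      have := B2C R x y w p e h0 h1 hx1 hy he hp0 hp1 hL' k0 hw
      show 0 ≤ R * (1/2 * x^2) - y * (R * w + 4 * e) - 1909/1000 * (1/2 * p^2 - x * (y + e))
      linarith
  hC := by
    intro p x y w e hp0 hx0 hx1 hy1 he hL hp hk
    have k0 : R * (494/1000 * y - 2276/10000) ≤ R * w + 4 * e := hk 0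
    have k1 : R * (1909/1000 * y - 1409/1000) ≤ R * w + 4 * e := hk 1
    have := CC R x y w p e h0 h1 hx0 hy1 he hL k0 k1
    linarith

end Pool.Agent.H219.Dy
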