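import Pool.Agent.H219.Dy.Inv
import Pool.Agent.H219.Dy.Regions

/-! Invariant polygon for the inviscid model, Onsager's exponent. -/

set_option maxHeartbeats 4000000

namespace Pool.Agent.H219.Dy

open Set Filter Topology

/-- An admissible polygon, no viscosity, `δ = 1`. -/
structure RegE (R : ℝ) where
  a : Fin 3 → ℝ
  b : Fin 3 → ℝ
  c : ℝ
  d : ℝ
  hR0 : 1 < R
  ha : ∀ i, 0 < a i
  hb : ∀ i, 0 < b i
  hc : 0 ≤ c
  hd : 0 < d
  hA : ∃ i, 1 ≤ a i - b i
  hT1 : ∀ i, a i - b i ≤ 1
  hT2 : 1 ≤ c + d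
  hB : ∀ (i : Fin 3) (p x y w : ℝ), 0 ≤ p → p ≤ 1 → 0 ≤ x → x ≤ 1 → 0 ≤ y →
    y = a i * x - b i → (∀ k, a k * x - b k ≤ y) → (∀ k, a k * p - b k ≤ x) →
    w ≤ c * y + d → 0 ≤ R * x^2 - R * (y * w) - a i * (p^2 - x * y)
  hC : ∀ (p x y w : ℝ), 0 ≤ p → 0 ≤ x → x ≤ 1 → y ≤ 1 →
    y = c * x + d → x ≤ c * p + d → (∀ k, a k * y - b k ≤ w) →
    R * x^2 - R * (y * w) ≤ c * (p^2 - x * y)

noncomputable def regE (R : ℝ) (h0 : 363/100 ≤ R) : RegE R where
  a := ![735/1000, 1204/1000, 1468/1000]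
  b := ![1606/10000, 3358/10000, 468/1000]
  c := 724/1000
  d := 276/1000
  hR0 := by linarith
  ha := by intro i; fin_cases i <;> norm_num
  hb := by intro i; fin_cases i <;> norm_num
  hc := by norm_num
  hd := by norm_num
  hA := ⟨2, by show (1:ℝ) ≤ 1468/1000 - 468/1000; norm_num⟩
  hT1 := by intro i; fin_cases i <;> norm_num
  hT2 := by norm_num
  hB := by
    intro i p x y w hp0 hp1 hx0 hx1 hy hL hk hpk hw
    have G0 := (regA (363/100) le_rfl (by norm_num)).hB i p x y w 0 hp0 hp1 hx0 hx1 hy le_rfl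
      (by rw [add_zero]; exact hL) (fun k => by rw [add_zero]; exact hk k)
      (fun k => by
        have := hpk k
        simp only [zero_mul, zero_div, add_zero]; exact this)
      (by
        have h1 : (363/100:ℝ) * w ≤ 363/100 * (724/1000 * y + 276/1000) := by linarith
        simp only [mul_zero, add_zero]; exact h1)
    have key : 0 ≤ x^2 - y * w := by
      have h1 : y * w ≤ y * (724/1000 * y + 276/1000) := mul_le_mul_of_nonneg_left hw hy
      have h2 : y * (724/1000 * y + 276/1000) ≤ x^2 := by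
        fin_cases i
        · have hL' : y = 735/1000 * x - 1606/10000 := hL
          rw [hL']; nlinarith [sq_nonneg (x - 1/38)]
        · have hL' : y = 1204/1000 * x - 3358/10000 := hL
          rw [hL']; nlinarith [mul_nonneg hx0 (sub_nonneg.2 hx1)]
        · have hL' : y = 1468/1000 * x - 468/1000 := hL
          have hx3 : 3/10 ≤ x := by linarith
          rw [hL']; nlinarith [mul_nonneg (sub_nonneg.2 hx3) (sub_nonneg.2 hx1)]
      linarith
    have h3 := mul_nonneg (sub_nonneg.2 h0) key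
    have G1 : 0 ≤ 363/100 * (1 * x^2) - y * (363/100 * w + 4 * 0)
      - (![735/1000, 1204/1000, 1468/1000] : Fin 3 → ℝ) i * (1 * p^2 - x * (y + 0)) := G0
    nlinarith
  hC := by
    intro p x y w hp0 hx0 hx1 hy1 hL hp hk
    have G0 := (regA (363/100) le_rfl (by norm_num)).hC p x y w 0 hp0 hx0 hx1 hy1 le_rfl
      (by
        have : y = 724/1000 * x + 276/1000 + 12/100 * 0 := by linarith
        exact this)
      (by
        have : x ≤ 724/1000 * p + 276/1000 + 12/100 * 0 := by linarith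
        exact this)
      (fun k => by
        have := mul_le_mul_of_nonneg_left (hk k) (by norm_num : (0:ℝ) ≤ 363/100)
        simp only [mul_zero, add_zero]; exact this)
    have G1 : 363/100 * (1 * x^2) - y * (363/100 * w + 4 * 0) ≤ 724/1000 * (1 * p^2 - x * (y + 0)) := G0
    have k0 : 735/1000 * y - 1606/10000 ≤ w := hk 0
    have k2 : 1468/1000 * y - 468/1000 ≤ w := hk 2
    have hy0 : 0 ≤ y := by linarith
    have key : 0 ≤ y * w - x^2 := by
      rcases le_total x (3/10) with h | h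
      · have h1 := mul_le_mul_of_nonneg_left k0 hy0
        have h2 : x^2 ≤ y * (735/1000 * y - 1606/10000) := by
          rw [hL]; nlinarith [mul_nonneg hx0 (sub_nonneg.2 h)]
        linarith
      · have h1 := mul_le_mul_of_nonneg_left k2 hy0
        have h2 : x^2 ≤ y * (1468/1000 * y - 468/1000) := by
          rw [hL]; nlinarith [mul_nonneg (sub_nonneg.2 h) (sub_nonneg.2 hx1)]
        linarith
    have h3 := mul_nonneg (sub_nonneg.2 h0) key
    nlinarith

theorem RegE.hB' {R : ℝ} (G : RegE R) (M : ℝ) (hM : 0 < M) (i : Fin 3) (p x y w : ℝ)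
    (h1 : 0 ≤ p) (h2 : p ≤ M) (h3 : 0 ≤ x) (h4 : x ≤ M) (h5 : 0 ≤ y)
    (h7 : y = G.a i * x - G.b i * M) (h8 : ∀ k, G.a k * x - G.b k * M ≤ y)
    (h9 : ∀ k, G.a k * p - G.b k * M ≤ x)
    (h10 : w ≤ G.c * y + G.d * M) :
    0 ≤ R * x^2 - R * (y * w) - G.a i * (p^2 - x * y) := by
  obtain ⟨p', rfl⟩ : ∃ p', p = M * p' := ⟨p / M, by field_simp⟩
  obtain ⟨x', rfl⟩ : ∃ p', x = M * p' := ⟨x / M, by field_simp⟩
  obtain ⟨y', rfl⟩ : ∃ p', y = M * p' := ⟨y / M, by field_simp⟩
  obtain ⟨w', rfl⟩ : ∃ p', w = M * p' := ⟨w / M, by field_simp⟩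
  have c1 : ∀ u v : ℝ, M * u ≤ M * v → u ≤ v := fun u v h => le_of_mul_le_mul_left h hM
  have c2 : ∀ u v : ℝ, M * u = M * v → u = v := fun u v h => mul_left_cancel₀ hM.ne' h
  have key := G.hB i p' x' y' w' (c1 _ _ (by linarith)) (c1 _ _ (by linarith))
    (c1 _ _ (by linarith)) (c1 _ _ (by linarith)) (c1 _ _ (by linarith))
    (c2 _ _ (by linarith)) (fun k => c1 _ _ (by have := h8 k; linarith))
    (fun k => c1 _ _ (by have := h9 k; linarith)) (c1 _ _ (by linarith))
  have := mul_nonneg (mul_nonneg hM.le hM.le) key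
  nlinarith [this]

theorem RegE.hC' {R : ℝ} (G : RegE R) (M : ℝ) (hM : 0 < M) (p x y w : ℝ)
    (h1 : 0 ≤ p) (h3 : 0 ≤ x) (h4 : x ≤ M) (h5 : y ≤ M)
    (h7 : y = G.c * x + G.d * M) (h8 : x ≤ G.c * p + G.d * M)
    (h9 : ∀ k, G.a k * y - G.b k * M ≤ w) :
    R * x^2 - R * (y * w) ≤ G.c * (p^2 - x * y) := by
  obtain ⟨p', rfl⟩ : ∃ p', p = M * p' := ⟨p / M, by field_simp⟩
  obtain ⟨x', rfl⟩ : ∃ p', x = M * p' := ⟨x / M, by field_simp⟩
  obtain ⟨y', rfl⟩ : ∃ p', y = M * p' := ⟨y / M, by field_simp⟩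
  obtain ⟨w', rfl⟩ : ∃ p', w = M * p' := ⟨w / M, by field_simp⟩
  have c1 : ∀ u v : ℝ, M * u ≤ M * v → u ≤ v := fun u v h => le_of_mul_le_mul_left h hM
  have c2 : ∀ u v : ℝ, M * u = M * v → u = v := fun u v h => mul_left_cancel₀ hM.ne' h
  have key := G.hC p' x' y' w' (c1 _ _ (by linarith))
    (c1 _ _ (by linarith)) (c1 _ _ (by linarith)) (c1 _ _ (by linarith))
    (c2 _ _ (by linarith)) (c1 _ _ (by linarith))
    (fun k => c1 _ _ (by have := h9 k; linarith))
  have := mul_nonneg (mul_nonneg hM.le hM.le) (sub_nonneg.2 key)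
  nlinarith [this]

/-- the polygons are invariant for the truncated systems -/
theorem trunc_bound0 {R : ℝ} (G : RegE R) (N : ℕ) (hN : 2 ≤ N) (κ : ℕ → ℝ)
    (hκ : ∀ n, 0 < κ n) (hκR : ∀ n, κ (n+1) = R * κ n)
    (T : ℝ) (M0 μ m0 : ℝ) (hM0 : 0 < M0) (hμ : 0 < μ)
    (hμT : μ * T ≤ 1) (U : ℕ → ℝ → ℝ) (h0 : ∀ n, n ≤ N → 0 ≤ U n 0) (h0m : ∀ n, n ≤ N → U n 0 ≤ m0)
    (hm1 : m0 < M0) (hm2 : ∀ i, G.a i * m0 < G.b i * M0) (hm3 : m0 < G.d * M0)
    (hm4 : m0^2 + m0^2 / R < (G.d * M0)^2 / R)
    (hcl : ∀ n, N ≤ n → U n = U N)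
    (hU : ∀ n, n ≤ N → ∀ t ∈ Icc (0:ℝ) T, HasDerivWithinAt (U n)
        (κ n * (1 * (if n = 0 then 0 else cl (2*M0) (U (n-1) t))^2
          - cl (2*M0) (U n t) * (cl (2*M0) (U (n+1) t) + 0))) (Icc 0 T) t) :
    ∀ n, ∀ t ∈ Icc (0:ℝ) T, U n t ≤ M0 * (1 + μ * t) := by
  have hR0 : 0 < R := by have := G.hR0; linarith
  have hpos := trunc_nonneg N κ (fun _ => 0) (fun n => (hκ n).le) 1 (2*M0) zero_le_one T U h0 hcl hU
  set D : ℕ → ℝ → ℝ := fun n t => κ n * (1 * (if n = 0 then 0 else cl (2*M0) (U (n-1) t))^2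
          - cl (2*M0) (U n t) * (cl (2*M0) (U (n+1) t) + 0)) with hD
  let M : ℝ → ℝ := fun t => M0 * (1 + μ * t)
  have hMd : ∀ t, HasDerivWithinAt M (M0 * μ) (Icc 0 T) t := by
    intro t
    have := (((hasDerivWithinAt_id t (Icc 0 T)).const_mul μ).const_add 1).const_mul M0
    simpa using this
  let φ : (Fin (N+1) ⊕ ((Fin N × Fin 3) ⊕ (Fin N ⊕ Unit))) → ℝ → ℝ := fun j t =>
    match j with
    | .inl n => M t - U n t
    | .inr (.inl (n, i)) => U (n+1) t - G.a i * U n t + G.b i * M t
    | .inr (.inr (.inl n)) => if (n:ℕ) = 0 then 1 else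
        G.c * U n t + G.d * M t - U (n+1) t
    | .inr (.inr (.inr _)) => (G.d * M t)^2 / R - (U 0 t^2 + U 1 t^2 / R)
  let φ' : (Fin (N+1) ⊕ ((Fin N × Fin 3) ⊕ (Fin N ⊕ Unit))) → ℝ → ℝ := fun j t =>
    match j with
    | .inl n => M0 * μ - D n t
    | .inr (.inl (n, i)) => D (n+1) t - G.a i * D n t + G.b i * (M0 * μ)
    | .inr (.inr (.inl n)) => if (n:ℕ) = 0 then 0 else
        G.c * D n t + G.d * (M0 * μ) - D (n+1) t
    | .inr (.inr (.inr _)) => 2 * (G.d * M t) * (G.d * (M0 * μ)) / R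
        - (2 * U 0 t * D 0 t + 2 * U 1 t * D 1 t / R)
  have hUN : ∀ n, n ≤ N → ∀ t ∈ Icc (0:ℝ) T, HasDerivWithinAt (U n) (D n t) (Icc 0 T) t := hU
  have key : ∀ t ∈ Icc (0:ℝ) T, ∀ j, 0 < φ j t := by
    apply barrier T φ φ'
    · -- initial
      intro j
      rcases j with n | ⟨n, i⟩ | n | _
      · have := h0m n (by omega)
        simp only [φ, M]; simp; linarith
      · have h1 := h0m n (by omega)
        have h2 := h0 (n+1) (by omega)
        have h4 := mul_le_mul_of_nonneg_left h1 (G.ha i).le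
        have h5 := hm2 i
        simp only [φ, M]; simp; linarith
      · simp only [φ, M]
        split_ifs
        · norm_num
        · have h1 := h0m (n+1) (by omega)
          have h2 := h0 n (by omega)
          have h4 := mul_nonneg G.hc h2
          simp; linarith
      · have h1 := h0m 0 (by omega)
        have h2 := h0m 1 (by omega)
        have h3 := h0 0 (by omega)
        have h4 := h0 1 (by omega)
        have h5 : U 0 0 ^ 2 ≤ m0 ^ 2 := by gcongr
        have h6 : U 1 0 ^ 2 ≤ m0 ^ 2 := by gcongr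
        have h7 : U 1 0 ^ 2 / R ≤ m0 ^ 2 / R := by gcongr
        simp only [φ, M]; simp only [mul_zero, add_zero, mul_one]; linarith
    · -- derivatives
      intro j t ht
      rcases j with n | ⟨n, i⟩ | n | _
      · exact (hMd t).sub (hUN n (by omega) t ht)
      · have h1 := hUN (n+1) (by omega) t ht
        have h2 := hUN n (by omega) t ht
        exact ((h1.sub (h2.const_mul (G.a i))).add ((hMd t).const_mul (G.b i)))
      · simp only [φ, φ']
        split_ifs
        · exact hasDerivWithinAt_const _ _ _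
        · have h1 := hUN (n+1) (by omega) t ht
          have h2 := hUN n (by omega) t ht
          exact (((h2.const_mul G.c).add ((hMd t).const_mul G.d))).sub h1
      · have h1 := hUN 0 (by omega) t ht
        have h2 := hUN 1 (by omega) t ht
        have h3 := (((hMd t).const_mul G.d).pow 2).div_const R
        have h4 := h1.pow 2
        have h5 := (h2.pow 2).div_const R
        refine (h3.sub (h4.add h5)).congr_deriv ?_
        norm_num [φ']
    · -- the barrier condition
      intro t ht hall j hj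
      have htI : t ∈ Icc (0:ℝ) T := ⟨ht.1.le, ht.2⟩
      have hM1 : M0 ≤ M t := by
        have : 0 ≤ μ * t := mul_nonneg hμ.le ht.1.le
        simp only [M]; nlinarith
      have hM2 : M t ≤ 2 * M0 := by
        have : μ * t ≤ μ * T := mul_le_mul_of_nonneg_left ht.2 hμ.le
        simp only [M]; nlinarith
      have hMpos : 0 < M t := lt_of_lt_of_le hM0 hM1
      have hM0μ : 0 < M0 * μ := mul_pos hM0 hμ
      have F0 : ∀ n, 0 ≤ U n t := fun n => hpos n t htI
      have F1 : ∀ n, U n t ≤ M t := by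
        intro n
        rcases le_total n N with h | h
        · have := hall (.inl ⟨n, by omega⟩)
          simp only [φ] at this
          linarith
        · have := hall (.inl ⟨N, by omega⟩)
          simp only [φ] at this
          rw [hcl n h]; linarith
      have hcl' : ∀ n, cl (2*M0) (U n t) = U n t := fun n => cl_eq (F0 n) ((F1 n).trans hM2)
      have hDn : ∀ n, D n t = κ n * ((if n = 0 then 0 else U (n-1) t)^2
          - U n t * U (n+1) t) := by
        intro n; simp only [hD, hcl', add_zero, one_mul]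
      have F2 : ∀ n, n ≤ N → ∀ k, G.a k * U n t - G.b k * M t ≤ U (n+1) t := by
        intro n hn k
        rcases hn.lt_or_eq with h | h
        · have := hall (.inr (.inl (⟨n, h⟩, k)))
          simp only [φ] at this
          linarith
        · subst h
          rw [hcl (n+1) (by omega)]
          have h1 := G.hT1 k
          have h2 := G.hb k
          have h3 := F0 n
          have h4 := F1 n
          have h6 : (G.a k - G.b k) * U n t ≤ 1 * U n t := mul_le_mul_of_nonneg_right h1 h3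
          have h7 : G.b k * U n t ≤ G.b k * M t := mul_le_mul_of_nonneg_left h4 h2.le
          linarith
      have hE := hall (.inr (.inr (.inr ())))
      simp only [φ] at hE
      have hU1 : U 1 t ≤ G.d * M t := by
        have h1 : U 1 t ^2 / R ≤ (G.d * M t)^2 / R := by nlinarith [sq_nonneg (U 0 t)]
        have h3 : U 1 t ^ 2 ≤ (G.d * M t)^2 := by
          rwa [div_le_div_iff_of_pos_right hR0] at h1
        have h4 : 0 ≤ G.d * M t := mul_nonneg G.hd.le hMpos.le
        exact (abs_le_of_sq_le_sq' h3 h4).2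
      have F3 : ∀ n, n ≤ N → U (n+1) t ≤ G.c * U n t + G.d * M t := by
        intro n hn
        rcases Nat.eq_zero_or_pos n with h0' | h0'
        · subst h0'
          have := mul_nonneg G.hc (F0 0)
          linarith
        rcases hn.lt_or_eq with h | h
        · have := hall (.inr (.inr (.inl ⟨n, h⟩)))
          simp only [φ] at this
          rw [if_neg (by omega)] at this
          linarith
        · subst h
          rw [hcl (n+1) (by omega)]
          have h1 := G.hT2
          have h3 := F0 n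
          have h4 := F1 n
          have h6 : 1 * U n t ≤ (G.c + G.d) * U n t := mul_le_mul_of_nonneg_right h1 h3
          have h7 : G.d * U n t ≤ G.d * M t := mul_le_mul_of_nonneg_left h4 G.hd.le
          linarith
      -- the value of the previous shell
      have hP : ∀ n, n ≤ N → 0 ≤ (if n = 0 then 0 else U (n-1) t) ∧ (if n = 0 then 0 else U (n-1) t) ≤ M t ∧
          (∀ k, G.a k * (if n = 0 then 0 else U (n-1) t) - G.b k * M t ≤ U n t) := by
        intro n hn
        split_ifs with h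
        · refine ⟨le_rfl, hMpos.le, fun k => ?_⟩
          have h1 := mul_nonneg (G.hb k).le hMpos.le
          have h2 := F0 n
          linarith
        · refine ⟨F0 _, F1 _, fun k => ?_⟩
          obtain ⟨m, rfl⟩ : ∃ m, n = m + 1 := ⟨n - 1, by omega⟩
          have h1 := F2 m (by omega) k
          simp only [Nat.add_sub_cancel]
          linarith
      rcases j with n | ⟨n, i⟩ | n | _
      · -- U n = M
        simp only [φ] at hj
        simp only [φ']
        have hUM : U n t = M t := by linarith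
        obtain ⟨i, hi⟩ := G.hA
        have h1 := F2 n (by omega) i
        obtain ⟨p1, p2, _⟩ := hP n (by omega)
        have : D n t ≤ 0 := by
          rw [hDn n]
          apply mul_nonpos_of_nonneg_of_nonpos (hκ n).le
          rw [hUM] at h1 ⊢
          have h2 : (if (n:ℕ) = 0 then 0 else U (n-1) t)^2 ≤ (M t)^2 := by gcongr
          have h3 : 1 * M t ≤ (G.a i - G.b i) * M t := mul_le_mul_of_nonneg_right hi hMpos.le
          have h4 : M t * (1 * M t) ≤ M t * (U (n+1) t) :=
            mul_le_mul_of_nonneg_left (by linarith) hMpos.le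
          nlinarith
        linarith
      · -- lower edges
        simp only [φ] at hj
        simp only [φ']
        obtain ⟨p1, p2, p3⟩ := hP n (by omega)
        have hw := F3 (n+1) (by omega)
        have hk := G.hB' (M t) hMpos i _ (U n t) (U (n+1) t) (U (n+1+1) t) p1 p2 (F0 _) (F1 _)
          (F0 _) (by linarith) (F2 n (by omega)) p3 hw
        have hκn := hκ n
        have h5 : 0 ≤ D (n+1) t - G.a i * D n t := by
          rw [hDn (n+1), hDn n, hκR n]
          have h6 := mul_nonneg hκn.le hk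
          simp only [Nat.add_eq_zero_iff, one_ne_zero, and_false, if_false, Nat.add_sub_cancel]
          calc (0:ℝ) ≤ _ := h6
            _ = _ := by ring
        have h8 := mul_pos (G.hb i) hM0μ
        linarith
      · -- upper edge
        simp only [φ] at hj
        simp only [φ']
        by_cases hn0 : (n:ℕ) = 0
        · rw [if_pos hn0] at hj; norm_num at hj
        · rw [if_neg hn0] at hj ⊢
          obtain ⟨p1, p2, p3⟩ := hP n (by omega)
          have hx : U n t ≤ G.c * (if (n:ℕ) = 0 then 0 else U (n-1) t) + G.d * M t := by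
            rw [if_neg hn0]
            obtain ⟨m, hm⟩ : ∃ m, (n:ℕ) = m + 1 := ⟨n - 1, by omega⟩
            rw [hm]
            simp only [Nat.add_sub_cancel]
            exact F3 m (by omega)
          have hk := G.hC' (M t) hMpos _ (U n t) (U (n+1) t) (U (n+1+1) t) p1 (F0 _) (F1 _)
            (F1 _) (by linarith) hx (fun k => F2 (n+1) (by omega) k)
          have h5 : 0 ≤ G.c * D n t - D (n+1) t := by
            rw [hDn (n+1), hDn n, hκR n]
            have h6 := mul_nonneg (hκ n).le (sub_nonneg.2 hk)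
            simp only [Nat.add_eq_zero_iff, one_ne_zero, and_false, if_false, Nat.add_sub_cancel]
            calc (0:ℝ) ≤ _ := h6
              _ = _ := by ring
          have h8 := mul_pos G.hd hM0μ
          linarith
      · -- energy
        simp only [φ']
        rw [hDn 0, hDn 1]
        have h1 := hκR 0
        simp only [zero_add] at h1
        rw [h1]
        simp only [if_true, one_ne_zero, if_false, Nat.sub_self, zero_add]
        have hne : R ≠ 0 := by positivity
        have e1 : 2 * U 1 t * (R * κ 0 * (U 0 t ^ 2 - U 1 t * U (1+1) t)) / R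
            = 2 * κ 0 * U 1 t * U 0 t ^2 - 2 * κ 0 * (U 1 t ^2 * U (1+1) t) := by
          field_simp
        rw [e1]
        have g1 : 0 < 2 * (G.d * M t) * (G.d * (M0 * μ)) / R := by
          have := G.hd; positivity
        have g2 : 0 ≤ 2 * κ 0 * (U 1 t ^2 * U (1+1) t) := by
          have a1 := hκ 0; have a2 := F0 (1+1)
          positivity
        nlinarith
  intro n t ht
  rcases le_total n N with h | h
  · have := key t ht (.inl ⟨n, by omega⟩)
    simp only [φ, M] at this
    linarith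
  · rw [hcl n h]
    have := key t ht (.inl ⟨N, by omega⟩)
    simp only [φ, M] at this
    linarith

theorem RegE.exists_K {R : ℝ} (G : RegE R) : ∃ K : ℝ, 0 < K ∧ ∀ A : ℝ, 0 < A →
    A < K * A ∧ (∀ i, G.a i * A < G.b i * (K * A)) ∧ A < G.d * (K * A) ∧
    A ^ 2 + A ^ 2 / R < (G.d * (K * A)) ^ 2 / R := by
  have hd := G.hd
  have hR0 : 0 < R := by have := G.hR0; linarith
  have e1 : ∀ᶠ K : ℝ in atTop, 1 < K := eventually_gt_atTop 1
  have e2 : ∀ i, ∀ᶠ K : ℝ in atTop, G.a i < G.b i * K := fun i =>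
    (tendsto_id.const_mul_atTop (G.hb i)).eventually_gt_atTop _
  have e3 : ∀ᶠ K : ℝ in atTop, 1 < G.d * K :=
    (tendsto_id.const_mul_atTop hd).eventually_gt_atTop _
  have e4 : ∀ᶠ K : ℝ in atTop, R + 1 < G.d * K :=
    (tendsto_id.const_mul_atTop hd).eventually_gt_atTop _
  obtain ⟨K, k1, k2, k3, k4⟩ := (e1.and ((eventually_all.2 e2).and (e3.and e4))).exists
  refine ⟨K, by linarith, fun A hA => ⟨?_, ?_, ?_, ?_⟩⟩
  · nlinarith
  · intro i
    have := mul_lt_mul_of_pos_right (k2 i) hA
    linarith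
  · have := mul_lt_mul_of_pos_right k3 hA
    linarith
  · rw [lt_div_iff₀ hR0]
    have h1 : (A ^ 2 + A ^ 2 / R) * R = (R + 1) * A ^ 2 := by field_simp
    have h2 : (R + 1) ^ 2 < (G.d * K) ^ 2 := by gcongr
    have h3 : (G.d * (K * A)) ^ 2 = (G.d * K) ^ 2 * A ^ 2 := by ring
    rw [h1, h3]
    have hA2 : 0 < A ^ 2 := by positivity
    apply mul_lt_mul_of_pos_right _ hA2
    nlinarith

theorem trunc_final0 {R : ℝ} (G : RegE R) (N : ℕ) (hN : 2 ≤ N) (κ : ℕ → ℝ)
    (hκ : ∀ n, 0 < κ n) (hκR : ∀ n, κ (n+1) = R * κ n)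
    (T : ℝ) (hT : 0 < T) (M0 m0 : ℝ) (hM0 : 0 < M0)
    (hm1 : m0 < M0) (hm2 : ∀ i, G.a i * m0 < G.b i * M0) (hm3 : m0 < G.d * M0)
    (hm4 : m0^2 + m0^2 / R < (G.d * M0)^2 / R)
    (u0 : ℕ → ℝ) (hu0 : ∀ n, 0 ≤ u0 n) (hu0m : ∀ n, u0 n ≤ m0) :
    ∃ U : ℕ → ℝ → ℝ, (∀ n, n ≤ N → U n 0 = u0 n) ∧
      (∀ n, ∀ t ∈ Icc (0:ℝ) T, 0 ≤ U n t ∧ U n t ≤ M0) ∧
      ∀ n, n ≤ N → ∀ t ∈ Icc (0:ℝ) T, HasDerivWithinAt (U n)
        (κ n * (1 * (if n = 0 then 0 else U (n-1) t)^2 - U n t * (U (n+1) t + 0))) (Icc 0 T) t := by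
  obtain ⟨U, h1, h2, h3⟩ := trunc_exists N κ (fun _ => 0) (fun n => (hκ n).le) (fun _ => le_rfl) 1
    (2*M0) zero_le_one (by linarith) T hT.le u0
  have hpos := trunc_nonneg N κ (fun _ => 0) (fun n => (hκ n).le) 1 (2*M0) zero_le_one T U
    (fun n hn => by rw [h1 n hn]; exact hu0 n) h2 h3
  have hb : ∀ n, ∀ t ∈ Icc (0:ℝ) T, U n t ≤ M0 := by
    intro n t ht
    by_contra hcon
    push Not at hcon
    have hTi : 0 < 1 / T := by positivity
    have htpos : 0 < t + 1 := by have := ht.1; linarith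
    set ζ := (U n t - M0) / (2 * M0 * (t + 1)) with hζ
    have hζpos : 0 < ζ := by apply div_pos; linarith; positivity
    have key := trunc_bound0 G N hN κ hκ hκR T M0 (min (1/T) ζ) m0 hM0
      (lt_min hTi hζpos) (by
        calc min (1/T) ζ * T ≤ (1/T) * T := mul_le_mul_of_nonneg_right (min_le_left _ _) hT.le
          _ = 1 := by field_simp) U (fun n hn => by rw [h1 n hn]; exact hu0 n)
      (fun n hn => by rw [h1 n hn]; exact hu0m n) hm1 hm2 hm3 hm4 h2 h3 n t ht
    have h5 : min (1/T) ζ * t ≤ ζ * (t + 1) := by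
      calc min (1/T) ζ * t ≤ ζ * t := mul_le_mul_of_nonneg_right (min_le_right _ _) ht.1
        _ ≤ ζ * (t + 1) := by nlinarith
    have h6 : M0 * (ζ * (t+1)) = (U n t - M0) / 2 := by
      rw [hζ]; field_simp
    nlinarith
  refine ⟨U, h1, fun n t ht => ⟨hpos n t ht, hb n t ht⟩, ?_⟩
  intro n hn t ht
  have h4 := h3 n hn t ht
  have hcl' : ∀ n, cl (2*M0) (U n t) = U n t := fun n =>
    cl_eq (hpos n t ht) ((hb n t ht).trans (by linarith))
  simp only [hcl'] at h4
  exact h4

end Pool.Agent.H219.Dy
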