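import Mathlib

/-! Inequalities for the tilted polygons, `ρ = 73/20`, tilt `e ≤ 1/100`. -/

set_option maxHeartbeats 1000000

namespace Pool.Agent.H219.Dy

theorem tT (x y p e : ℝ) (he : 0 < e) (he1 : e ≤ 1/100) (hp0 : 0 ≤ p)
    (hx : x = 1 - 2 * e) (hp : p ≤ 1 - 2 * (73/20 * e))
    (hy : 1468/1000 * x - 468/1000 * (1 - e) ≤ y) : p^2 - x*y + e * x < 0 := by
  have h1 : p^2 ≤ (1 - 2 * (73/20 * e))^2 := by
    apply pow_le_pow_left₀ hp0 hp
  have hx0 : 0 ≤ x := by linarith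
  have h2 : x * (1468/1000 * x - 468/1000 * (1 - e)) ≤ x * y := mul_le_mul_of_nonneg_left hy hx0
  subst hx
  nlinarith

theorem tB0 (x y p e : ℝ) (he : 0 ≤ e) (he1 : e ≤ 1/100) (hy : 0 ≤ y) (hp0 : 0 ≤ p)
    (hL : y = 735/1000 * x - 1606/10000 * (1 - e))
    (hL1 : 1204/1000 * x - 3358/10000 * (1 - e) ≤ y)
    (hp : 1204/1000 * p - 3358/10000 * (1 - 73/20 * e) ≤ x) :
    e * (1606/10000) + e / 100 ≤ 73/20 * (x^2 - y*(724/1000*y+276/1000)) - 735/1000 * (p^2 - x*y) ∧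
    0 ≤ x^2 - y*(724/1000*y+276/1000) := by
  have hQ : 1204/1000 * p ≤ x + 3358/10000 * (1 - 73/20 * e) := by linarith
  have hQ2 : (1204/1000*p)^2 ≤ (x + 3358/10000 * (1 - 73/20 * e))^2 := by
    apply pow_le_pow_left₀ (by positivity) hQ
  have hx : x ≤ 3737/10000 := by nlinarith
  have hx' : 216/1000 ≤ x := by nlinarith
  constructor
  · have g0 : 0 ≤ (1204/1000)^2*((73/20) * x^2 - y*((73/20)*(724/1000*y+276/1000)) + 735/1000*(x*y)
        - e * (1606/10000) - e/100) - 735/1000*(x + 3358/10000 * (1 - 73/20 * e))^2 := by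
      obtain rfl : y = 735/1000 * x - 1606/10000 * (1 - e) := hL
      nlinarith [mul_nonneg he (sub_nonneg.2 hx), mul_nonneg hy (sub_nonneg.2 hx),
        mul_nonneg (sub_nonneg.2 he1) (sub_nonneg.2 hx), mul_nonneg (sub_nonneg.2 hx') (sub_nonneg.2 hx)]
    nlinarith
  · obtain rfl : y = 735/1000 * x - 1606/10000 * (1 - e) := hL
    nlinarith [mul_nonneg he (sub_nonneg.2 hx), mul_nonneg hy (sub_nonneg.2 hx),
        mul_nonneg (sub_nonneg.2 he1) (sub_nonneg.2 hx), mul_nonneg (sub_nonneg.2 hx') (sub_nonneg.2 hx)]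

theorem tB1 (x y p e : ℝ) (he : 0 ≤ e) (he1 : e ≤ 1/100) (hy : 0 ≤ y) (hp0 : 0 ≤ p)
    (hL : y = 1204/1000 * x - 3358/10000 * (1 - e))
    (hL0 : 735/1000 * x - 1606/10000 * (1 - e) ≤ y)
    (hL2 : 1468/1000 * x - 468/1000 * (1 - e) ≤ y)
    (hp : 1468/1000 * p - 468/1000 * (1 - 73/20 * e) ≤ x) :
    e * (3358/10000) + e / 100 ≤ 73/20 * (x^2 - y*(724/1000*y+276/1000)) - 1204/1000 * (p^2 - x*y) ∧
    0 ≤ x^2 - y*(724/1000*y+276/1000) := by
  have hQ : 1468/1000 * p ≤ x + 468/1000 * (1 - 73/20 * e) := by linarith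
  have hQ2 : (1468/1000*p)^2 ≤ (x + 468/1000 * (1 - 73/20 * e))^2 := by
    apply pow_le_pow_left₀ (by positivity) hQ
  have hx : x ≤ 501/1000 := by nlinarith
  have hx' : 3698/10000 ≤ x := by nlinarith
  constructor
  · have g0 : 0 ≤ (1468/1000)^2*((73/20) * x^2 - y*((73/20)*(724/1000*y+276/1000)) + 1204/1000*(x*y)
        - e * (3358/10000) - e/100) - 1204/1000*(x + 468/1000 * (1 - 73/20 * e))^2 := by
      obtain rfl : y = 1204/1000 * x - 3358/10000 * (1 - e) := hL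
      nlinarith [mul_nonneg he (sub_nonneg.2 hx), mul_nonneg hy (sub_nonneg.2 hx),
        mul_nonneg (sub_nonneg.2 he1) (sub_nonneg.2 hx), mul_nonneg (sub_nonneg.2 hx') (sub_nonneg.2 hx)]
    nlinarith
  · obtain rfl : y = 1204/1000 * x - 3358/10000 * (1 - e) := hL
    nlinarith [mul_nonneg he (sub_nonneg.2 hx), mul_nonneg hy (sub_nonneg.2 hx),
        mul_nonneg (sub_nonneg.2 he1) (sub_nonneg.2 hx), mul_nonneg (sub_nonneg.2 hx') (sub_nonneg.2 hx)]

theorem tB2 (x y p e : ℝ) (he : 0 ≤ e) (he1 : e ≤ 1/100) (hy : 0 ≤ y) (hp0 : 0 ≤ p)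
    (hx1 : x ≤ 1 - 2 * e)
    (hL : y = 1468/1000 * x - 468/1000 * (1 - e))
    (hL1 : 1204/1000 * x - 3358/10000 * (1 - e) ≤ y)
    (hp : 1468/1000 * p - 468/1000 * (1 - 73/20 * e) ≤ x) :
    e * (468/1000) + e / 100 ≤ 73/20 * (x^2 - y*(724/1000*y+276/1000)) - 1468/1000 * (p^2 - x*y) ∧
    0 ≤ x^2 - y*(724/1000*y+276/1000) := by
  have hQ : 1468/1000 * p ≤ x + 468/1000 * (1 - 73/20 * e) := by linarith
  have hQ2 : (1468/1000*p)^2 ≤ (x + 468/1000 * (1 - 73/20 * e))^2 := by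
    apply pow_le_pow_left₀ (by positivity) hQ
  have hx' : 49/100 ≤ x := by nlinarith
  constructor
  · have g0 : 0 ≤ (1468/1000)^2*((73/20) * x^2 - y*((73/20)*(724/1000*y+276/1000)) + 1468/1000*(x*y)
        - e * (468/1000) - e/100) - 1468/1000*(x + 468/1000 * (1 - 73/20 * e))^2 := by
      obtain rfl : y = 1468/1000 * x - 468/1000 * (1 - e) := hL
      nlinarith [mul_nonneg he (sub_nonneg.2 hx1), mul_nonneg he he, 
        mul_nonneg (sub_nonneg.2 he1) (sub_nonneg.2 hx1), mul_nonneg (sub_nonneg.2 hx') (sub_nonneg.2 hx1),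
        mul_nonneg he (sub_nonneg.2 hx'), mul_nonneg he (sub_nonneg.2 he1)]
    nlinarith
  · obtain rfl : y = 1468/1000 * x - 468/1000 * (1 - e) := hL
    nlinarith [mul_nonneg he (sub_nonneg.2 hx1), mul_nonneg he he, 
        mul_nonneg (sub_nonneg.2 he1) (sub_nonneg.2 hx1), mul_nonneg (sub_nonneg.2 hx') (sub_nonneg.2 hx1),
        mul_nonneg he (sub_nonneg.2 hx'), mul_nonneg he (sub_nonneg.2 he1)]

/-- the upper edge; `q` is the tilt of the next shell, `e = 73/20 q` -/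
theorem tC (x y w p q : ℝ) (hq : 0 ≤ q) (hq1 : 73/20 * q ≤ 1/100) (hx0 : 0 ≤ x) (hx1 : x ≤ 1)
    (hp0 : 0 ≤ p)
    (hL : y = 724/1000 * x + 276/1000)
    (hp : x ≤ 724/1000 * p + 276/1000)
    (hw1 : 735/1000 * y - 1606/10000 * (1 - q) ≤ w)
    (hw2 : 1204/1000 * y - 3358/10000 * (1 - q) ≤ w)
    (hw3 : 1468/1000 * y - 468/1000 * (1 - q) ≤ w) :
    73/20 * q * (276/1000) + q / 100 ≤ 724/1000 * (p^2 - x*y) - 73/20 * (x^2 - y*w) ∧
    0 ≤ y * w - x^2 := by
  have hy : 0 ≤ y := by linarith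
  have hpp : (x - 276/1000)^2 ≤ (724/1000)^2 * p^2 ∨ x - 276/1000 < 0 := by
    by_cases h : x - 276/1000 < 0
    · right; exact h
    · left
      have h' : x - 276/1000 ≤ 724/1000 * p := by linarith
      nlinarith
  rcases le_total x (14/100) with h14 | h14
  · have h1 := mul_le_mul_of_nonneg_left hw1 hy
    have g0 : 73/20 * q * (276/1000) + q / 100 ≤
        -(724/1000 * (x * y)) - (73/20) * x^2 + y * ((73/20) * (735/1000*y-1606/10000 * (1 - q))) := by
      subst hL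
      nlinarith [mul_nonneg hx0 (sub_nonneg.2 h14), mul_nonneg hq hx0, mul_nonneg hq (sub_nonneg.2 h14),
        mul_nonneg (sub_nonneg.2 hq1) hx0]
    have g1 : 0 ≤ y * (735/1000*y-1606/10000 * (1 - q)) - x^2 := by
      subst hL
      nlinarith [mul_nonneg hx0 (sub_nonneg.2 h14), mul_nonneg hq hx0, mul_nonneg hq (sub_nonneg.2 h14),
        mul_nonneg (sub_nonneg.2 hq1) hx0]
    constructor
    · nlinarith [sq_nonneg p]
    · linarith
  rcases le_total x (33/100) with h33 | h33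
  · have h1 := mul_le_mul_of_nonneg_left hw2 hy
    have g0 : 73/20 * q * (276/1000) + q / 100 ≤
        724/1000*p^2 -(724/1000 * (x * y)) - (73/20) * x^2 + y * ((73/20) * (1204/1000*y-3358/10000 * (1 - q))) := by
      subst hL
      nlinarith [mul_nonneg (sub_nonneg.2 h14) (sub_nonneg.2 h33), mul_nonneg hq (sub_nonneg.2 h14),
        mul_nonneg hq (sub_nonneg.2 h33), sq_nonneg (p - 4/100), mul_nonneg (sub_nonneg.2 hq1) (sub_nonneg.2 h14)]
    have g1 : 0 ≤ y * (1204/1000*y-3358/10000 * (1 - q)) - x^2 := by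
      subst hL
      nlinarith [mul_nonneg (sub_nonneg.2 h14) (sub_nonneg.2 h33), mul_nonneg hq (sub_nonneg.2 h14),
        mul_nonneg hq (sub_nonneg.2 h33), mul_nonneg (sub_nonneg.2 hq1) (sub_nonneg.2 h14)]
    constructor
    · nlinarith
    · linarith
  · have h1 := mul_le_mul_of_nonneg_left hw3 hy
    have g1 : 0 ≤ y * (1468/1000*y-468/1000 * (1 - q)) - x^2 := by
      subst hL
      nlinarith [mul_nonneg (sub_nonneg.2 h33) (sub_nonneg.2 hx1), mul_nonneg hq (sub_nonneg.2 h33),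
        mul_nonneg hq (sub_nonneg.2 hx1), mul_nonneg (sub_nonneg.2 hq1) (sub_nonneg.2 hx1)]
    rcases hpp with hpp | hneg
    · have g0 : (724/1000) * (73/20 * q * (276/1000) + q / 100) ≤
          (x - 276/1000)^2 + (724/1000) * (-(724/1000 * (x * y)) - (73/20) * x^2
            + y * ((73/20) * (1468/1000*y-468/1000 * (1 - q)))) := by
        subst hL
        nlinarith [mul_nonneg (sub_nonneg.2 h33) (sub_nonneg.2 hx1), mul_nonneg hq (sub_nonneg.2 h33),
          mul_nonneg hq (sub_nonneg.2 hx1), mul_nonneg (sub_nonneg.2 hq1) (sub_nonneg.2 hx1)]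
      constructor
      · nlinarith
      · linarith
    · exfalso; linarith

end Pool.Agent.H219.Dy
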