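import Pool.Agent.H219.Dy.Limit
import Pool.Agent.H219.Dy.InvE
import Pool.Agent.H219.Dy.TiltIneq

/-! Passing to the limit, with closed conditions. -/

set_option maxHeartbeats 4000000

namespace Pool.Agent.H219.Dy

open Set Filter Topology

/-- as `trunc_final0`, with the closure of the truncated system -/
theorem trunc_final1 {R : ℝ} (G : RegE R) (N : ℕ) (hN : 2 ≤ N) (κ : ℕ → ℝ)
    (hκ : ∀ n, 0 < κ n) (hκR : ∀ n, κ (n+1) = R * κ n)
    (T : ℝ) (hT : 0 < T) (M0 m0 : ℝ) (hM0 : 0 < M0)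
    (hm1 : m0 < M0) (hm2 : ∀ i, G.a i * m0 < G.b i * M0) (hm3 : m0 < G.d * M0)
    (hm4 : m0^2 + m0^2 / R < (G.d * M0)^2 / R)
    (u0 : ℕ → ℝ) (hu0 : ∀ n, 0 ≤ u0 n) (hu0m : ∀ n, n ≤ N → u0 n ≤ m0) :
    ∃ U : ℕ → ℝ → ℝ, (∀ n, n ≤ N → U n 0 = u0 n) ∧ (∀ n, N ≤ n → U n = U N) ∧
      (∀ n, ∀ t ∈ Icc (0:ℝ) T, 0 ≤ U n t ∧ U n t ≤ M0) ∧
      ∀ n, n ≤ N → ∀ t ∈ Icc (0:ℝ) T, HasDerivWithinAt (U n)
        (κ n * ((if n = 0 then 0 else U (n-1) t)^2 - U n t * U (n+1) t)) (Icc 0 T) t := by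
  obtain ⟨U, h1, h2, h3⟩ := trunc_exists N κ (fun _ => 0) (fun n => (hκ n).le) (fun _ => le_rfl) 1
    (2*M0) zero_le_one (by linarith) T hT.le u0
  have hpos := trunc_nonneg N κ (fun _ => 0) (fun n => (hκ n).le) 1 (2*M0) zero_le_one T U
    (fun n hn => by rw [h1 n hn]; exact hu0 n) h2 h3
  have hb : ∀ n, ∀ t ∈ Icc (0:ℝ) T, U n t ≤ M0 := by
    intro n t ht
    by_contra hcon
    push Not at hcon
    have hTi : 0 < 1 / T := by positivity
    have htpos : 0 < t + 1 := by have := ht.1; linarith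
    set ζ := (U n t - M0) / (2 * M0 * (t + 1)) with hζ
    have hζpos : 0 < ζ := by apply div_pos; linarith; positivity
    have key := trunc_bound0 G N hN κ hκ hκR T M0 (min (1/T) ζ) m0 hM0
      (lt_min hTi hζpos) (by
        calc min (1/T) ζ * T ≤ (1/T) * T := mul_le_mul_of_nonneg_right (min_le_left _ _) hT.le
          _ = 1 := by field_simp) U (fun n hn => by rw [h1 n hn]; exact hu0 n)
      (fun n hn => by rw [h1 n hn]; exact hu0m n hn) hm1 hm2 hm3 hm4 h2 h3 n t ht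
    have h5 : min (1/T) ζ * t ≤ ζ * (t + 1) := by
      calc min (1/T) ζ * t ≤ ζ * t := mul_le_mul_of_nonneg_right (min_le_right _ _) ht.1
        _ ≤ ζ * (t + 1) := by nlinarith
    have h6 : M0 * (ζ * (t+1)) = (U n t - M0) / 2 := by
      rw [hζ]; field_simp
    nlinarith
  refine ⟨U, h1, h2, fun n t ht => ⟨hpos n t ht, hb n t ht⟩, ?_⟩
  intro n hn t ht
  have h4 := h3 n hn t ht
  have hcl' : ∀ n, cl (2*M0) (U n t) = U n t := fun n =>
    cl_eq (hpos n t ht) ((hb n t ht).trans (by linarith))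
  simp only [hcl', one_mul, add_zero] at h4
  exact h4

theorem limit_exists2 (κ e : ℕ → ℝ) (hκ : ∀ n, 0 < κ n) (he : ∀ n, 0 ≤ e n) (δ M0 : ℝ)
    (hδ : 0 ≤ δ) (u0 : ℕ → ℝ) (V : ℕ → ℕ → ℝ → ℝ)
    (hV0 : ∀ (N n : ℕ), n ≤ N → V N n 0 = u0 n)
    (hVb : ∀ (N n : ℕ), ∀ t ∈ Icc (0:ℝ) ((N:ℝ)+1), 0 ≤ V N n t ∧ V N n t ≤ M0)
    (hVd : ∀ (N n : ℕ), n ≤ N → ∀ t ∈ Icc (0:ℝ) ((N:ℝ)+1), HasDerivWithinAt (V N n)
        (rhs κ e δ (fun k => V N k t) n) (Icc 0 ((N:ℝ)+1)) t) :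
    ∃ U : ℕ → ℝ → ℝ, (∀ n, U n 0 = u0 n) ∧ (∀ n t, 0 ≤ t → 0 ≤ U n t ∧ U n t ≤ M0) ∧
      (∀ n t, 0 ≤ t → HasDerivWithinAt (U n) (rhs κ e δ (fun k => U k t) n) (Ici 0) t) ∧
      ∀ n t, 0 ≤ t → ∀ c : ℝ, (∀ᶠ N : ℕ in atTop, V N n t ≤ c) → U n t ≤ c := by
  classical
  let 𝒰 : Ultrafilter ℕ := hyperfilter ℕ
  have hev : ∀ m : ℕ, ∀ᶠ N in (𝒰 : Filter ℕ), m ≤ N := fun m => by
    have : (𝒰 : Filter ℕ) ≤ atTop := by
      rw [← Nat.cofinite_eq_atTop]; exact hyperfilter_le_cofinite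
    exact this (eventually_ge_atTop m)
  have hevr : ∀ r : ℝ, ∀ᶠ N : ℕ in (𝒰 : Filter ℕ), r ≤ (N:ℝ) + 1 := fun r => by
    filter_upwards [hev ⌈r⌉₊] with N hN
    have := Nat.le_ceil r
    have h2 : ((⌈r⌉₊ : ℕ) : ℝ) ≤ N := by exact_mod_cast hN
    linarith
  have hlim : ∀ n t, 0 ≤ t → ∃ x ∈ Icc (0:ℝ) M0, Tendsto (fun N => V N n t) 𝒰 (𝓝 x) := by
    intro n t ht
    have h1 : ∀ᶠ N in (𝒰 : Filter ℕ), V N n t ∈ Icc (0:ℝ) M0 := by
      filter_upwards [hevr t] with N hN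
      exact hVb N n t ⟨ht, hN⟩
    have h2 : ((𝒰.map (fun N => V N n t) : Ultrafilter ℝ) : Filter ℝ) ≤ 𝓟 (Icc (0:ℝ) M0) := by
      rw [le_principal_iff]; exact h1
    obtain ⟨x, hx, hx2⟩ := (isCompact_Icc (a := (0:ℝ)) (b := M0)).ultrafilter_le_nhds _ h2
    exact ⟨x, hx, hx2⟩
  choose! U hUI hUt using hlim
  let L : ℕ → ℝ := fun n => κ n * (δ * M0^2 + M0 * (M0 + e n))
  have hM0 : 0 ≤ M0 := (hUI 0 0 le_rfl).1.trans (hUI 0 0 le_rfl).2
  have hL0 : ∀ n, 0 ≤ L n := fun n => by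
    have := hκ n; have := he n; positivity
  let C : ℕ → ℝ := fun n => κ n * (δ * (2 * M0 * L (n-1)) + (L n * (M0 + e n) + M0 * L (n+1)))
  have hC0 : ∀ n, 0 ≤ C n := fun n => by
    have := hκ n; have := he n; have := hL0 n; have := hL0 (n-1); have := hL0 (n+1); positivity
  -- Lipschitz bound
  have hlip : ∀ (N n : ℕ), n ≤ N → ∀ s ∈ Icc (0:ℝ) ((N:ℝ)+1), ∀ t ∈ Icc (0:ℝ) ((N:ℝ)+1),
      |V N n s - V N n t| ≤ L n * |s - t| := by
    intro N n hn s hs t ht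
    have := (convex_Icc (0:ℝ) ((N:ℝ)+1)).norm_image_sub_le_of_norm_hasDerivWithin_le
      (f := V N n) (f' := fun t => rhs κ e δ (fun k => V N k t) n) (C := L n)
      (fun x hx => hVd N n hn x hx)
      (fun x hx => by
        rw [Real.norm_eq_abs]
        exact rhs_bound κ e hκ he δ M0 hδ _ n (fun k => (hVb N k x hx).1) (fun k => (hVb N k x hx).2))
      ht hs
    simpa [Real.norm_eq_abs] using this
  -- quadratic estimate
  have hquad : ∀ (N n : ℕ), n + 1 ≤ N → ∀ s ∈ Icc (0:ℝ) ((N:ℝ)+1), ∀ t ∈ Icc (0:ℝ) ((N:ℝ)+1),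
      |V N n s - V N n t - (s - t) * rhs κ e δ (fun k => V N k t) n| ≤ C n * |s - t| * |s - t| := by
    intro N n hn s hs t ht
    have hsub : uIcc t s ⊆ Icc (0:ℝ) ((N:ℝ)+1) := uIcc_subset_Icc ht hs
    have hder : ∀ x ∈ uIcc t s, HasDerivWithinAt
        (fun x => V N n x - x * rhs κ e δ (fun k => V N k t) n)
        (rhs κ e δ (fun k => V N k x) n - 1 * rhs κ e δ (fun k => V N k t) n) (uIcc t s) x := by
      intro x hx
      exact ((hVd N n (by omega) x (hsub hx)).mono hsub).sub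
        ((hasDerivWithinAt_id x _).mul_const _)
    have hb : ∀ x ∈ uIcc t s, ‖rhs κ e δ (fun k => V N k x) n - 1 * rhs κ e δ (fun k => V N k t) n‖
        ≤ C n * |s - t| := by
      intro x hx
      rw [one_mul, Real.norm_eq_abs]
      have hx' := hsub hx
      have h1 := rhs_lip κ e hκ he δ M0 hδ (fun k => V N k x) (fun k => V N k t) n L |x - t|
        (fun k => (hVb N k x hx').1) (fun k => (hVb N k x hx').2)
        (fun k => (hVb N k t ht).1) (fun k => (hVb N k t ht).2)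
        (fun k hk => hlip N k (by omega) x hx' t ht) hL0 (abs_nonneg _)
      refine h1.trans (mul_le_mul_of_nonneg_left ?_ (hC0 n))
      exact abs_sub_left_of_mem_uIcc hx
    have := (convex_uIcc t s).norm_image_sub_le_of_norm_hasDerivWithin_le hder hb
      left_mem_uIcc right_mem_uIcc
    simp only [Real.norm_eq_abs] at this
    calc |V N n s - V N n t - (s - t) * rhs κ e δ (fun k => V N k t) n|
        = |V N n s - s * rhs κ e δ (fun k => V N k t) n - (V N n t - t * rhs κ e δ (fun k => V N k t) n)| := by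
          congr 1; ring
      _ ≤ _ := this
  have hrhs : ∀ n t, 0 ≤ t → Tendsto (fun N => rhs κ e δ (fun k => V N k t) n) 𝒰
      (𝓝 (rhs κ e δ (fun k => U k t) n)) := by
    intro n t ht
    unfold rhs
    by_cases h : n = 0
    · simp only [h, if_true]
      exact ((tendsto_const_nhds).sub ((hUt 0 t ht).mul ((hUt _ t ht).add_const _))).const_mul _
    · simp only [h, if_false]
      exact ((((hUt (n-1) t ht).pow 2).const_mul δ).sub
        ((hUt n t ht).mul ((hUt _ t ht).add_const _))).const_mul _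
  have hquadU : ∀ n, ∀ s, 0 ≤ s → ∀ t, 0 ≤ t →
      |U n s - U n t - (s - t) * rhs κ e δ (fun k => U k t) n| ≤ C n * |s - t| * |s - t| := by
    intro n s hs t ht
    have h1 : Tendsto (fun N => |V N n s - V N n t - (s - t) * rhs κ e δ (fun k => V N k t) n|) 𝒰
        (𝓝 |U n s - U n t - (s - t) * rhs κ e δ (fun k => U k t) n|) :=
      (((hUt n s hs).sub (hUt n t ht)).sub ((hrhs n t ht).const_mul _)).abs
    apply le_of_tendsto h1
    filter_upwards [hev (n+1), hevr s, hevr t] with N h2 h3 h4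
    exact hquad N n h2 s ⟨hs, h3⟩ t ⟨ht, h4⟩
  refine ⟨U, ?_, fun n t ht => hUI n t ht, ?_, ?_⟩
  · intro n
    apply tendsto_nhds_unique (hUt n 0 le_rfl)
    apply tendsto_const_nhds.congr'
    filter_upwards [hev n] with N hN
    exact (hV0 N n hN).symm
  · intro n t ht
    rw [hasDerivWithinAt_iff_isLittleO, Asymptotics.isLittleO_iff]
    intro c hc
    have hpos : 0 < c / (C n + 1) := by have := hC0 n; positivity
    have h1 : ∀ᶠ s in 𝓝[Ici 0] t, |s - t| < c / (C n + 1) := by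
      apply mem_nhdsWithin_of_mem_nhds
      have := Metric.ball_mem_nhds t hpos
      filter_upwards [this] with s hs
      rwa [Metric.mem_ball, Real.dist_eq] at hs
    filter_upwards [h1, self_mem_nhdsWithin] with s hs hs0
    rw [Real.norm_eq_abs, Real.norm_eq_abs, smul_eq_mul]
    refine (hquadU n s hs0 t ht).trans ?_
    apply mul_le_mul_of_nonneg_right _ (abs_nonneg _)
    have h2 : (C n + 1) * |s - t| ≤ c := by
      have := hC0 n
      calc (C n + 1) * |s - t| ≤ (C n + 1) * (c / (C n + 1)) := by gcongr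
        _ = c := by field_simp
    nlinarith [abs_nonneg (s - t)]
  · intro n t ht c hc
    apply le_of_tendsto (hUt n t ht)
    have h1 : (𝒰 : Filter ℕ) ≤ atTop := by
      rw [← Nat.cofinite_eq_atTop]; exact hyperfilter_le_cofinite
    exact h1 hc

end Pool.Agent.H219.Dy
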