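import Pool.Agent.H219.Dy.Limit2

/-! The tilted polygons are invariant with a decreasing size `M(t)`. -/

set_option maxHeartbeats 4000000

namespace Pool.Agent.H219.Dy

open Set Filter Topology

noncomputable def tA : Fin 3 → ℝ := ![735/1000, 1204/1000, 1468/1000]
noncomputable def tBc : Fin 3 → ℝ := ![1606/10000, 3358/10000, 468/1000]

theorem uB (R : ℝ) (hR : 73/20 ≤ R) (i : Fin 3) (p x y w e : ℝ) (he : 0 < e) (he1 : e ≤ 1/100)
    (hp0 : 0 ≤ p) (hy : 0 ≤ y) (hx1 : x ≤ 1 - 2 * e)
    (hL : y = tA i * x - tBc i * (1 - e)) (hk : ∀ k, tA k * x - tBc k * (1 - e) ≤ y)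
    (hp : ∀ k, tA k * p - tBc k * (1 - 73/20 * e) ≤ x) (hw : w ≤ 724/1000 * y + 276/1000) :
    e * tBc i < R * (x^2 - y * w) - tA i * (p^2 - x * y) := by
  have k0 : 735/1000 * x - 1606/10000 * (1 - e) ≤ y := hk 0
  have k1 : 1204/1000 * x - 3358/10000 * (1 - e) ≤ y := hk 1
  have k2 : 1468/1000 * x - 468/1000 * (1 - e) ≤ y := hk 2
  have q1 : 1204/1000 * p - 3358/10000 * (1 - 73/20 * e) ≤ x := hp 1
  have q2 : 1468/1000 * p - 468/1000 * (1 - 73/20 * e) ≤ x := hp 2
  have h1 : y * w ≤ y * (724/1000 * y + 276/1000) := mul_le_mul_of_nonneg_left hw hy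
  have hR0 : 0 ≤ R := by linarith
  have main : ∀ A B : ℝ, (e * B + e / 100 ≤ 73/20 * (x^2 - y*(724/1000*y+276/1000)) - A * (p^2 - x*y) ∧
    0 ≤ x^2 - y*(724/1000*y+276/1000)) → e * B < R * (x^2 - y * w) - A * (p^2 - x * y) := by
    rintro A B ⟨g1, g2⟩
    have h2 := mul_nonneg (sub_nonneg.2 hR) g2
    have h3 := mul_nonneg hR0 (sub_nonneg.2 h1)
    nlinarith
  fin_cases i
  · exact main _ _ (tB0 x y p e he.le he1 hy hp0 hL k1 q1)
  · exact main _ _ (tB1 x y p e he.le he1 hy hp0 hL k0 k2 q2)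
  · exact main _ _ (tB2 x y p e he.le he1 hy hp0 hx1 hL k1 q2)

theorem uC (R : ℝ) (hR : 73/20 ≤ R) (p x y w q : ℝ) (hq : 0 < q) (hq1 : 73/20 * q ≤ 1/100)
    (hp0 : 0 ≤ p) (hx0 : 0 ≤ x) (hx1 : x ≤ 1) (hL : y = 724/1000 * x + 276/1000)
    (hp : x ≤ 724/1000 * p + 276/1000) (hk : ∀ k, tA k * y - tBc k * (1 - q) ≤ w) :
    73/20 * q * (276/1000) < 724/1000 * (p^2 - x * y) - R * (x^2 - y * w) := by
  have k0 : 735/1000 * y - 1606/10000 * (1 - q) ≤ w := hk 0
  have k1 : 1204/1000 * y - 3358/10000 * (1 - q) ≤ w := hk 1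
  have k2 : 1468/1000 * y - 468/1000 * (1 - q) ≤ w := hk 2
  obtain ⟨g1, g2⟩ := tC x y w p q hq.le hq1 hx0 hx1 hp0 hL hp k0 k1 k2
  have h2 := mul_nonneg (sub_nonneg.2 hR) g2
  nlinarith

theorem sT (M : ℝ) (hM : 0 < M) (x y p e : ℝ) (he : 0 < e) (he1 : e ≤ 1/100) (hp0 : 0 ≤ p)
    (hx : x = M * (1 - 2 * e)) (hp : p ≤ M * (1 - 2 * (73/20 * e)))
    (hy : 1468/1000 * x - 468/1000 * (M * (1 - e)) ≤ y) : p^2 - x*y + e * M * x < 0 := by
  obtain ⟨p', rfl⟩ : ∃ p', p = M * p' := ⟨p / M, by field_simp⟩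
  obtain ⟨x', rfl⟩ : ∃ p', x = M * p' := ⟨x / M, by field_simp⟩
  obtain ⟨y', rfl⟩ : ∃ p', y = M * p' := ⟨y / M, by field_simp⟩
  have c1 : ∀ u v : ℝ, M * u ≤ M * v → u ≤ v := fun u v h => le_of_mul_le_mul_left h hM
  have c2 : ∀ u v : ℝ, M * u = M * v → u = v := fun u v h => mul_left_cancel₀ hM.ne' h
  have key := tT x' y' p' e he he1 (c1 _ _ (by linarith)) (c2 _ _ hx) (c1 _ _ hp)
    (c1 _ _ (by linarith))
  have := mul_pos (mul_pos hM hM) (neg_pos.2 key)
  nlinarith

theorem sB (M : ℝ) (hM : 0 < M) (R : ℝ) (hR : 73/20 ≤ R) (i : Fin 3) (p x y w e : ℝ) (he : 0 < e)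
    (he1 : e ≤ 1/100) (hp0 : 0 ≤ p) (hy : 0 ≤ y) (hx1 : x ≤ M * (1 - 2 * e))
    (hL : y = tA i * x - tBc i * (M * (1 - e))) (hk : ∀ k, tA k * x - tBc k * (M * (1 - e)) ≤ y)
    (hp : ∀ k, tA k * p - tBc k * (M * (1 - 73/20 * e)) ≤ x)
    (hw : w ≤ 724/1000 * y + 276/1000 * M) :
    M * M * (e * tBc i) < R * (x^2 - y * w) - tA i * (p^2 - x * y) := by
  obtain ⟨p', rfl⟩ : ∃ p', p = M * p' := ⟨p / M, by field_simp⟩
  obtain ⟨x', rfl⟩ : ∃ p', x = M * p' := ⟨x / M, by field_simp⟩
  obtain ⟨y', rfl⟩ : ∃ p', y = M * p' := ⟨y / M, by field_simp⟩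
  obtain ⟨w', rfl⟩ : ∃ p', w = M * p' := ⟨w / M, by field_simp⟩
  have c1 : ∀ u v : ℝ, M * u ≤ M * v → u ≤ v := fun u v h => le_of_mul_le_mul_left h hM
  have c2 : ∀ u v : ℝ, M * u = M * v → u = v := fun u v h => mul_left_cancel₀ hM.ne' h
  have key := uB R hR i p' x' y' w' e he he1 (c1 _ _ (by linarith)) (c1 _ _ (by linarith))
    (c1 _ _ hx1) (c2 _ _ (by linarith)) (fun k => c1 _ _ (by have := hk k; linarith))
    (fun k => c1 _ _ (by have := hp k; linarith)) (c1 _ _ (by linarith))
  have := mul_pos (mul_pos hM hM) (sub_pos.2 key)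
  nlinarith

theorem sC (M : ℝ) (hM : 0 < M) (R : ℝ) (hR : 73/20 ≤ R) (p x y w q : ℝ) (hq : 0 < q)
    (hq1 : 73/20 * q ≤ 1/100) (hp0 : 0 ≤ p) (hx0 : 0 ≤ x) (hx1 : x ≤ M)
    (hL : y = 724/1000 * x + 276/1000 * M) (hp : x ≤ 724/1000 * p + 276/1000 * M)
    (hk : ∀ k, tA k * y - tBc k * (M * (1 - q)) ≤ w) :
    M * M * (73/20 * q * (276/1000)) < 724/1000 * (p^2 - x * y) - R * (x^2 - y * w) := by
  obtain ⟨p', rfl⟩ : ∃ p', p = M * p' := ⟨p / M, by field_simp⟩
  obtain ⟨x', rfl⟩ : ∃ p', x = M * p' := ⟨x / M, by field_simp⟩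
  obtain ⟨y', rfl⟩ : ∃ p', y = M * p' := ⟨y / M, by field_simp⟩
  obtain ⟨w', rfl⟩ : ∃ p', w = M * p' := ⟨w / M, by field_simp⟩
  have c1 : ∀ u v : ℝ, M * u ≤ M * v → u ≤ v := fun u v h => le_of_mul_le_mul_left h hM
  have c2 : ∀ u v : ℝ, M * u = M * v → u = v := fun u v h => mul_left_cancel₀ hM.ne' h
  have key := uC R hR p' x' y' w' q hq hq1 (c1 _ _ (by linarith)) (c1 _ _ (by linarith))
    (c1 _ _ (by linarith)) (c2 _ _ (by linarith)) (c1 _ _ (by linarith))
    (fun k => c1 _ _ (by have := hk k; linarith))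
  have := mul_pos (mul_pos hM hM) (sub_pos.2 key)
  nlinarith

theorem trunc_tilt (R : ℝ) (hR : 73/20 ≤ R) (N : ℕ) (κ : ℕ → ℝ) (hκ : ∀ n, 0 < κ n)
    (hκR : ∀ n, κ (n+1) = R * κ n)
    (ε : ℕ → ℝ) (hε0 : ∀ n, 0 < ε n) (hε1 : ∀ n, ε n ≤ 1/100) (hεR : ∀ n, ε n = 73/20 * ε (n+1))
    (T : ℝ) (M M' : ℝ → ℝ) (hM : ∀ t ∈ Icc (0:ℝ) T, HasDerivWithinAt M (M' t) (Icc 0 T) t)
    (hMpos : ∀ t ∈ Icc (0:ℝ) T, 0 < M t) (hM0 : ∀ t ∈ Icc (0:ℝ) T, M' t ≤ 0)
    (hM' : ∀ n, ∀ t ∈ Icc (0:ℝ) T, - M' t ≤ κ n * ε n * M t ^ 2)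
    (U : ℕ → ℝ → ℝ) (hpos : ∀ n, ∀ t ∈ Icc (0:ℝ) T, 0 ≤ U n t) (hcl : ∀ n, N ≤ n → U n = U N)
    (hs : ∀ n, n ≤ 1 → ∀ t ∈ Icc (0:ℝ) T, U n t ≤ M t / 5)
    (h0 : ∀ n, n ≤ N → U n 0 ≤ M 0 / 5) (hT : 0 ≤ T)
    (hU : ∀ n, 1 ≤ n → n ≤ N → ∀ t ∈ Icc (0:ℝ) T, HasDerivWithinAt (U n)
        (κ n * ((if n = 0 then 0 else U (n-1) t)^2 - U n t * U (n+1) t)) (Icc 0 T) t) :
    ∀ n, ∀ t ∈ Icc (0:ℝ) T, U n t ≤ M t := by
  have hA0 : ∀ k, 0 < tA k := by intro k; fin_cases k <;> norm_num [tA]
  have hB0 : ∀ k, 0 < tBc k := by intro k; fin_cases k <;> norm_num [tBc]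
  have hAB : ∀ k, tA k * (1/5) < tBc k * (99/100) := by intro k; fin_cases k <;> norm_num [tA, tBc]
  have hAB2 : ∀ k, tA k - 1 ≤ tBc k := by intro k; fin_cases k <;> norm_num [tA, tBc]
  set D : ℕ → ℝ → ℝ := fun n t => κ n * ((if n = 0 then 0 else U (n-1) t)^2 - U n t * U (n+1) t) with hD
  let φ : (Fin (N+1) ⊕ ((Fin N × Fin 3) ⊕ Fin N)) → ℝ → ℝ := fun j t =>
    match j with
    | .inl n => if (n:ℕ) = 0 then 1 else M t * (1 - 2 * ε n) - U n t
    | .inr (.inl (n, i)) => if (n:ℕ) = 0 then 1 else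
        U (n+1) t - tA i * U n t + tBc i * (M t * (1 - ε n))
    | .inr (.inr n) => if (n:ℕ) = 0 then 1 else
        724/1000 * U n t + 276/1000 * M t - U (n+1) t
  let φ' : (Fin (N+1) ⊕ ((Fin N × Fin 3) ⊕ Fin N)) → ℝ → ℝ := fun j t =>
    match j with
    | .inl n => if (n:ℕ) = 0 then 0 else M' t * (1 - 2 * ε n) - D n t
    | .inr (.inl (n, i)) => if (n:ℕ) = 0 then 0 else
        D (n+1) t - tA i * D n t + tBc i * (M' t * (1 - ε n))
    | .inr (.inr n) => if (n:ℕ) = 0 then 0 else
        724/1000 * D n t + 276/1000 * M' t - D (n+1) t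
  have key : ∀ t ∈ Icc (0:ℝ) T, ∀ j, 0 < φ j t := by
    apply barrier T φ φ'
    · -- initial
      have hM00 := hMpos 0 ⟨le_rfl, hT⟩
      intro j
      rcases j with n | ⟨n, i⟩ | n
      · simp only [φ]
        split_ifs
        · norm_num
        · have h1 := h0 n (by omega)
          have h2 := hε1 n
          have h3 : M 0 * (98/100) ≤ M 0 * (1 - 2 * ε n) := mul_le_mul_of_nonneg_left (by linarith) hM00.le
          linarith
      · simp only [φ]
        split_ifs
        · norm_num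
        · have h1 := h0 n (by omega)
          have h2 := hpos (n+1) 0 ⟨le_rfl, hT⟩
          have h3 := hε1 n
          have h4 : tA i * U n 0 ≤ tA i * (M 0 / 5) := mul_le_mul_of_nonneg_left h1 (hA0 i).le
          have h5 : M 0 * (99/100) ≤ M 0 * (1 - ε n) := mul_le_mul_of_nonneg_left (by linarith) hM00.le
          have h6 := mul_le_mul_of_nonneg_left h5 (hB0 i).le
          have h7 := mul_lt_mul_of_pos_right (hAB i) hM00
          linarith
      · simp only [φ]
        split_ifs
        · norm_num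
        · have h1 := h0 (n+1) (by omega)
          have h2 := hpos n 0 ⟨le_rfl, hT⟩
          linarith
    · -- derivatives
      intro j t ht
      rcases j with n | ⟨n, i⟩ | n
      · simp only [φ, φ']
        split_ifs
        · exact hasDerivWithinAt_const _ _ _
        · exact ((hM t ht).mul_const _).sub (hU n (by omega) (by omega) t ht)
      · simp only [φ, φ']
        split_ifs
        · exact hasDerivWithinAt_const _ _ _
        · have h1 := hU (n+1) (by omega) (by omega) t ht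
          have h2 := hU n (by omega) (by omega) t ht
          exact ((h1.sub (h2.const_mul (tA i))).add (((hM t ht).mul_const _).const_mul (tBc i)))
      · simp only [φ, φ']
        split_ifs
        · exact hasDerivWithinAt_const _ _ _
        · have h1 := hU (n+1) (by omega) (by omega) t ht
          have h2 := hU n (by omega) (by omega) t ht
          exact (((h2.const_mul _).add ((hM t ht).const_mul _))).sub h1
    · -- the barrier condition
      intro t ht hall j hj
      have htI : t ∈ Icc (0:ℝ) T := ⟨ht.1.le, ht.2⟩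
      have hMt := hMpos t htI
      have hM't := hM0 t htI
      have F0 : ∀ n, 0 ≤ U n t := fun n => hpos n t htI
      have F1 : ∀ n, n ≤ N → U n t ≤ M t * (1 - 2 * ε n) := by
        intro n h
        rcases Nat.eq_zero_or_pos n with h0' | h0'
        · subst h0'
          have h1 := hs 0 (by norm_num) t htI
          have h2 := hε1 0
          have h3 : M t * (98/100) ≤ M t * (1 - 2 * ε 0) := mul_le_mul_of_nonneg_left (by linarith) hMt.le
          linarith
        · have := hall (.inl ⟨n, by omega⟩)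
          simp only [φ] at this
          rw [if_neg (by omega)] at this
          linarith
      have F1' : ∀ n, n ≤ N → U n t ≤ M t := by
        intro n h
        have h1 := F1 n h
        have h2 := mul_pos hMt (hε0 n)
        nlinarith
      have F2 : ∀ n, n ≤ N → ∀ k, tA k * U n t - tBc k * (M t * (1 - ε n)) ≤ U (n+1) t := by
        intro n hn k
        rcases Nat.eq_zero_or_pos n with h0' | h0'
        · subst h0'
          have h1 := hs 0 (by norm_num) t htI
          have h2 := F0 (0+1)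
          have h3 := hε1 0
          have h4 : tA k * U 0 t ≤ tA k * (M t / 5) := mul_le_mul_of_nonneg_left h1 (hA0 k).le
          have h5 : M t * (99/100) ≤ M t * (1 - ε 0) := mul_le_mul_of_nonneg_left (by linarith) hMt.le
          have h6 := mul_le_mul_of_nonneg_left h5 (hB0 k).le
          have h7 := mul_lt_mul_of_pos_right (hAB k) hMt
          linarith
        rcases hn.lt_or_eq with h | h
        · have := hall (.inr (.inl (⟨n, h⟩, k)))
          simp only [φ] at this
          rw [if_neg (by omega)] at this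
          linarith
        · subst h
          rw [hcl (n+1) (by omega)]
          have h1 := hAB2 k
          have h3 := F0 n
          have h4 := F1 n le_rfl
          have h5 : (tA k - 1) * U n t ≤ tBc k * U n t := mul_le_mul_of_nonneg_right h1 h3
          have h6 : M t * (1 - 2 * ε n) ≤ M t * (1 - ε n) :=
            mul_le_mul_of_nonneg_left (by have := hε0 n; linarith) hMt.le
          have h7 : tBc k * U n t ≤ tBc k * (M t * (1 - ε n)) :=
            mul_le_mul_of_nonneg_left (h4.trans h6) (hB0 k).le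
          linarith
      have F3 : ∀ n, n ≤ N → U (n+1) t ≤ 724/1000 * U n t + 276/1000 * M t := by
        intro n hn
        rcases Nat.eq_zero_or_pos n with h0' | h0'
        · subst h0'
          have h1 := hs (0+1) (by norm_num) t htI
          have h2 := F0 0
          linarith
        rcases hn.lt_or_eq with h | h
        · have := hall (.inr (.inr ⟨n, h⟩))
          simp only [φ] at this
          rw [if_neg (by omega)] at this
          linarith
        · subst h
          rw [hcl (n+1) (by omega)]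
          have h4 := F1' n le_rfl
          linarith
      rcases j with n | ⟨n, i⟩ | n
      · -- top
        simp only [φ] at hj
        by_cases hn0 : (n:ℕ) = 0
        · rw [if_pos hn0] at hj; norm_num at hj
        · rw [if_neg hn0] at hj
          simp only [φ', hD]
          rw [if_neg hn0, if_neg hn0]
          obtain ⟨m, hm⟩ : ∃ m, (n:ℕ) = m + 1 := ⟨n - 1, by omega⟩
          have hmN : m + 1 ≤ N := by omega
          rw [hm] at hj ⊢
          simp only [Nat.add_sub_cancel]
          have h1 := F1 m (by omega)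
          rw [hεR m] at h1
          have hk := sT (M t) hMt (U (m+1) t) (U (m+1+1) t) (U m t) (ε (m+1)) (hε0 _) (hε1 _)
            (F0 _) (by linarith) h1 (F2 (m+1) hmN 2)
          have h2 := hM' (m+1) t htI
          have h3 := mul_pos (hκ (m+1)) (neg_pos.2 hk)
          have h4 : 0 ≤ 1 - 2 * ε (m+1) := by have := hε1 (m+1); linarith
          have h5 := mul_le_mul_of_nonneg_right h2 h4
          have h6 : U (m+1) t = M t * (1 - 2 * ε (m+1)) := by linarith
          have h7 : κ (m+1) * ε (m+1) * M t ^ 2 * (1 - 2 * ε (m+1))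
            = κ (m+1) * (ε (m+1) * M t * U (m+1) t) := by rw [h6]; ring
          rw [h7] at h5
          linarith
      · -- lower edges
        simp only [φ] at hj
        by_cases hn0 : (n:ℕ) = 0
        · rw [if_pos hn0] at hj; norm_num at hj
        · rw [if_neg hn0] at hj
          simp only [φ', hD]
          rw [if_neg hn0, if_neg hn0]
          obtain ⟨m, hm⟩ : ∃ m, (n:ℕ) = m + 1 := ⟨n - 1, by omega⟩
          have hmN : m + 2 ≤ N := by omega
          rw [hm] at hj ⊢
          simp only [Nat.add_sub_cancel, Nat.add_eq_zero_iff, one_ne_zero, and_false, if_false]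
          have hpk : ∀ k, tA k * U m t - tBc k * (M t * (1 - 73/20 * ε (m+1))) ≤ U (m+1) t := by
            intro k
            have := F2 m (by omega) k
            rw [hεR m] at this
            exact this
          have hk := sB (M t) hMt R hR i (U m t) (U (m+1) t) (U (m+1+1) t) (U (m+1+1+1) t) (ε (m+1))
            (hε0 _) (hε1 _) (F0 _) (F0 _) (F1 (m+1) (by omega)) (by linarith)
            (F2 (m+1) (by omega)) hpk (F3 (m+1+1) (by omega))
          have h2 := hM' (m+1) t htI
          have h3 := mul_lt_mul_of_pos_left hk (hκ (m+1))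
          have h4 : 0 ≤ tBc i * (- M' t) * ε (m+1) :=
            mul_nonneg (mul_nonneg (hB0 i).le (by linarith)) (hε0 _).le
          have h5 := mul_le_mul_of_nonneg_left h2 (hB0 i).le
          rw [hκR (m+1)]
          have e1 : R * κ (m+1) * (U (m+1) t ^ 2 - U (m+1+1) t * U (m+1+1+1) t)
            - tA i * (κ (m+1) * (U m t ^ 2 - U (m+1) t * U (m+1+1) t))
            = κ (m+1) * (R * (U (m+1) t ^ 2 - U (m+1+1) t * U (m+1+1+1) t)
              - tA i * (U m t ^ 2 - U (m+1) t * U (m+1+1) t)) := by ring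
          rw [e1]
          have e2 : κ (m+1) * (M t * M t * (ε (m+1) * tBc i)) = tBc i * (κ (m+1) * ε (m+1) * M t ^ 2) := by
            ring
          rw [e2] at h3
          linarith
      · -- upper edge
        simp only [φ] at hj
        by_cases hn0 : (n:ℕ) = 0
        · rw [if_pos hn0] at hj; norm_num at hj
        · rw [if_neg hn0] at hj
          simp only [φ', hD]
          rw [if_neg hn0, if_neg hn0]
          obtain ⟨m, hm⟩ : ∃ m, (n:ℕ) = m + 1 := ⟨n - 1, by omega⟩
          have hmN : m + 2 ≤ N := by omega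
          rw [hm] at hj ⊢
          simp only [Nat.add_sub_cancel, Nat.add_eq_zero_iff, one_ne_zero, and_false, if_false]
          have hq1 : 73/20 * ε (m+1+1) ≤ 1/100 := by
            rw [← hεR (m+1)]; exact hε1 _
          have hk := sC (M t) hMt R hR (U m t) (U (m+1) t) (U (m+1+1) t) (U (m+1+1+1) t) (ε (m+1+1))
            (hε0 _) hq1 (F0 _) (F0 _) (F1' (m+1) (by omega)) (by linarith)
            (F3 m (by omega)) (F2 (m+1+1) (by omega))
          rw [← hεR (m+1)] at hk
          have h2 := hM' (m+1) t htI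
          have h3 := mul_lt_mul_of_pos_left hk (hκ (m+1))
          rw [hκR (m+1)]
          have e1 : 724/1000 * (κ (m+1) * (U m t ^ 2 - U (m+1) t * U (m+1+1) t))
            - R * κ (m+1) * (U (m+1) t ^ 2 - U (m+1+1) t * U (m+1+1+1) t)
            = κ (m+1) * (724/1000 * (U m t ^ 2 - U (m+1) t * U (m+1+1) t)
              - R * (U (m+1) t ^ 2 - U (m+1+1) t * U (m+1+1+1) t)) := by ring
          have e2 : κ (m+1) * (M t * M t * (ε (m+1) * (276/1000)))
            = 276/1000 * (κ (m+1) * ε (m+1) * M t ^ 2) := by ring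
          rw [e2] at h3
          linarith
  intro n t ht
  have hfin : ∀ n, n ≤ N → U n t ≤ M t := by
    intro n hn
    have hMt := hMpos t ht
    rcases Nat.eq_zero_or_pos n with h0' | h0'
    · subst h0'
      have := hs 0 (by norm_num) t ht
      linarith
    · have := key t ht (.inl ⟨n, by omega⟩)
      simp only [φ] at this
      rw [if_neg (by omega)] at this
      have h2 := mul_pos hMt (hε0 n)
      nlinarith
  rcases le_total n N with h | h
  · exact hfin n h
  · rw [hcl n h]; exact hfin N le_rfl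

end Pool.Agent.H219.Dy
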